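import Mathlib

/-!
# Asymptotically modular vectors

Definitions used in the statement about Nahm sums of arbitrary rank.
-/

open Filter Topology Asymptotics

namespace Pool.Agent.Lib.MP_8ce23f_nt

/-- The Nahm sum `∑_n q^(nᵀ A n / 2 + x·n) / ∏_i (q)_(n_i)` of a real vector `x`, at
`q = exp (-ε)`. -/
noncomputable def nahmReal {r : ℕ} (A : Matrix (Fin r) (Fin r) ℝ) (x : Fin r → ℝ) (ε : ℝ) : ℝ :=
  ∑' n : Fin r → ℕ,
    Real.exp (-(ε * ((∑ i, ∑ j, (n i : ℝ) * A i j * (n j : ℝ)) / 2 + ∑ i, x i * (n i : ℝ)))) /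
      ∏ i, ∏ j ∈ Finset.range (n i), (1 - Real.exp (-(ε * ((j : ℝ) + 1))))

/-- The Nahm sum of `x` is `exp (c / ε + κ + d ε) (1 + O(ε^K))` at `q = exp (-ε)`, as `ε → 0`, for
every `K`: it has the asymptotic expansion of a modular function. -/
def AsyModular {r : ℕ} (A : Matrix (Fin r) (Fin r) ℝ) (x : Fin r → ℝ) : Prop :=
  ∃ c κ d : ℝ, ∀ K : ℕ,
    (fun ε : ℝ => nahmReal A x ε * Real.exp (-(c / ε + κ + d * ε)) - 1) =O[𝓝[>] 0]
      fun ε : ℝ => ε ^ K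

end Pool.Agent.Lib.MP_8ce23f_nt
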