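import Mathlib

/-!
# The effective central charge of a Nahm sum

Definitions used in the statement about Nahm sums of arbitrary rank.
-/

namespace Pool.Agent.Lib.MP_8ce23f_nt

/-- `h(y) = ∑_{n ≥ 1} (1 - exp (-n y)) / n² = π²/6 - Li₂(exp (-y))`. -/
noncomputable def hfun (y : ℝ) : ℝ :=
  ∑' n : ℕ, (1 - Real.exp (-(((n : ℝ) + 1) * y))) / ((n : ℝ) + 1) ^ 2

/-- `∑_{i ∈ Z} h(z_i) - (1/2) zᵀ A z`. -/
noncomputable def obj {r : ℕ} (A : Matrix (Fin r) (Fin r) ℝ) (Z : Finset (Fin r))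
    (z : Fin r → ℝ) : ℝ :=
  ∑ i ∈ Z, hfun (z i) - 1 / 2 * ∑ i, ∑ j, z i * A i j * z j

/-- The vectors `z` with `z_i ≥ 0` for `i ∈ Z`, `z_i` arbitrary for `i ∈ I \ Z` and `z_i = 0`
for all other `i`. -/
def Feas {r : ℕ} (I Z : Finset (Fin r)) : Set (Fin r → ℝ) :=
  {z | (∀ i ∈ Z, 0 ≤ z i) ∧ ∀ i, i ∉ I → i ∉ Z → z i = 0}

/-- The effective central charge of the positive definite matrix `A`, relative to `(I, Z)`:
`6/π²` times the maximum of `∑_{i ∈ Z} h(z_i) - (1/2) zᵀ A z` over the `z` with `z_i ≥ 0` for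
`i ∈ Z`, `z_i` arbitrary for `i ∈ I \ Z` and `z_i = 0` for all other `i`.
For `I = ∅`, `Z = univ` it is the effective central charge of `A`. -/
noncomputable def charge {r : ℕ} (A : Matrix (Fin r) (Fin r) ℝ) (I Z : Finset (Fin r)) : ℝ :=
  6 / Real.pi ^ 2 * sSup (obj A Z '' Feas I Z)

/-- The charge splits off a positive integer: there are disjoint sets `I ≠ ∅` and `Z` of indices,
with `I ∪ Z` not everything, such that `charge A ∅ univ = |I| + charge A I Z`. -/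
def Splits {r : ℕ} (A : Matrix (Fin r) (Fin r) ℝ) : Prop :=
  ∃ I Z : Finset (Fin r), I.Nonempty ∧ Disjoint I Z ∧ I ∪ Z ≠ Finset.univ ∧
    charge A ∅ Finset.univ = I.card + charge A I Z

/-- The growth constant: the maximum of `∑_i h(z_i) - (1/2) zᵀ A z - x·z` over `z ≥ 0`. -/
noncomputable def growth {r : ℕ} (A : Matrix (Fin r) (Fin r) ℝ) (x : Fin r → ℝ) : ℝ :=
  sSup ((fun z => obj A Finset.univ z - ∑ i, x i * z i) '' {z | ∀ i, 0 ≤ z i})

/-- `Q` is the solution of Nahm's equations `1 - Q_i = ∏_j Q_j ^ A_ij` with all `Q_i` in `(0, 1)`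
(for positive definite `A` there is exactly one). -/
def IsNahm {r : ℕ} (A : Matrix (Fin r) (Fin r) ℝ) (Q : Fin r → ℝ) : Prop :=
  ∀ i, 0 < Q i ∧ Q i < 1 ∧ 1 - Q i = ∏ j, Q j ^ A i j

/-- The integral vector `v` is a flat direction: `growth A (s v) = growth A 0 + c s²` for all real
`s`, for some constant `c`. -/
def FlatDir {r : ℕ} (A : Matrix (Fin r) (Fin r) ℝ) (v : Fin r → ℤ) : Prop :=
  ∃ c : ℝ, ∀ s : ℝ, growth A (fun i => s * (v i : ℝ)) = growth A 0 + c * s ^ 2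

/-- There is a flat direction `v ≠ 0`. -/
def Flat {r : ℕ} (A : Matrix (Fin r) (Fin r) ℝ) : Prop :=
  ∃ v : Fin r → ℤ, v ≠ 0 ∧ FlatDir A v

/-- The exceptional matrices: `A` has a flat direction `v ≠ 0` in `ℤ^r`, and `∏ Q_i ^ v_i = 1` for
the solution `Q` of Nahm's equations; the effective central charge of `A` is at least `1`, and it
splits off a positive integer `|I|`, where `I ≠ ∅` and `Z` are disjoint and `I ∪ Z` is not
everything; the splitting equation determines every entry `A k k` with `k ∉ I ∪ Z` from the other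
entries of `A`. -/
def Exceptional {r : ℕ} (A : Matrix (Fin r) (Fin r) ℝ) : Prop :=
  (∃ v : Fin r → ℤ, v ≠ 0 ∧ FlatDir A v ∧
    ∀ Q : Fin r → ℝ, IsNahm A Q → ∏ i, Q i ^ v i = 1) ∧
  1 ≤ charge A ∅ Finset.univ ∧
    ∃ I Z : Finset (Fin r), I.Nonempty ∧ Disjoint I Z ∧ I ∪ Z ≠ Finset.univ ∧
      charge A ∅ Finset.univ = I.card + charge A I Z ∧
      ∀ k : Fin r, k ∉ I → k ∉ Z → ∀ A' : Matrix (Fin r) (Fin r) ℝ, A'.PosDef →
        (∀ i j, (i, j) ≠ (k, k) → A' i j = A i j) →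
        charge A' ∅ Finset.univ = I.card + charge A' I Z → A' = A

end Pool.Agent.Lib.MP_8ce23f_nt
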