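import Mathlib

/-!
# An inequality for interlacing products
-/

open Filter Topology Finset Complex
open scoped Real

namespace Pool.Agent.Lib.MP_8ce23f_nt

/-- Distance of `-1` to the segment spanned by a unit complex number. -/
lemma exists_lower_segment {ζ : ℂ} (hζ : ‖ζ‖ = 1) (hne : ζ ≠ -1) :
    ∃ δ : ℝ, 0 < δ ∧ ∀ u : ℝ, 0 ≤ u → u ≤ 1 → δ ≤ ‖1 + ζ * u‖ := by
  obtain ⟨u0, hu0, hmin⟩ := (isCompact_Icc (a := (0 : ℝ)) (b := 1)).exists_isMinOn
    (Set.nonempty_Icc.mpr zero_le_one)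
    (f := fun u : ℝ => ‖1 + ζ * (u : ℂ)‖) (by fun_prop)
  refine ⟨‖1 + ζ * (u0 : ℂ)‖, ?_, fun u h0 h1 => hmin ⟨h0, h1⟩⟩
  rw [norm_pos_iff]
  intro h
  have h1 : ζ * (u0 : ℂ) = -1 := by linear_combination h
  have h2 : ‖ζ * (u0 : ℂ)‖ = 1 := by rw [h1]; simp
  rw [norm_mul, hζ, one_mul, Complex.norm_real, Real.norm_eq_abs, abs_of_nonneg hu0.1] at h2
  rw [h2] at h1
  apply hne
  simpa using h1

lemma sum_abs_sub_le {u v : ℕ → ℝ} (h01 : ∀ m, 0 ≤ u m ∧ u m ≤ 1) (h : ∀ m, v m ≤ u m)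
    (h' : ∀ m, u (m + 1) ≤ v m) (M : ℕ) : ∑ m ∈ range M, |u m - v m| ≤ 1 := by
  have h1 : ∑ m ∈ range M, |u m - v m| ≤ ∑ m ∈ range M, (u m - u (m + 1)) := by
    apply sum_le_sum
    intro m _
    rw [abs_of_nonneg (by linarith [h m])]
    linarith [h' m]
  rw [sum_range_sub'] at h1
  have := h01 0
  have := h01 M
  linarith

lemma norm_ratio_le {ζ : ℂ} (hζ : ‖ζ‖ = 1) {δ : ℝ} (hδ : 0 < δ) {u v : ℝ}
    (hv : δ ≤ ‖1 + ζ * v‖) : ‖1 + ζ * u‖ ≤ Real.exp (|u - v| / δ) * ‖1 + ζ * v‖ := by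
  have h1 : ‖1 + ζ * u‖ ≤ |u - v| + ‖1 + ζ * v‖ := by
    have h2 : (1 + ζ * u : ℂ) = ζ * ((u - v : ℝ) : ℂ) + (1 + ζ * v) := by push_cast; ring
    rw [h2]
    refine (norm_add_le _ _).trans ?_
    rw [norm_mul, hζ, one_mul, Complex.norm_real, Real.norm_eq_abs]
  have h3 : |u - v| / δ + 1 ≤ Real.exp (|u - v| / δ) := Real.add_one_le_exp _
  have h4 : |u - v| ≤ |u - v| / δ * ‖1 + ζ * v‖ := by
    rw [div_mul_eq_mul_div, le_div_iff₀ hδ]
    exact mul_le_mul_of_nonneg_left hv (abs_nonneg _)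
  have h5 : 0 < ‖1 + ζ * v‖ := lt_of_lt_of_le hδ hv
  nlinarith

lemma prod_ratio_le {ζ : ℂ} (hζ : ‖ζ‖ = 1) {δ : ℝ} (hδ : 0 < δ)
    (hlow : ∀ u : ℝ, 0 ≤ u → u ≤ 1 → δ ≤ ‖1 + ζ * u‖) {u v : ℕ → ℝ}
    (hv01 : ∀ m, 0 ≤ v m ∧ v m ≤ 1) (M : ℕ) :
    ∏ m ∈ range M, ‖1 + ζ * u m‖ ≤
      Real.exp ((∑ m ∈ range M, |u m - v m|) / δ) * ∏ m ∈ range M, ‖1 + ζ * v m‖ := by
  induction M with
  | zero => simp
  | succ M ih =>
    rw [prod_range_succ, prod_range_succ, sum_range_succ, add_div, Real.exp_add]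
    have h1 := norm_ratio_le hζ hδ (u := u M) (hlow (v M) (hv01 M).1 (hv01 M).2)
    calc (∏ m ∈ range M, ‖1 + ζ * u m‖) * ‖1 + ζ * u M‖
        ≤ (Real.exp ((∑ m ∈ range M, |u m - v m|) / δ) * ∏ m ∈ range M, ‖1 + ζ * v m‖) *
          (Real.exp (|u M - v M| / δ) * ‖1 + ζ * v M‖) := by
          apply mul_le_mul ih h1 (norm_nonneg _)
          apply mul_nonneg (Real.exp_pos _).le
          exact prod_nonneg fun _ _ => norm_nonneg _
      _ = _ := by ring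

/-- The core inequality, `ζ` generic. -/
lemma core_generic {ζ : ℂ} (hζ : ‖ζ‖ = 1) (hne : ζ ≠ -1) :
    ∃ C : ℝ, 0 < C ∧ ∀ (a σ : ℝ), 0 < a → 0 < σ → σ < 1 → ∀ M : ℕ,
      ∏ m ∈ range M, ‖1 + ζ * (Real.exp (-(a * (m + σ))) : ℝ)‖ ≤
        C * ∏ m ∈ range M, ‖1 + ζ * (Real.exp (-(a * (m + 1 - σ))) : ℝ)‖ := by
  obtain ⟨δ, hδ, hlow⟩ := exists_lower_segment hζ hne
  refine ⟨Real.exp (1 / δ), Real.exp_pos _, fun a σ ha hσ0 hσ1 M => ?_⟩
  set u : ℕ → ℝ := fun m => Real.exp (-(a * (m + σ))) with hu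
  set v : ℕ → ℝ := fun m => Real.exp (-(a * (m + 1 - σ))) with hv
  have hu01 : ∀ m, 0 ≤ u m ∧ u m ≤ 1 := fun m => ⟨(Real.exp_pos _).le, by
    rw [hu, Real.exp_le_one_iff]
    have : (0 : ℝ) ≤ m := Nat.cast_nonneg m
    have : 0 ≤ a * (m + σ) := by positivity
    linarith⟩
  have hv01 : ∀ m, 0 ≤ v m ∧ v m ≤ 1 := fun m => ⟨(Real.exp_pos _).le, by
    rw [hv, Real.exp_le_one_iff]
    have h1 : (0 : ℝ) ≤ m := Nat.cast_nonneg m
    have : 0 ≤ a * (m + 1 - σ) := mul_nonneg ha.le (by linarith)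
    linarith⟩
  have hsum : ∑ m ∈ range M, |u m - v m| ≤ 1 := by
    rcases le_total σ (1 / 2) with h | h
    · apply sum_abs_sub_le hu01
      · intro m
        simp only [hu, hv]
        apply Real.exp_le_exp.mpr
        nlinarith
      · intro m
        simp only [hu, hv]
        apply Real.exp_le_exp.mpr
        push_cast
        nlinarith
    · have : ∀ m, |u m - v m| = |v m - u m| := fun m => abs_sub_comm _ _
      simp only [this]
      apply sum_abs_sub_le hv01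
      · intro m
        simp only [hu, hv]
        apply Real.exp_le_exp.mpr
        nlinarith
      · intro m
        simp only [hu, hv]
        apply Real.exp_le_exp.mpr
        push_cast
        nlinarith
  refine (prod_ratio_le hζ hδ hlow hv01 M (u := u)).trans ?_
  apply mul_le_mul_of_nonneg_right _ (prod_nonneg fun _ _ => norm_nonneg _)
  apply Real.exp_le_exp.mpr
  gcongr

lemma norm_one_sub_of_mem {u : ℝ} (h : u ≤ 1) : ‖(1 + (-1 : ℂ) * (u : ℂ))‖ = 1 - u := by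
  have : (1 + (-1 : ℂ) * (u : ℂ)) = ((1 - u : ℝ) : ℂ) := by push_cast; ring
  rw [this, Complex.norm_real, Real.norm_eq_abs, abs_of_nonneg (by linarith)]

/-- The core inequality, `ζ = -1`. -/
lemma core_neg_one (a σ : ℝ) (ha : 0 < a) (hσ0 : 0 < σ) (hσ1 : σ < 1) (M : ℕ) :
    ∏ m ∈ range M, ‖1 + (-1 : ℂ) * (Real.exp (-(a * (m + σ))) : ℝ)‖ ≤
        (1 + 1 / (a * (1 - σ))) *
          ∏ m ∈ range M, ‖1 + (-1 : ℂ) * (Real.exp (-(a * (m + 1 - σ))) : ℝ)‖ := by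
  have hu1 : ∀ m : ℕ, Real.exp (-(a * (m + σ))) ≤ 1 := fun m => by
    rw [Real.exp_le_one_iff]
    have : (0 : ℝ) ≤ m := Nat.cast_nonneg m
    have : 0 ≤ a * (m + σ) := by positivity
    linarith
  have hv1 : ∀ m : ℕ, Real.exp (-(a * (m + 1 - σ))) ≤ 1 := fun m => by
    rw [Real.exp_le_one_iff]
    have h1 : (0 : ℝ) ≤ m := Nat.cast_nonneg m
    have : 0 ≤ a * (m + 1 - σ) := mul_nonneg ha.le (by linarith)
    linarith
  simp only [norm_one_sub_of_mem (hu1 _), norm_one_sub_of_mem (hv1 _)]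
  have hx : 0 < a * (1 - σ) := mul_pos ha (by linarith)
  set v : ℕ → ℝ := fun m => Real.exp (-(a * (m + 1 - σ))) with hv
  have hv0 : 1 - v 0 = 1 - Real.exp (-(a * (1 - σ))) := by
    simp [hv]
  have hlow : a * (1 - σ) / (1 + a * (1 - σ)) ≤ 1 - v 0 := by
    rw [hv0]
    have h1 : a * (1 - σ) + 1 ≤ Real.exp (a * (1 - σ)) := Real.add_one_le_exp _
    have h2 : Real.exp (-(a * (1 - σ))) ≤ 1 / (1 + a * (1 - σ)) := by
      rw [Real.exp_neg, ← one_div]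
      apply one_div_le_one_div_of_le (by linarith)
      linarith
    have h3 : a * (1 - σ) / (1 + a * (1 - σ)) = 1 - 1 / (1 + a * (1 - σ)) := by
      field_simp
      ring
    linarith
  have hpos0 : 0 < 1 - v 0 := lt_of_lt_of_le (by positivity) hlow
  have key : (1 - v 0) * ∏ m ∈ range M, (1 - Real.exp (-(a * (m + σ)))) ≤
      ∏ m ∈ range M, (1 - v m) := by
    have h1 : ∏ m ∈ range M, (1 - Real.exp (-(a * (m + σ)))) ≤ ∏ m ∈ range M, (1 - v (m + 1)) := by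
      apply Finset.prod_le_prod
      · intro m _
        linarith [hu1 m]
      · intro m _
        simp only [hv]
        have : Real.exp (-(a * ((m + 1 : ℕ) + 1 - σ))) ≤ Real.exp (-(a * (m + σ))) := by
          apply Real.exp_le_exp.mpr
          push_cast
          nlinarith
        linarith
    have h2 : (1 - v 0) * ∏ m ∈ range M, (1 - v (m + 1)) = (∏ m ∈ range M, (1 - v m)) * (1 - v M) := by
      rw [← prod_range_succ, prod_range_succ']
      ring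
    have h3 : (∏ m ∈ range M, (1 - v m)) * (1 - v M) ≤ ∏ m ∈ range M, (1 - v m) := by
      apply mul_le_of_le_one_right
      · exact prod_nonneg fun m _ => by linarith [hv1 m]
      · have : 0 < v M := Real.exp_pos _
        linarith
    calc (1 - v 0) * ∏ m ∈ range M, (1 - Real.exp (-(a * (m + σ))))
        ≤ (1 - v 0) * ∏ m ∈ range M, (1 - v (m + 1)) := by gcongr
      _ = (∏ m ∈ range M, (1 - v m)) * (1 - v M) := h2
      _ ≤ _ := h3
  have h4 : ∏ m ∈ range M, (1 - Real.exp (-(a * (m + σ)))) ≤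
      (1 - v 0)⁻¹ * ∏ m ∈ range M, (1 - v m) := by
    rw [inv_mul_eq_div, le_div_iff₀ hpos0]
    linarith
  have h5 : (1 - v 0)⁻¹ ≤ 1 + 1 / (a * (1 - σ)) := by
    have h6 : 1 + 1 / (a * (1 - σ)) = (a * (1 - σ) / (1 + a * (1 - σ)))⁻¹ := by
      rw [inv_div, add_div, div_self hx.ne']
      ring
    rw [h6]
    exact inv_anti₀ (by positivity) hlow
  refine h4.trans ?_
  apply mul_le_mul_of_nonneg_right h5
  exact prod_nonneg fun m _ => by linarith [hv1 m]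

end Pool.Agent.Lib.MP_8ce23f_nt
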