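import Mathlib

/-!
# Nahm sums and modular functions: the definitions used in the statements
-/

open UpperHalfPlane
open scoped Real MatrixGroups

namespace Pool.Agent.Lib.MP_8ce23f_nt

/-- `q ^ x = exp (2 π i x τ)` for a rational exponent `x`, where `q = exp (2 π i τ)`. -/
noncomputable def qPow (x : ℚ) (τ : ℍ) : ℂ := Complex.exp (2 * π * Complex.I * x * τ)

/-- `(q)_m = (1 - q) (1 - q ^ 2) ⋯ (1 - q ^ m)`. -/
noncomputable def qFac (m : ℕ) (τ : ℍ) : ℂ := ∏ j ∈ Finset.range m, (1 - qPow (j + 1) τ)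

/-- The exponent `(1/2) nᵀ A n + Bᵀ n + C`. -/
def nahmExp {r : ℕ} (A : Matrix (Fin r) (Fin r) ℚ) (B : Fin r → ℚ) (C : ℚ)
    (n : Fin r → ℕ) : ℚ :=
  1 / 2 * ∑ i, ∑ j, (n i : ℚ) * A i j * (n j : ℚ) + ∑ i, B i * (n i : ℚ) + C

/-- The Nahm sum `f_{A,B,C}(τ) = ∑_{n ∈ ℕ^r} q^{(1/2) nᵀ A n + Bᵀ n + C} / ((q)_{n_1} ⋯ (q)_{n_r})`. -/
noncomputable def nahmSum {r : ℕ} (A : Matrix (Fin r) (Fin r) ℚ) (B : Fin r → ℚ) (C : ℚ)
    (τ : ℍ) : ℂ :=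
  ∑' n : Fin r → ℕ, qPow (nahmExp A B C n) τ / ∏ i, qFac (n i) τ

/-- `f` is a modular function (weight `0`) for some subgroup `Γ` of finite index in `SL(2,ℤ)`:
it is invariant under `Γ`, meromorphic on the upper half plane, and meromorphic at every cusp,
that is, for every `γ ∈ SL(2,ℤ)` some power `q ^ m` times `f ∘ γ` is bounded as
`Im τ → ∞`. -/
def IsModularFunction (f : ℍ → ℂ) : Prop :=
  ∃ Γ : Subgroup SL(2, ℤ), Γ.FiniteIndex ∧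
    (∀ γ ∈ Γ, ∀ τ : ℍ, f (γ • τ) = f τ) ∧
    (∀ τ : ℍ, MeromorphicAt (fun z : ℂ => f (ofComplex z)) (τ : ℂ)) ∧
    (∀ γ : SL(2, ℤ), ∃ m : ℕ, IsBoundedAtImInfty fun τ : ℍ => qPow m τ * f (γ • τ))

/-- `B` is admissible for `A`: some `f_{A,B,C}` with `C` rational is modular. -/
def Admissible {r : ℕ} (A : Matrix (Fin r) (Fin r) ℚ) (B : Fin r → ℚ) : Prop :=
  ∃ C : ℚ, IsModularFunction (nahmSum A B C)

end Pool.Agent.Lib.MP_8ce23f_nt
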