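import Mathlib

/-!
# Euler's product, the Durfee rectangle identity and the triple product
-/

open Filter Topology Finset

namespace Pool.Agent.Lib.MP_8ce23f_nt

/-- `(q)_n = (1-q)(1-q^2)...(1-q^n)`. -/
noncomputable def poch (q : ℂ) (n : ℕ) : ℂ := ∏ j ∈ range n, (1 - q ^ (j + 1))

lemma poch_zero (q : ℂ) : poch q 0 = 1 := by simp [poch]

lemma poch_succ (q : ℂ) (n : ℕ) : poch q (n + 1) = poch q n * (1 - q ^ (n + 1)) := by
  simp [poch, prod_range_succ]

lemma one_sub_pow_ne_zero {q : ℂ} (hq : ‖q‖ < 1) (n : ℕ) : 1 - q ^ (n + 1) ≠ 0 := by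
  intro h
  have h1 : q ^ (n + 1) = 1 := (sub_eq_zero.mp h).symm
  have h2 : ‖q‖ ^ (n + 1) = 1 := by rw [← norm_pow, h1, norm_one]
  have h3 : ‖q‖ ^ (n + 1) < 1 := pow_lt_one₀ (norm_nonneg _) hq (Nat.succ_ne_zero n)
  linarith

lemma poch_ne_zero {q : ℂ} (hq : ‖q‖ < 1) (n : ℕ) : poch q n ≠ 0 :=
  prod_ne_zero_iff.mpr fun j _ => one_sub_pow_ne_zero hq j

/-- `(q)_∞`. -/
noncomputable def pochInf (q : ℂ) : ℂ := ∏' n : ℕ, (1 - q ^ (n + 1))

lemma multipliable_pochInf {q : ℂ} (hq : ‖q‖ < 1) : Multipliable fun n : ℕ => (1 - q ^ (n + 1)) :=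
  ModularForm.multipliable_one_sub_pow hq

lemma pochInf_ne_zero {q : ℂ} (hq : ‖q‖ < 1) : pochInf q ≠ 0 := by
  unfold pochInf
  have h := tprod_one_add_ne_zero_of_summable (f := fun n : ℕ => -q ^ (n + 1)) ?_ ?_
  · simpa [sub_eq_add_neg] using h
  · intro n
    simpa [sub_eq_add_neg] using one_sub_pow_ne_zero hq n
  · simpa using (summable_nat_add_iff 1).mpr (summable_geometric_of_lt_one (norm_nonneg _) hq)

lemma tendsto_poch {q : ℂ} (hq : ‖q‖ < 1) :
    Tendsto (poch q) atTop (𝓝 (pochInf q)) :=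
  (multipliable_pochInf hq).hasProd.tendsto_prod_nat

lemma exists_poch_lower {q : ℂ} (hq : ‖q‖ < 1) : ∃ c : ℝ, 0 < c ∧ ∀ n, c ≤ ‖poch q n‖ := by
  have h1 : Tendsto (fun n => ‖poch q n‖⁻¹) atTop (𝓝 (‖pochInf q‖⁻¹)) :=
    (tendsto_poch hq).norm.inv₀ (norm_ne_zero_iff.mpr (pochInf_ne_zero hq))
  obtain ⟨C, hC⟩ := h1.bddAbove_range
  have hC' : ∀ n, ‖poch q n‖⁻¹ ≤ C := fun n => hC ⟨n, rfl⟩
  have hpos : 0 < C := lt_of_lt_of_le (inv_pos.mpr (norm_pos_iff.mpr (poch_ne_zero hq 0))) (hC' 0)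
  refine ⟨C⁻¹, inv_pos.mpr hpos, fun n => ?_⟩
  have := hC' n
  rw [inv_le_comm₀ hpos (norm_pos_iff.mpr (poch_ne_zero hq n))]
  exact this

/-- term of Euler's series. -/
noncomputable def eterm (q w : ℂ) (n : ℕ) : ℂ := q ^ (n.choose 2) * w ^ n / poch q n

lemma choose_two_succ (n : ℕ) : (n + 1).choose 2 = n.choose 2 + n := by
  rw [Nat.choose_succ_succ' n 1]; simp [add_comm]

lemma eterm_zero (q w : ℂ) : eterm q w 0 = 1 := by simp [eterm, poch_zero]

lemma eterm_succ (q w : ℂ) (n : ℕ) :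
    eterm q w (n + 1) = eterm q w n * (q ^ n * w / (1 - q ^ (n + 1))) := by
  simp only [eterm, poch_succ, choose_two_succ, pow_add, pow_one]
  rw [div_mul_div_comm]
  ring

lemma summable_norm_eterm {q : ℂ} (hq : ‖q‖ < 1) (w : ℂ) : Summable fun n => ‖eterm q w n‖ := by
  have h1 : Tendsto (fun n : ℕ => ‖q ^ n * w / (1 - q ^ (n + 1))‖) atTop (𝓝 0) := by
    have h2 : Tendsto (fun n : ℕ => q ^ n) atTop (𝓝 0) := tendsto_pow_atTop_nhds_zero_of_norm_lt_one hq
    have h3 : Tendsto (fun n : ℕ => q ^ (n + 1)) atTop (𝓝 0) := h2.comp (tendsto_add_atTop_nat 1)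
    have h4 : Tendsto (fun n : ℕ => q ^ n * w / (1 - q ^ (n + 1))) atTop (𝓝 (0 * w / (1 - 0))) :=
      (h2.mul_const w).div (tendsto_const_nhds.sub h3) (by simp)
    simpa using h4.norm
  have h5 : ∀ᶠ n : ℕ in atTop, ‖q ^ n * w / (1 - q ^ (n + 1))‖ < 1 / 2 :=
    h1.eventually_lt_const (by norm_num)
  have h6 : Summable fun n => ‖eterm q w n‖ := by
    refine summable_of_ratio_norm_eventually_le (r := 1 / 2) (by norm_num) ?_
    filter_upwards [h5] with n hn
    rw [eterm_succ, norm_norm, norm_norm, norm_mul, mul_comm]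
    exact mul_le_mul_of_nonneg_right hn.le (norm_nonneg _)
  exact h6

lemma summable_eterm {q : ℂ} (hq : ‖q‖ < 1) (w : ℂ) : Summable fun n => eterm q w n :=
  (summable_norm_eterm hq w).of_norm

lemma eterm_functional {q : ℂ} (hq : ‖q‖ < 1) (w : ℂ) :
    ∑' n, eterm q w n = (1 + w) * ∑' n, eterm q (q * w) n := by
  have h1 : ∀ n, eterm q w (n + 1) - eterm q (q * w) (n + 1) = w * eterm q (q * w) n := by
    intro n
    have h2 := one_sub_pow_ne_zero hq n
    have h3 := poch_ne_zero hq n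
    simp only [eterm, poch_succ, choose_two_succ]
    field_simp
    ring
  have h4 : ∑' n, (eterm q w n - eterm q (q * w) n) = w * ∑' n, eterm q (q * w) n := by
    rw [((summable_eterm hq w).sub (summable_eterm hq (q * w))).tsum_eq_zero_add]
    simp only [h1, eterm_zero, sub_self, zero_add]
    rw [tsum_mul_left]
  rw [(summable_eterm hq w).tsum_sub (summable_eterm hq (q * w))] at h4
  linear_combination h4

lemma eterm_iterate {q : ℂ} (hq : ‖q‖ < 1) (w : ℂ) (K : ℕ) :
    ∑' n, eterm q w n = (∏ k ∈ range K, (1 + w * q ^ k)) * ∑' n, eterm q (w * q ^ K) n := by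
  induction K with
  | zero => simp
  | succ K ih =>
    rw [ih, eterm_functional hq (w * q ^ K), prod_range_succ]
    have : q * (w * q ^ K) = w * q ^ (K + 1) := by ring
    rw [this]
    ring

lemma summable_norm_mul_pow {q : ℂ} (hq : ‖q‖ < 1) (w : ℂ) : Summable fun k : ℕ => ‖w * q ^ k‖ := by
  simp only [norm_mul, norm_pow]
  exact (summable_geometric_of_lt_one (norm_nonneg _) hq).mul_left _

lemma multipliable_euler {q : ℂ} (hq : ‖q‖ < 1) (w : ℂ) :
    Multipliable fun k : ℕ => (1 + w * q ^ k) :=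
  multipliable_one_add_of_summable (summable_norm_mul_pow hq w)

/-- Euler's identity. -/
theorem tsum_eterm {q : ℂ} (hq : ‖q‖ < 1) (w : ℂ) :
    ∑' n, eterm q w n = ∏' k : ℕ, (1 + w * q ^ k) := by
  have h1 : Tendsto (fun K : ℕ => ∏ k ∈ range K, (1 + w * q ^ k)) atTop
      (𝓝 (∏' k : ℕ, (1 + w * q ^ k))) := (multipliable_euler hq w).hasProd.tendsto_prod_nat
  have h2 : Tendsto (fun K : ℕ => ∑' n, eterm q (w * q ^ K) n) atTop
      (𝓝 (∑' n, if n = 0 then (1 : ℂ) else 0)) := by
    refine tendsto_tsum_of_dominated_convergence (bound := fun n => ‖eterm q w n‖)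
      (summable_norm_eterm hq w) ?_ ?_
    · intro n
      rcases Nat.eq_zero_or_pos n with h | h
      · subst h
        simp [eterm_zero]
      · simp only [h.ne', if_false, eterm]
        have h3 : Tendsto (fun K : ℕ => w * q ^ K) atTop (𝓝 (w * 0)) :=
          (tendsto_pow_atTop_nhds_zero_of_norm_lt_one hq).const_mul w
        have h4 : Tendsto (fun K : ℕ => q ^ (n.choose 2) * (w * q ^ K) ^ n / poch q n) atTop
            (𝓝 (q ^ (n.choose 2) * (w * 0) ^ n / poch q n)) :=
          ((h3.pow n).const_mul _).div_const _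
        simpa [h.ne'] using h4
    · filter_upwards with K n
      simp only [eterm, norm_div, norm_mul, norm_pow, mul_pow]
      have h5 : ‖q‖ ^ K ≤ 1 := pow_le_one₀ (norm_nonneg _) hq.le
      have h6 : (‖q‖ ^ K) ^ n ≤ 1 := pow_le_one₀ (by positivity) h5
      have h7 : ‖w‖ ^ n * (‖q‖ ^ K) ^ n ≤ ‖w‖ ^ n :=
        mul_le_of_le_one_right (by positivity) h6
      gcongr
  have h3 : Tendsto (fun _ : ℕ => ∑' n, eterm q w n) atTop
      (𝓝 ((∏' k : ℕ, (1 + w * q ^ k)) * (∑' n, if n = 0 then (1 : ℂ) else 0))) := by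
    have := h1.mul h2
    refine this.congr fun K => ?_
    exact (eterm_iterate hq w K).symm
  have h4 := tendsto_nhds_unique tendsto_const_nhds h3
  rw [h4]
  simp

/-! ### Durfee rectangles -/

/-- term of the Durfee rectangle series. -/
noncomputable def dterm (q : ℂ) (N n : ℕ) : ℂ := q ^ (n * (n + N)) / (poch q n * poch q (n + N))

lemma norm_dterm_le {q : ℂ} (hq : ‖q‖ < 1) {c : ℝ} (hc : 0 < c) (h : ∀ n, c ≤ ‖poch q n‖)
    (N n : ℕ) : ‖dterm q N n‖ ≤ ‖q‖ ^ n / (c * c) := by
  simp only [dterm, norm_div, norm_mul, norm_pow]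
  have h1 : ‖q‖ ^ (n * (n + N)) ≤ ‖q‖ ^ n := by
    apply pow_le_pow_of_le_one (norm_nonneg _) hq.le
    rcases Nat.eq_zero_or_pos n with h0 | h0
    · simp [h0]
    · nlinarith
  have h2 := h n
  have h3 := h (n + N)
  gcongr

lemma summable_norm_dterm {q : ℂ} (hq : ‖q‖ < 1) (N : ℕ) : Summable fun n => ‖dterm q N n‖ := by
  obtain ⟨c, hc, h⟩ := exists_poch_lower hq
  refine Summable.of_nonneg_of_le (fun _ => norm_nonneg _) (fun n => norm_dterm_le hq hc h N n) ?_
  exact (summable_geometric_of_lt_one (norm_nonneg _) hq).div_const _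

lemma summable_dterm {q : ℂ} (hq : ‖q‖ < 1) (N : ℕ) : Summable fun n => dterm q N n :=
  (summable_norm_dterm hq N).of_norm

lemma tendsto_dsum {q : ℂ} (hq : ‖q‖ < 1) :
    Tendsto (fun N => ∑' n, dterm q N n) atTop (𝓝 ((pochInf q)⁻¹)) := by
  obtain ⟨c, hc, h⟩ := exists_poch_lower hq
  have h1 : Tendsto (fun N => ∑' n, dterm q N n) atTop
      (𝓝 (∑' n, if n = 0 then (pochInf q)⁻¹ else 0)) := by
    refine tendsto_tsum_of_dominated_convergence (bound := fun n => ‖q‖ ^ n / (c * c))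
      ((summable_geometric_of_lt_one (norm_nonneg _) hq).div_const _) ?_ ?_
    · intro n
      rcases Nat.eq_zero_or_pos n with h0 | h0
      · subst h0
        simp only [dterm, zero_mul, pow_zero, poch_zero, one_mul, zero_add, if_true, one_div]
        exact (tendsto_poch hq).inv₀ (pochInf_ne_zero hq)
      · simp only [h0.ne', if_false]
        rw [tendsto_zero_iff_norm_tendsto_zero]
        refine squeeze_zero (fun _ => norm_nonneg _) (g := fun N => ‖q‖ ^ N / (c * c)) ?_ ?_
        · intro N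
          simp only [dterm, norm_div, norm_mul, norm_pow]
          have h1 : ‖q‖ ^ (n * (n + N)) ≤ ‖q‖ ^ N := by
            apply pow_le_pow_of_le_one (norm_nonneg _) hq.le
            nlinarith
          have h2 := h n
          have h3 := h (n + N)
          gcongr
        · have := (tendsto_pow_atTop_nhds_zero_of_lt_one (norm_nonneg q) hq).div_const (c * c)
          simpa using this
    · filter_upwards with N n
      exact norm_dterm_le hq hc h N n
  simpa using h1

lemma dsum_rec {q : ℂ} (hq : ‖q‖ < 1) (N : ℕ) :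
    (∑' n, dterm q N n) - (∑' n, dterm q (N + 1) n) =
      -(q ^ (N + 1) * ((∑' n, dterm q (N + 1) n) - (∑' n, dterm q (N + 2) n))) := by
  have hA : ∀ n, dterm q N n - dterm q (N + 1) n =
      q ^ (n ^ 2 + n * N) * (1 - q ^ n) / (poch q n * poch q (n + N + 1)) -
        q ^ (N + 1) * dterm q (N + 1) n := by
    intro n
    have h1 := poch_ne_zero hq n
    have h2 := poch_ne_zero hq (n + N)
    have h3 := one_sub_pow_ne_zero hq (n + N)
    simp only [dterm, ← add_assoc, poch_succ]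
    field_simp
    ring
  have hB : ∀ n, q ^ ((n + 1) ^ 2 + (n + 1) * N) * (1 - q ^ (n + 1)) /
      (poch q (n + 1) * poch q (n + 1 + N + 1)) = q ^ (N + 1) * dterm q (N + 2) n := by
    intro n
    have h1 := poch_ne_zero hq n
    have h3 := one_sub_pow_ne_zero hq n
    have h4 : n + 1 + N + 1 = n + (N + 2) := by ring
    have h5 := poch_ne_zero hq (n + (N + 2))
    rw [h4]
    simp only [dterm, poch_succ q n]
    field_simp
    ring
  have hs : Summable fun n => q ^ (n ^ 2 + n * N) * (1 - q ^ n) / (poch q n * poch q (n + N + 1)) := by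
    have : Summable fun n => (dterm q N n - dterm q (N + 1) n) + q ^ (N + 1) * dterm q (N + 1) n :=
      ((summable_dterm hq N).sub (summable_dterm hq (N + 1))).add
        ((summable_dterm hq (N + 1)).mul_left _)
    refine this.congr fun n => ?_
    rw [hA n]; ring
  have h1 : ∑' n, q ^ (n ^ 2 + n * N) * (1 - q ^ n) / (poch q n * poch q (n + N + 1)) =
      q ^ (N + 1) * ∑' n, dterm q (N + 2) n := by
    rw [hs.tsum_eq_zero_add]
    simp only [hB]
    rw [tsum_mul_left]
    simp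
  rw [← (summable_dterm hq N).tsum_sub (summable_dterm hq (N + 1))]
  simp only [hA]
  rw [hs.tsum_sub ((summable_dterm hq (N + 1)).mul_left _), h1, tsum_mul_left]
  ring

/-- The Durfee rectangle identity. -/
theorem tsum_dterm {q : ℂ} (hq : ‖q‖ < 1) (N : ℕ) : ∑' n, dterm q N n = (pochInf q)⁻¹ := by
  set D : ℕ → ℂ := fun N => ∑' n, dterm q N n with hD
  have hlim : Tendsto D atTop (𝓝 ((pochInf q)⁻¹)) := tendsto_dsum hq
  have he : ∀ N, ‖D N - D (N + 1)‖ ≤ ‖D (N + 1) - D (N + 2)‖ := by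
    intro N
    have h1 : D N - D (N + 1) = -(q ^ (N + 1) * (D (N + 1) - D (N + 2))) := dsum_rec hq N
    rw [h1, norm_neg, norm_mul, norm_pow]
    exact mul_le_of_le_one_left (norm_nonneg _) (pow_le_one₀ (norm_nonneg _) hq.le)
  have he2 : ∀ N k, ‖D N - D (N + 1)‖ ≤ ‖D (N + k) - D (N + k + 1)‖ := by
    intro N k
    induction k with
    | zero => simp
    | succ k ih => exact ih.trans (he (N + k))
  have he3 : ∀ N, D N = D (N + 1) := by
    intro N
    have h1 : Tendsto (fun k => ‖D (N + k) - D (N + k + 1)‖) atTop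
        (𝓝 ‖(pochInf q)⁻¹ - (pochInf q)⁻¹‖) := by
      have ha : Tendsto (fun k => D (N + k)) atTop (𝓝 ((pochInf q)⁻¹)) := by
        have := hlim.comp (tendsto_add_atTop_nat N)
        refine this.congr fun k => ?_
        simp [add_comm]
      have hb : Tendsto (fun k => D (N + k + 1)) atTop (𝓝 ((pochInf q)⁻¹)) := by
        have := hlim.comp (tendsto_add_atTop_nat (N + 1))
        refine this.congr fun k => ?_
        simp only [Function.comp]
        congr 1
        ring
      exact (ha.sub hb).norm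
    have h2 : ‖D N - D (N + 1)‖ ≤ ‖(pochInf q)⁻¹ - (pochInf q)⁻¹‖ :=
      ge_of_tendsto' h1 (he2 N)
    simp only [sub_self, norm_zero] at h2
    exact sub_eq_zero.mp (norm_le_zero_iff.mp h2)
  have he4 : ∀ k, D N = D (N + k) := by
    intro k
    induction k with
    | zero => rfl
    | succ k ih => rw [ih, he3 (N + k)]; rfl
  have h5 : Tendsto (fun k => D (N + k)) atTop (𝓝 ((pochInf q)⁻¹)) := by
    have := hlim.comp (tendsto_add_atTop_nat N)
    refine this.congr fun k => ?_
    simp [add_comm]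
  have h6 : Tendsto (fun _ : ℕ => D N) atTop (𝓝 ((pochInf q)⁻¹)) :=
    h5.congr fun k => (he4 k).symm
  exact tendsto_nhds_unique tendsto_const_nhds h6

/-! ### The triple product -/

/-- The equivalence `(m, n) ↦ (m - n, min m n)`. -/
def diffEquiv : ℕ × ℕ ≃ ℤ × ℕ where
  toFun p := ((p.1 : ℤ) - p.2, min p.1 p.2)
  invFun p := (p.2 + p.1.toNat, p.2 + (-p.1).toNat)
  left_inv p := by
    ext <;> simp <;> omega
  right_inv p := by
    ext <;> simp <;> omega

/-- The coefficients of the theta series. -/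
noncomputable def tcoef (q w w' : ℂ) (N : ℤ) : ℂ :=
  q ^ (N.natAbs.choose 2) * w ^ N.toNat * w' ^ (-N).toNat

lemma choose_two_add (n N : ℕ) :
    (n + N).choose 2 + n.choose 2 + n = N.choose 2 + n * (n + N) := by
  have h : ∀ m : ℕ, 2 * m.choose 2 + m = m * m := by
    intro m
    induction m with
    | zero => simp
    | succ m ih => rw [choose_two_succ]; nlinarith
  have h1 := h (n + N)
  have h2 := h n
  have h3 := h N
  nlinarith

lemma eterm_mul_eterm {q w w' : ℂ} (hww : w * w' = q) (p : ℤ × ℕ) :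
    eterm q w (diffEquiv.symm p).1 * eterm q w' (diffEquiv.symm p).2 =
      tcoef q w w' p.1 * dterm q p.1.natAbs p.2 := by
  obtain ⟨N, n⟩ := p
  rcases le_total 0 N with h | h
  · obtain ⟨M, rfl⟩ := Int.eq_ofNat_of_zero_le h
    simp only [diffEquiv, Equiv.coe_fn_symm_mk, Int.toNat_natCast, tcoef, Int.natAbs_natCast,
      eterm, dterm]
    have h1 : (-(M : ℤ)).toNat = 0 := by simp
    rw [h1, add_zero, div_mul_div_comm, mul_div_assoc', mul_comm (poch q (n + M))]
    congr 1
    have h2 := choose_two_add n M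
    have h3 : q ^ (M.choose 2) * w ^ M * w' ^ 0 * q ^ (n * (n + M)) =
        q ^ (M.choose 2 + n * (n + M)) * w ^ M := by rw [pow_add]; ring
    have hqn : q ^ n = w ^ n * w' ^ n := by rw [← mul_pow, hww]
    rw [h3, ← h2, pow_add, pow_add, hqn]
    ring
  · obtain ⟨M, hM⟩ := Int.eq_ofNat_of_zero_le (neg_nonneg.mpr h)
    obtain rfl : N = -(M : ℤ) := by omega
    simp only [diffEquiv, Equiv.coe_fn_symm_mk, neg_neg, Int.toNat_natCast, tcoef, Int.natAbs_neg,
      Int.natAbs_natCast, eterm, dterm]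
    have h1 : (-(M : ℤ)).toNat = 0 := by simp
    rw [h1, add_zero, div_mul_div_comm, mul_div_assoc']
    congr 1
    have h2 := choose_two_add n M
    have h3 : q ^ (M.choose 2) * w ^ 0 * w' ^ M * q ^ (n * (n + M)) =
        q ^ (M.choose 2 + n * (n + M)) * w' ^ M := by rw [pow_add]; ring
    have hqn : q ^ n = w ^ n * w' ^ n := by rw [← mul_pow, hww]
    rw [h3, ← h2, pow_add, pow_add, hqn]
    ring

/-- Jacobi's triple product. -/
theorem triple_product {q w w' : ℂ} (hq : ‖q‖ < 1) (hww : w * w' = q) :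
    HasSum (tcoef q w w')
      (pochInf q * ((∏' k : ℕ, (1 + w * q ^ k)) * ∏' k : ℕ, (1 + w' * q ^ k))) := by
  have h1 : Summable fun p : ℕ × ℕ => ‖eterm q w p.1 * eterm q w' p.2‖ :=
    (summable_norm_eterm hq w).mul_norm (summable_norm_eterm hq w')
  have h2 : Summable fun p : ℤ × ℕ => ‖tcoef q w w' p.1 * dterm q p.1.natAbs p.2‖ := by
    have := (Equiv.summable_iff diffEquiv.symm).mpr h1
    refine this.congr fun p => ?_
    simp only [Function.comp]
    rw [eterm_mul_eterm hww p]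
  have h3 : Summable fun p : ℤ × ℕ => tcoef q w w' p.1 * dterm q p.1.natAbs p.2 := h2.of_norm
  have h4 : ∑' p : ℤ × ℕ, tcoef q w w' p.1 * dterm q p.1.natAbs p.2 =
      (∏' k : ℕ, (1 + w * q ^ k)) * ∏' k : ℕ, (1 + w' * q ^ k) := by
    rw [← tsum_eterm hq w, ← tsum_eterm hq w',
      tsum_mul_tsum_of_summable_norm (summable_norm_eterm hq w) (summable_norm_eterm hq w'),
      ← (Equiv.tsum_eq diffEquiv.symm)]
    exact tsum_congr fun p => (eterm_mul_eterm hww p).symm
  have h5 : HasSum (fun N : ℤ => tcoef q w w' N * (pochInf q)⁻¹)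
      ((∏' k : ℕ, (1 + w * q ^ k)) * ∏' k : ℕ, (1 + w' * q ^ k)) := by
    rw [← h4]
    have h6 := h3.hasSum.prod_fiberwise (g := fun N : ℤ => tcoef q w w' N * (pochInf q)⁻¹) ?_
    · exact h6
    · intro N
      have := (summable_dterm hq N.natAbs).hasSum.mul_left (tcoef q w w' N)
      rwa [tsum_dterm hq] at this
  have h7 := h5.mul_left (pochInf q)
  have h8 : (fun N : ℤ => pochInf q * (tcoef q w w' N * (pochInf q)⁻¹)) = tcoef q w w' := by
    funext N
    have := pochInf_ne_zero hq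
    field_simp
  rwa [h8] at h7

end Pool.Agent.Lib.MP_8ce23f_nt
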