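import Mathlib
import Pool.Agent.Lib.MP_8ce23f_nt.Euler

/-!
# The products `E x τ = ∏ (1 + q^(k+1/2+x))`
-/

open Filter Topology Finset Complex
open scoped Real MatrixGroups Manifold
open UpperHalfPlane hiding I

namespace Pool.Agent.Lib.MP_8ce23f_nt

/-- `q ^ x` for a real exponent. -/
noncomputable def qr (x : ℝ) (τ : ℍ) : ℂ := cexp (2 * π * I * x * τ)

lemma norm_qr (x : ℝ) (τ : ℍ) : ‖qr x τ‖ = Real.exp (-(2 * π * x * τ.im)) := by
  rw [qr, Complex.norm_exp]
  congr 1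
  have : (2 * π * I * x * τ : ℂ) = ((2 * π * x : ℝ) : ℂ) * (τ * I) := by push_cast; ring
  rw [this, Complex.re_ofReal_mul]
  simp

lemma qr_zero (τ : ℍ) : qr 0 τ = 1 := by simp [qr]

lemma qr_ne_zero (x : ℝ) (τ : ℍ) : qr x τ ≠ 0 := Complex.exp_ne_zero _

lemma qr_add (x y : ℝ) (τ : ℍ) : qr (x + y) τ = qr x τ * qr y τ := by
  rw [qr, qr, qr, ← Complex.exp_add]
  congr 1
  push_cast
  ring

lemma qr_nat (n : ℕ) (τ : ℍ) : qr n τ = qr 1 τ ^ n := by
  rw [qr, qr, ← Complex.exp_nat_mul]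
  congr 1
  push_cast
  ring

lemma qr_nat_mul (n : ℕ) (x : ℝ) (τ : ℍ) : qr (n * x) τ = qr x τ ^ n := by
  rw [qr, qr, ← Complex.exp_nat_mul]
  congr 1
  push_cast
  ring

lemma qr_neg (x : ℝ) (τ : ℍ) : qr (-x) τ = (qr x τ)⁻¹ := by
  rw [qr, qr, ← Complex.exp_neg]
  congr 1
  push_cast
  ring

lemma norm_qr_one_lt (τ : ℍ) : ‖qr 1 τ‖ < 1 := by
  rw [norm_qr, Real.exp_lt_one_iff]
  have := τ.im_pos
  have := Real.pi_pos
  nlinarith [mul_pos Real.pi_pos τ.im_pos]

lemma one_add_qr_ne_zero (x : ℝ) (τ : ℍ) : 1 + qr x τ ≠ 0 := by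
  intro h
  have h1 : qr x τ = -1 := by linear_combination h
  have h2 : ‖qr x τ‖ = 1 := by rw [h1]; simp
  rw [norm_qr, Real.exp_eq_one_iff] at h2
  have h3 : x = 0 := by
    have := Real.pi_pos
    have := τ.im_pos
    have h4 : 2 * π * x * τ.im = 0 := by linarith
    rcases mul_eq_zero.mp h4 with h5 | h5
    · rcases mul_eq_zero.mp h5 with h6 | h6
      · linarith
      · exact h6
    · linarith
  rw [h3, qr_zero] at h1
  norm_num at h1

/-- `E x τ = ∏_{k ≥ 0} (1 + q^(k + 1/2 + x))`. -/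
noncomputable def E (x : ℝ) (τ : ℍ) : ℂ := ∏' k : ℕ, (1 + qr (x + 1 / 2) τ * qr 1 τ ^ k)

lemma qr_term (x : ℝ) (k : ℕ) (τ : ℍ) : qr (x + 1 / 2) τ * qr 1 τ ^ k = qr (k + 1 / 2 + x) τ := by
  rw [← qr_nat, ← qr_add]
  congr 1
  ring

lemma E_eq (x : ℝ) (τ : ℍ) : E x τ = ∏' k : ℕ, (1 + qr (k + 1 / 2 + x) τ) := by
  unfold E
  simp only [qr_term]

lemma multipliable_E (x : ℝ) (τ : ℍ) : Multipliable fun k : ℕ => (1 + qr (x + 1 / 2) τ * qr 1 τ ^ k) :=
  multipliable_euler (norm_qr_one_lt τ) _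

lemma E_ne_zero (x : ℝ) (τ : ℍ) : E x τ ≠ 0 := by
  unfold E
  apply tprod_one_add_ne_zero_of_summable
  · intro k
    rw [qr_term]
    exact one_add_qr_ne_zero _ τ
  · exact summable_norm_mul_pow (norm_qr_one_lt τ) _

lemma E_shift (x : ℝ) (τ : ℍ) : E x τ = (1 + qr (1 / 2 + x) τ) * E (x + 1) τ := by
  unfold E
  have h1 : Multipliable fun k : ℕ => (1 + qr (x + 1 / 2) τ * qr 1 τ ^ k) := multipliable_E x τ
  rw [tprod_eq_zero_mul' (f := fun k : ℕ => (1 + qr (x + 1 / 2) τ * qr 1 τ ^ k))]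
  · simp only [pow_zero, mul_one]
    congr 1
    · congr 2
      ring
    · apply tprod_congr
      intro k
      congr 1
      rw [pow_succ']
      rw [← mul_assoc, ← qr_add]
      congr 2
      ring
  · have := multipliable_E (x + 1) τ
    refine this.congr fun k => ?_
    congr 1
    rw [pow_succ', ← mul_assoc, ← qr_add]
    congr 2
    ring

lemma E_mdifferentiable (x : ℝ) : MDifferentiable 𝓘(ℂ) 𝓘(ℂ) (E x) := by
  rw [UpperHalfPlane.mdifferentiable_iff]
  set F : ℕ → ℂ → ℂ := fun k z => cexp (2 * π * I * (x + 1 / 2) * z) * cexp (2 * π * I * z) ^ k with hF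
  have hopen : IsOpen {z : ℂ | 0 < z.im} := isOpen_upperHalfPlaneSet
  have hcont : ∀ k, Continuous (F k) := fun k => by
    simp only [hF]
    fun_prop
  have hprod : HasProdLocallyUniformlyOn (fun k z => 1 + F k z) (fun z => ∏' k, (1 + F k z))
      {z : ℂ | 0 < z.im} := by
    apply hasProdLocallyUniformlyOn_of_forall_compact hopen
    intro K hK hcK
    rcases K.eq_empty_or_nonempty with hN | hN
    · simpa [hasProdUniformlyOn_iff_tendstoUniformlyOn, hN] using tendstoUniformlyOn_empty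
    · obtain ⟨z₀, hz₀, HB⟩ := hcK.exists_isMaxOn hN
        (show ContinuousOn (fun z : ℂ ↦ ‖cexp (2 * π * I * z)‖) K by fun_prop)
      obtain ⟨z₁, hz₁, HB1⟩ := hcK.exists_isMaxOn hN
        (show ContinuousOn (fun z : ℂ ↦ ‖cexp (2 * π * I * (x + 1 / 2) * z)‖) K by fun_prop)
      have hlt : ‖cexp (2 * π * I * z₀)‖ < 1 := by
        have := norm_qr_one_lt ⟨z₀, hK hz₀⟩
        simpa [qr] using this
      refine ((summable_geometric_of_lt_one (norm_nonneg _) hlt).mul_left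
        ‖cexp (2 * π * I * (x + 1 / 2) * z₁)‖).hasProdUniformlyOn_nat_one_add
        hcK (.of_forall fun n z hz ↦ ?_) (fun n ↦ (hcont n).continuousOn)
      simp only [hF, norm_mul, norm_pow]
      have h1 : ‖cexp (2 * π * I * z)‖ ≤ ‖cexp (2 * π * I * z₀)‖ := HB hz
      have h2 : ‖cexp (2 * π * I * (x + 1 / 2) * z)‖ ≤ ‖cexp (2 * π * I * (x + 1 / 2) * z₁)‖ := HB1 hz
      gcongr
  have hdiff : DifferentiableOn ℂ (fun z => ∏' k, (1 + F k z)) {z : ℂ | 0 < z.im} := by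
    refine TendstoLocallyUniformlyOn.differentiableOn hprod.tendstoLocallyUniformlyOn_finsetRange ?_ hopen
    refine .of_forall fun n => ?_
    have : Differentiable ℂ fun z => ∏ k ∈ range n, (1 + F k z) := by
      simp only [hF]
      fun_prop
    simpa [Finset.prod_fn] using! this.differentiableOn
  refine hdiff.congr fun z hz => ?_
  simp only [Function.comp, E, hF]
  apply tprod_congr
  intro k
  simp only [qr, ofComplex_apply_of_im_pos hz]
  push_cast
  congr 3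
  · ring_nf

lemma continuous_E (x : ℝ) : Continuous (E x) := (E_mdifferentiable x).continuous

lemma qr_mdifferentiable (x : ℝ) : MDifferentiable 𝓘(ℂ) 𝓘(ℂ) (qr x) := by
  rw [UpperHalfPlane.mdifferentiable_iff]
  have : Differentiable ℂ fun z => cexp (2 * π * I * x * z) := by fun_prop
  refine this.differentiableOn.congr fun z hz => ?_
  simp [qr, ofComplex_apply_of_im_pos hz]

end Pool.Agent.Lib.MP_8ce23f_nt
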