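import Mathlib

/-!
# Theta functions with characteristics divided by eta
-/

open Filter Topology Finset Complex
open scoped Real MatrixGroups
open UpperHalfPlane hiding I
open ModularForm (eta_q)

namespace Pool.Agent.Lib.MP_8ce23f_nt

/-- Theta function with characteristics. -/
noncomputable def thetaC (a b : ℝ) (τ : ℂ) : ℂ :=
  cexp (π * I * a ^ 2 * τ + 2 * π * I * a * b) * jacobiTheta₂ (a * τ + b) τ

lemma jacobiTheta₂_add_one (z τ : ℂ) : jacobiTheta₂ z (τ + 1) = jacobiTheta₂ (z + 1 / 2) τ := by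
  refine tsum_congr (fun n ↦ ?_)
  simp_rw [jacobiTheta₂_term]
  rw [Complex.exp_eq_exp_iff_exists_int]
  obtain ⟨k, hk⟩ := Int.even_mul_pred_self n
  refine ⟨k, ?_⟩
  have : (n : ℂ) * (n - 1) = k + k := by exact_mod_cast hk
  linear_combination (π * I) * this

lemma thetaC_add_one (a b : ℝ) (τ : ℂ) :
    thetaC a b (τ + 1) = cexp (-(π * I * (a + a ^ 2))) * thetaC a (b + a + 1 / 2) τ := by
  unfold thetaC
  rw [jacobiTheta₂_add_one, ← mul_assoc, ← Complex.exp_add]
  congr 1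
  · congr 1
    push_cast
    ring
  · congr 1
    push_cast
    ring

lemma thetaC_S (a b : ℝ) (τ : ℂ) (hτ : 0 < τ.im) :
    thetaC a b (-1 / τ) =
      cexp (2 * π * I * a * b) * ((-I * τ) ^ (1 / 2 : ℂ) * thetaC b (-a) τ) := by
  have hτ0 : τ ≠ 0 := by
    rintro rfl
    simp at hτ
  have hne : (-I * τ) ^ (1 / 2 : ℂ) ≠ 0 := by
    rw [Ne, cpow_eq_zero_iff]
    push Not
    intro h
    simp [hτ0] at h
  unfold thetaC
  have h1 := jacobiTheta₂_functional_equation (b * τ - a) τ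
  have h2 : (b * τ - a) / τ = a * (-1 / τ) + b := by
    field_simp
    ring
  have h3 : (b : ℂ) * τ + ((-a : ℝ) : ℂ) = b * τ - a := by push_cast; ring
  rw [h2] at h1
  rw [h3, h1]
  rw [← mul_assoc (cexp (2 * π * I * a * b)), mul_comm (cexp (2 * π * I * a * b)),
    mul_assoc ((-I * τ) ^ (1 / 2 : ℂ))]
  have h4 : ∀ x y z w : ℂ, (-I * τ) ^ (1 / 2 : ℂ) * (x * (y * (1 / (-I * τ) ^ (1 / 2 : ℂ) * z * w))) =
      x * y * z * w := by
    intro x y z w
    field_simp
  rw [h4, ← Complex.exp_add, ← Complex.exp_add]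
  congr 2
  push_cast
  field_simp
  ring

lemma thetaC_add_one_left (a b : ℝ) (τ : ℂ) : thetaC (a + 1) b τ = thetaC a b τ := by
  unfold thetaC
  have h1 : ((a + 1 : ℝ) : ℂ) * τ + b = (a * τ + b) + τ := by push_cast; ring
  rw [h1, jacobiTheta₂_add_left', ← mul_assoc, ← Complex.exp_add]
  have h2 : cexp (π * I * ((a + 1 : ℝ) : ℂ) ^ 2 * τ + 2 * π * I * ((a + 1 : ℝ) : ℂ) * b +
      -π * I * (τ + 2 * (a * τ + b))) = cexp (π * I * a ^ 2 * τ + 2 * π * I * a * b) := by
    congr 1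
    push_cast
    ring
  rw [h2]

lemma thetaC_add_one_right (a b : ℝ) (τ : ℂ) :
    thetaC a (b + 1) τ = cexp (2 * π * I * a) * thetaC a b τ := by
  unfold thetaC
  have h1 : (a : ℂ) * τ + ((b + 1 : ℝ) : ℂ) = (a * τ + b) + 1 := by push_cast; ring
  rw [h1, jacobiTheta₂_add_left, ← mul_assoc, ← Complex.exp_add]
  congr 2
  push_cast
  ring

/-- The quotient of a theta function by eta. -/
noncomputable def G (a b : ℝ) (τ : ℍ) : ℂ := thetaC a b τ / ModularForm.eta τ

lemma eta_add_one (z : ℂ) : ModularForm.eta (z + 1) = cexp (2 * π * I / 24) * ModularForm.eta z := by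
  unfold ModularForm.eta
  have h1 : ∀ n : ℕ, eta_q n (z + 1) = eta_q n z := by
    intro n
    rw [ModularForm.eta_q_eq_pow, ModularForm.eta_q_eq_pow]
    congr 1
    rw [mul_add, Complex.exp_add, mul_one, exp_two_pi_mul_I, mul_one]
  simp only [h1]
  rw [← mul_assoc]
  congr 1
  simp only [Function.Periodic.qParam]
  rw [← Complex.exp_add]
  congr 1
  push_cast
  ring

lemma G_T (a b : ℝ) (τ : ℍ) :
    G a b (ModularGroup.T • τ) = cexp (-(π * I * (a + a ^ 2)) - 2 * π * I / 24) *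
      G a (b + a + 1 / 2) τ := by
  unfold G
  have h1 : ((ModularGroup.T • τ : ℍ) : ℂ) = τ + 1 := by
    rw [modular_T_smul]
    simp [add_comm]
  rw [h1, thetaC_add_one, eta_add_one, Complex.exp_sub]
  have := ModularForm.eta_ne_zero τ.2
  have := Complex.exp_ne_zero (2 * π * I / 24)
  field_simp

lemma neg_I_mul_cpow (τ : ℍ) : (-I * (τ : ℂ)) ^ (1 / 2 : ℂ) = (sqrt I)⁻¹ * sqrt τ := by
  have hτ0 : (τ : ℂ) ≠ 0 := UpperHalfPlane.ne_zero τ
  have hne : -I * (τ : ℂ) ≠ 0 := by simp [hτ0]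
  have h1 : Complex.log (-I * τ) = Complex.log τ - π / 2 * I := by
    have h2 : -I * (τ : ℂ) = cexp (Complex.log τ - π / 2 * I) := by
      rw [Complex.exp_sub, Complex.exp_log hτ0, Complex.exp_pi_div_two_mul_I]
      field_simp
      rw [I_sq]; ring
    rw [h2, Complex.log_exp]
    · have h3 : 0 ≤ (τ : ℂ).arg := Complex.arg_nonneg_iff.2 τ.2.le
      simp only [sub_im, log_im, mul_im, div_ofNat_re, ofReal_re, Complex.I_im, mul_one, div_ofNat_im,
        ofReal_im, zero_div, Complex.I_re, mul_zero, add_zero]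
      linarith [Real.pi_pos]
    · have h3 : (τ : ℂ).arg ≤ π := Complex.arg_le_pi _
      simp only [sub_im, log_im, mul_im, div_ofNat_re, ofReal_re, Complex.I_im, mul_one, div_ofNat_im,
        ofReal_im, zero_div, Complex.I_re, mul_zero, add_zero]
      linarith [Real.pi_pos]
  rw [sqrt_eq_exp I_ne_zero, sqrt_eq_exp hτ0, Complex.cpow_def_of_ne_zero hne, h1,
    Complex.log_I, ← Complex.exp_neg, ← Complex.exp_add]
  congr 1
  ring

lemma G_S (a b : ℝ) (τ : ℍ) :
    G a b (ModularGroup.S • τ) = cexp (2 * π * I * a * b) * G b (-a) τ := by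
  unfold G
  have h1 : ((ModularGroup.S • τ : ℍ) : ℂ) = -1 / τ := by
    rw [modular_S_smul]
    simp [neg_div, inv_neg]
  have h2 : ModularForm.eta (-1 / (τ : ℂ)) = (sqrt I)⁻¹ * (sqrt τ * ModularForm.eta τ) :=
    ModularForm.eta_comp_eq_csqrt_I_inv τ.2
  have h3 : (-I * (τ : ℂ)) ^ (1 / 2 : ℂ) = (sqrt I)⁻¹ * sqrt τ := neg_I_mul_cpow τ
  rw [h1, thetaC_S a b τ τ.2, h2, h3]
  have := ModularForm.eta_ne_zero τ.2
  have h4 : sqrt I ≠ 0 := by
    rw [sqrt_eq_exp I_ne_zero]; exact Complex.exp_ne_zero _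
  have h5 : sqrt (τ : ℂ) ≠ 0 := by
    rw [sqrt_eq_exp (UpperHalfPlane.ne_zero τ)]; exact Complex.exp_ne_zero _
  field_simp

end Pool.Agent.Lib.MP_8ce23f_nt
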