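import Mathlib
import Pool.Agent.Lib.MP_8ce23f_nt.Theta

/-!
# Finite orbits of functions under SL(2,Z)
-/

open Filter Topology Finset Complex
open scoped Real MatrixGroups Pointwise
open UpperHalfPlane hiding I

namespace Pool.Agent.Lib.MP_8ce23f_nt

/-- The `SL(2,ℤ)`-orbit of a function on the upper half plane. -/
def orb (f : ℍ → ℂ) : Set (ℍ → ℂ) := Set.range fun γ : SL(2, ℤ) => fun τ => f (γ • τ)

lemma mem_orb_self (f : ℍ → ℂ) : f ∈ orb f := ⟨1, by simp⟩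

lemma orb_finite_iff (f : ℍ → ℂ) :
    (orb f).Finite ↔ ∃ Γ : Subgroup SL(2, ℤ), Γ.FiniteIndex ∧ ∀ γ ∈ Γ, ∀ τ : ℍ, f (γ • τ) = f τ := by
  let _ : MulAction SL(2, ℤ) (ℍ → ℂ) := arrowAction
  have hsmul : ∀ (γ : SL(2, ℤ)) (g : ℍ → ℂ), γ • g = fun τ => g (γ⁻¹ • τ) := fun γ g => rfl
  have horb : MulAction.orbit SL(2, ℤ) f = orb f := by
    ext g
    constructor
    · rintro ⟨γ, rfl⟩
      exact ⟨γ⁻¹, rfl⟩
    · rintro ⟨γ, rfl⟩
      exact ⟨γ⁻¹, by simp [hsmul]⟩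
  have hidx := MulAction.index_stabilizer SL(2, ℤ) f
  rw [horb] at hidx
  constructor
  · intro h
    refine ⟨MulAction.stabilizer SL(2, ℤ) f, ⟨?_⟩, ?_⟩
    · rw [hidx]
      exact Set.ncard_ne_zero_of_mem (mem_orb_self f) h
    · intro γ hγ τ
      have h1 : γ⁻¹ ∈ MulAction.stabilizer SL(2, ℤ) f := inv_mem hγ
      have h2 : γ⁻¹ • f = f := h1
      have h3 := congrFun h2 τ
      simpa [hsmul] using h3
  · rintro ⟨Γ, hΓ, hinv⟩
    have hle : Γ ≤ MulAction.stabilizer SL(2, ℤ) f := by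
      intro γ hγ
      change γ • f = f
      funext τ
      simp only [hsmul]
      exact hinv γ⁻¹ (inv_mem hγ) τ
    have h1 : (MulAction.stabilizer SL(2, ℤ) f).FiniteIndex := Subgroup.finiteIndex_of_le hle
    have h2 := h1.index_ne_zero
    rw [hidx] at h2
    exact Set.finite_of_ncard_ne_zero h2

lemma orb_smul_subset {f g : ℍ → ℂ} (hg : g ∈ orb f) : orb g ⊆ orb f := by
  obtain ⟨γ, rfl⟩ := hg
  rintro _ ⟨γ', rfl⟩
  exact ⟨γ * γ', by simp [mul_smul]⟩

lemma orb_mul_finite {f g : ℍ → ℂ} (hf : (orb f).Finite) (hg : (orb g).Finite) :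
    (orb (fun τ => f τ * g τ)).Finite := by
  refine (hf.mul hg).subset ?_
  rintro _ ⟨γ, rfl⟩
  exact Set.mul_mem_mul ⟨γ, rfl⟩ ⟨γ, rfl⟩

lemma orb_inv_finite {f : ℍ → ℂ} (hf : (orb f).Finite) : (orb (fun τ => (f τ)⁻¹)).Finite := by
  refine (hf.image fun g τ => (g τ)⁻¹).subset ?_
  rintro _ ⟨γ, rfl⟩
  exact ⟨fun τ => f (γ • τ), ⟨γ, rfl⟩, rfl⟩

lemma orb_pow_finite {f : ℍ → ℂ} (hf : (orb f).Finite) (n : ℕ) :
    (orb (fun τ => f τ ^ n)).Finite := by
  refine (hf.image fun g τ => (g τ) ^ n).subset ?_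
  rintro _ ⟨γ, rfl⟩
  exact ⟨fun τ => f (γ • τ), ⟨γ, rfl⟩, rfl⟩

lemma orb_const_finite (c : ℂ) : (orb (fun _ => c)).Finite := by
  refine (Set.finite_singleton (fun _ : ℍ => c)).subset ?_
  rintro _ ⟨γ, rfl⟩
  rfl

lemma orb_prod_finite {ι : Type*} (s : Finset ι) (f : ι → ℍ → ℂ)
    (h : ∀ i ∈ s, (orb (f i)).Finite) : (orb (fun τ => ∏ i ∈ s, f i τ)).Finite := by
  classical
  induction s using Finset.induction_on with
  | empty => simpa using orb_const_finite 1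
  | insert a s ha ih =>
    simp only [Finset.prod_insert ha]
    exact orb_mul_finite (h a (by simp)) (ih fun i hi => h i (by simp [hi]))

/-- Continuous `n`-th roots of a nowhere vanishing function on the upper half plane are finite in
number. -/
lemma finite_roots (h : ℍ → ℂ) (h0 : ∀ τ, h τ ≠ 0) {n : ℕ} (hn : n ≠ 0) :
    {g : ℍ → ℂ | Continuous g ∧ ∀ τ, g τ ^ n = h τ}.Finite := by
  rcases Set.eq_empty_or_nonempty {g : ℍ → ℂ | Continuous g ∧ ∀ τ, g τ ^ n = h τ} with he | ⟨g0, hg0⟩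
  · rw [he]; exact Set.finite_empty
  · have hfin : {z : ℂ | z ^ n = 1}.Finite := by
      have h1 : (Polynomial.nthRoots n (1 : ℂ)).toFinset.finite_toSet = _ := rfl
      refine (Polynomial.nthRoots n (1 : ℂ)).toFinset.finite_toSet.subset ?_
      intro z hz
      simp only [Set.mem_ofPred_eq] at hz
      simp [Polynomial.mem_nthRoots (Nat.pos_of_ne_zero hn), hz]
    refine (hfin.image fun z τ => z * g0 τ).subset ?_
    rintro g ⟨hgc, hg⟩
    have hg0n : ∀ τ, g0 τ ≠ 0 := by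
      intro τ h1
      have := hg0.2 τ
      rw [h1, zero_pow hn] at this
      exact h0 τ this.symm
    have hcont : Continuous fun τ => g τ / g0 τ := hgc.div hg0.1 hg0n
    have hval : ∀ τ, g τ / g0 τ ∈ {z : ℂ | z ^ n = 1} := by
      intro τ
      simp only [Set.mem_ofPred_eq, div_pow, hg τ, hg0.2 τ]
      exact div_self (h0 τ)
    have hsub : (Set.range fun τ => g τ / g0 τ).Subsingleton := by
      have hpre : IsPreconnected (Set.range fun τ => g τ / g0 τ) := isPreconnected_range hcont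
      have hcount : (Set.range fun τ => g τ / g0 τ).Finite := hfin.subset (by
        rintro _ ⟨τ, rfl⟩
        exact hval τ)
      exact hcount.countable.isTotallyDisconnected _ subset_rfl hpre
    refine ⟨g UpperHalfPlane.I / g0 UpperHalfPlane.I, hval _, ?_⟩
    funext τ
    have h1 : g UpperHalfPlane.I / g0 UpperHalfPlane.I = g τ / g0 τ :=
      hsub ⟨UpperHalfPlane.I, rfl⟩ ⟨τ, rfl⟩
    simp only
    rw [h1, div_mul_cancel₀ _ (hg0n τ)]

lemma continuous_smul_SL (γ : SL(2, ℤ)) : Continuous fun τ : ℍ => γ • τ := by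
  have h : (fun τ : ℍ => γ • τ) =
      fun τ : ℍ => (Matrix.SpecialLinearGroup.mapGL ℝ γ : GL (Fin 2) ℝ) • τ := rfl
  rw [h]
  exact continuous_const_smul _

lemma orb_finite_of_pow {f : ℍ → ℂ} (hc : Continuous f) (h0 : ∀ τ, f τ ≠ 0) {n : ℕ} (hn : n ≠ 0)
    (h : (orb (fun τ => f τ ^ n)).Finite) : (orb f).Finite := by
  have hfin : (⋃ k ∈ orb (fun τ => f τ ^ n),
      {g : ℍ → ℂ | Continuous g ∧ ∀ τ, g τ ^ n = k τ}).Finite := by
    refine h.biUnion ?_
    rintro _ ⟨γ, rfl⟩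
    exact finite_roots _ (fun τ => pow_ne_zero _ (h0 _)) hn
  refine hfin.subset ?_
  rintro _ ⟨γ, rfl⟩
  simp only [Set.mem_iUnion]
  refine ⟨fun τ => f (γ • τ) ^ n, ⟨γ, rfl⟩, ?_, fun τ => rfl⟩
  exact hc.comp (continuous_smul_SL γ)

/-- A finite family stable under `S`, `T` and their inverses contains orbits. -/
lemma orb_subset_of_stable {X : Set (ℍ → ℂ)}
    (hS : ∀ f ∈ X, (fun τ => f (ModularGroup.S • τ)) ∈ X)
    (hS' : ∀ f ∈ X, (fun τ => f (ModularGroup.S⁻¹ • τ)) ∈ X)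
    (hT : ∀ f ∈ X, (fun τ => f (ModularGroup.T • τ)) ∈ X)
    (hT' : ∀ f ∈ X, (fun τ => f (ModularGroup.T⁻¹ • τ)) ∈ X) {f : ℍ → ℂ} (hf : f ∈ X) :
    orb f ⊆ X := by
  have key : ∀ γ : SL(2, ℤ), (∀ f ∈ X, (fun τ => f (γ • τ)) ∈ X) ∧
      (∀ f ∈ X, (fun τ => f (γ⁻¹ • τ)) ∈ X) := by
    intro γ
    have hγ : γ ∈ Subgroup.closure {ModularGroup.S, ModularGroup.T} := by
      rw [SpecialLinearGroup.SL2Z_generators]; trivial
    induction hγ using Subgroup.closure_induction with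
    | mem x hx =>
      rcases hx with rfl | rfl
      · exact ⟨hS, hS'⟩
      · exact ⟨hT, hT'⟩
    | one => simp
    | mul x y _ _ hx hy =>
      refine ⟨fun f hf => ?_, fun f hf => ?_⟩
      · have h1 := hy.1 _ (hx.1 f hf)
        simpa [mul_smul] using h1
      · have h1 := hx.2 _ (hy.2 f hf)
        simpa [mul_smul] using h1
    | inv x _ hx => exact ⟨hx.2, by simpa using hx.1⟩
  rintro _ ⟨γ, rfl⟩
  exact (key γ).1 f hf

end Pool.Agent.Lib.MP_8ce23f_nt
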