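import Mathlib
import Pool.Agent.Lib.MP_8ce23f_nt.EProd
import Pool.Agent.Lib.MP_8ce23f_nt.Orbit

/-!
# Leading behaviour at the cusp at infinity
-/

open Filter Topology Finset Complex
open scoped Real MatrixGroups Manifold
open UpperHalfPlane hiding I

namespace Pool.Agent.Lib.MP_8ce23f_nt

/-- `f` has at most a pole at the cusp at infinity. -/
def ModInf (f : ℍ → ℂ) : Prop := ∃ m : ℕ, IsBoundedAtImInfty (fun τ => qr m τ * f τ)

lemma periodic_ofComplex {f : ℍ → ℂ} {N : ℕ} (h : ∀ τ : ℍ, f (((N : ℝ)) +ᵥ τ) = f τ) :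
    Function.Periodic (f ∘ ofComplex) (N : ℝ) := by
  intro w
  by_cases! hw : 0 < im w
  · have h1 : 0 < im (w + (N : ℝ)) := by simp [hw]
    simp only [Function.comp_apply, ofComplex_apply_of_im_pos h1, ofComplex_apply_of_im_pos hw]
    rw [← h ⟨w, hw⟩]
    congr 1
    ext
    simp [add_comm]
  · have : im (w + (N : ℝ)) ≤ 0 := by simpa using hw
    simp only [Function.comp_apply, ofComplex_apply_of_im_nonpos this,
      ofComplex_apply_of_im_nonpos hw]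

lemma qr_vadd_nat (m N : ℕ) (τ : ℍ) : qr m ((N : ℝ) +ᵥ τ) = qr m τ := by
  simp only [qr, coe_vadd]
  rw [mul_add, Complex.exp_add]
  have : cexp (2 * π * I * ((m : ℝ) : ℂ) * ((N : ℝ) : ℂ)) = 1 := by
    have h := Complex.exp_int_mul_two_pi_mul_I (m * N : ℤ)
    rw [← h]
    congr 1
    push_cast
    ring
  rw [this, one_mul]

lemma exists_leading {h : ℍ → ℂ} {N : ℕ} (hN : 0 < N) (hd : MDifferentiable 𝓘(ℂ) 𝓘(ℂ) h)
    (hper : ∀ τ : ℍ, h (((N : ℝ)) +ᵥ τ) = h τ) (hm : ModInf h) (hne : h ≠ 0) :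
    ∃ n : ℤ, ∃ c : ℂ, c ≠ 0 ∧ Tendsto (fun τ : ℍ => h τ * qr (-(n / N)) τ) atImInfty (𝓝 c) := by
  obtain ⟨m, hm⟩ := hm
  have hN' : (0 : ℝ) < N := by exact_mod_cast hN
  set f1 : ℍ → ℂ := fun τ => qr m τ * h τ with hf1
  have hd1 : MDifferentiable 𝓘(ℂ) 𝓘(ℂ) f1 := (qr_mdifferentiable m).mul hd
  have hper1 : Function.Periodic (f1 ∘ ofComplex) (N : ℝ) := by
    apply periodic_ofComplex
    intro τ
    simp only [hf1, hper, qr_vadd_nat]
  have han : AnalyticAt ℂ (cuspFunction (N : ℝ) f1) 0 :=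
    analyticAt_cuspFunction_zero hN' hper1 hd1 hm
  have heq : ∀ τ : ℍ, cuspFunction (N : ℝ) f1 (Function.Periodic.qParam N τ) = f1 τ := fun τ =>
    eq_cuspFunction τ hN'.ne' hper1
  have htend : Tendsto (fun τ : ℍ ↦ Function.Periodic.qParam (N : ℝ) τ) atImInfty (𝓝 0) :=
    qParam_tendsto_atImInfty hN'
  have hnz : ¬ ∀ᶠ z in 𝓝 (0 : ℂ), cuspFunction (N : ℝ) f1 z = 0 := by
    intro hz
    have h1 : ∀ᶠ τ : ℍ in atImInfty, f1 τ = 0 := by
      filter_upwards [htend.eventually hz] with τ hτ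
      rw [← heq τ]; exact hτ
    have h2 : ∀ᶠ τ : ℍ in atImInfty, h τ = 0 := by
      filter_upwards [h1] with τ hτ
      rcases mul_eq_zero.mp hτ with h3 | h3
      · exact absurd h3 (qr_ne_zero _ _)
      · exact h3
    obtain ⟨A, hA⟩ := (atImInfty_mem _).mp h2
    apply hne
    set t0 : ℍ := ⟨I * ((|A| + 1 : ℝ) : ℂ), by
      rw [Complex.mul_im]; simp; positivity⟩ with ht0
    have him : t0.im = |A| + 1 := by
      simp [ht0, UpperHalfPlane.im]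
    have h4 : ∃ᶠ z in 𝓝[≠] t0, h z = 0 := by
      have h5 : ∀ᶠ z : ℍ in 𝓝 t0, h z = 0 := by
        have hopen : IsOpen {z : ℍ | A < z.im} := isOpen_lt continuous_const continuous_im
        have hmem : t0 ∈ {z : ℍ | A < z.im} := by
          simp only [Set.mem_ofPred_eq, him]
          linarith [le_abs_self A]
        filter_upwards [hopen.mem_nhds hmem] with z hz
        exact hA z (le_of_lt hz)
      exact (h5.filter_mono nhdsWithin_le_nhds).frequently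
    exact UpperHalfPlane.eq_zero_of_frequently hd h4
  obtain ⟨n, g, hg, hg0, hgn⟩ := han.exists_eventuallyEq_pow_smul_nonzero_iff.mpr hnz
  refine ⟨(n : ℤ) - m * N, g 0, hg0, ?_⟩
  have h6 : Tendsto (fun τ : ℍ => g (Function.Periodic.qParam (N : ℝ) τ)) atImInfty (𝓝 (g 0)) :=
    hg.continuousAt.tendsto.comp htend
  refine h6.congr' ?_
  filter_upwards [htend.eventually hgn] with τ hτ
  have h7 : qr m τ * h τ = qr (n / N) τ * g (Function.Periodic.qParam (N : ℝ) τ) := by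
    have h8 : f1 τ = qr m τ * h τ := rfl
    rw [← h8, ← heq τ, hτ, sub_zero, smul_eq_mul]
    congr 1
    rw [Function.Periodic.qParam, ← Complex.exp_nat_mul, qr]
    congr 1
    push_cast
    ring
  have h9 : qr (-((((n : ℤ) - m * N : ℤ) : ℝ) / N)) τ = qr m τ * (qr (n / N) τ)⁻¹ := by
    rw [← qr_neg, ← qr_add]
    congr 1
    push_cast
    field_simp
    ring
  rw [h9, ← mul_assoc, mul_comm (h τ), h7]
  have := qr_ne_zero (n / N) τ
  field_simp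

lemma norm_qr_le_one {x : ℝ} (hx : 0 ≤ x) (τ : ℍ) : ‖qr x τ‖ ≤ 1 := by
  rw [norm_qr, Real.exp_le_one_iff]
  have := τ.im_pos
  have := Real.pi_pos
  have : 0 ≤ 2 * π * x * τ.im := by positivity
  linarith

/-- The inverse of a nowhere vanishing function with at most a pole has at most a pole. -/
lemma modInf_inv {h : ℍ → ℂ} {N : ℕ} (hN : 0 < N) (hd : MDifferentiable 𝓘(ℂ) 𝓘(ℂ) h)
    (hper : ∀ τ : ℍ, h (((N : ℝ)) +ᵥ τ) = h τ) (hm : ModInf h) (hne : ∀ τ, h τ ≠ 0) :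
    ModInf (fun τ => (h τ)⁻¹) := by
  have hN' : (0 : ℝ) < N := by exact_mod_cast hN
  obtain ⟨n, c, hc, hlim⟩ := exists_leading hN hd hper hm (fun h0 => hne UpperHalfPlane.I (by rw [h0]; rfl))
  refine ⟨n.natAbs, ?_⟩
  have h1 : Tendsto (fun τ : ℍ => ‖(h τ * qr (-(n / N)) τ)⁻¹‖) atImInfty (𝓝 ‖c⁻¹‖) :=
    (hlim.inv₀ hc).norm
  have h2 : ∀ᶠ τ : ℍ in atImInfty, ‖(h τ * qr (-(n / N)) τ)⁻¹‖ < ‖c⁻¹‖ + 1 :=
    h1.eventually_lt_const (by linarith)
  rw [isBoundedAtImInfty_iff]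
  obtain ⟨A, hA⟩ := (atImInfty_mem _).mp h2
  refine ⟨‖c⁻¹‖ + 1, A, fun τ hτ => ?_⟩
  have h3 : ‖(h τ * qr (-(n / N)) τ)⁻¹‖ < ‖c⁻¹‖ + 1 := hA τ hτ
  have h4 : qr ((n.natAbs : ℕ) : ℝ) τ * (h τ)⁻¹ =
      qr ((n.natAbs : ℕ) - (n / N)) τ * (h τ * qr (-(n / N)) τ)⁻¹ := by
    rw [sub_eq_add_neg, qr_add, mul_inv]
    have := qr_ne_zero (-((n : ℝ) / N)) τ
    field_simp
  rw [h4, norm_mul]
  have h5 : (0 : ℝ) ≤ ((n.natAbs : ℕ) : ℝ) - (n / N) := by
    have h6 : (n : ℝ) ≤ (n.natAbs : ℕ) := by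
      have h61 : (n : ℤ) ≤ (n.natAbs : ℤ) := Int.le_natAbs
      have h62 : ((n : ℤ) : ℝ) ≤ (((n.natAbs : ℕ) : ℤ) : ℝ) := Int.cast_le.mpr h61
      rwa [Int.cast_natCast] at h62
    have h7 : (1 : ℝ) ≤ N := by exact_mod_cast hN
    have h8 : (n : ℝ) / N ≤ (n.natAbs : ℕ) := by
      rw [div_le_iff₀ hN']
      have : (0 : ℝ) ≤ (n.natAbs : ℕ) := Nat.cast_nonneg _
      nlinarith
    linarith
  calc ‖qr (((n.natAbs : ℕ) : ℝ) - (n / N)) τ‖ * ‖(h τ * qr (-(n / N)) τ)⁻¹‖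
      ≤ 1 * ‖(h τ * qr (-(n / N)) τ)⁻¹‖ :=
        mul_le_mul_of_nonneg_right (norm_qr_le_one h5 τ) (norm_nonneg _)
    _ ≤ ‖c⁻¹‖ + 1 := by linarith [le_of_lt h3]

/-- The point `x + i y`. -/
noncomputable def pt (x y : ℝ) (hy : 0 < y) : ℍ := ⟨x + y * I, by simpa using hy⟩

lemma pt_im (x y : ℝ) (hy : 0 < y) : (pt x y hy).im = y := by
  simp [pt, UpperHalfPlane.im]

lemma coe_pt (x y : ℝ) (hy : 0 < y) : ((pt x y hy : ℍ) : ℂ) = x + y * I := rfl

/-- Polynomial growth on one vertical line forces boundedness. -/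
lemma bounded_of_vertical {h : ℍ → ℂ} {N : ℕ} (hN : 0 < N) (hd : MDifferentiable 𝓘(ℂ) 𝓘(ℂ) h)
    (hper : ∀ τ : ℍ, h (((N : ℝ)) +ᵥ τ) = h τ) (hm : ModInf h) (hne : ∀ τ, h τ ≠ 0)
    {x C : ℝ} {K : ℕ} (hv : ∀ y : ℝ, ∀ hy : 0 < y, 1 ≤ y → ‖h (pt x y hy)‖ ≤ C * y ^ K) :
    IsBoundedAtImInfty h := by
  have hN' : (0 : ℝ) < N := by exact_mod_cast hN
  obtain ⟨n, c, hc, hlim⟩ := exists_leading hN hd hper hm (fun h0 => hne UpperHalfPlane.I (by rw [h0]; rfl))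
  have hcpos : 0 < ‖c‖ := norm_pos_iff.mpr hc
  have hn : 0 ≤ n := by
    by_contra hneg
    push Not at hneg
    set a : ℝ := -(2 * π * (n / N)) with ha
    have hapos : 0 < a := by
      have h1 : (n : ℝ) < 0 := by exact_mod_cast hneg
      have h2 : (n : ℝ) / N < 0 := div_neg_of_neg_of_pos h1 hN'
      have := Real.pi_pos
      have h3 : 2 * π * ((n : ℝ) / N) < 0 := by
        apply mul_neg_of_pos_of_neg (by positivity) h2
      linarith
    have h1 : ∀ᶠ τ : ℍ in atImInfty, ‖c‖ / 2 < ‖h τ * qr (-(n / N)) τ‖ :=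
      hlim.norm.eventually_const_lt (by linarith)
    obtain ⟨A, hA⟩ := (atImInfty_mem _).mp h1
    have h2 : ∀ y : ℝ, max A 1 ≤ y → ‖c‖ / 2 * Real.exp (a * y) ≤ C * y ^ K := by
      intro y hy
      have hy1 : 1 ≤ y := le_trans (le_max_right _ _) hy
      have hyA : A ≤ y := le_trans (le_max_left _ _) hy
      have hy0 : 0 < y := by linarith
      have h3 := hA (pt x y hy0) (by rw [pt_im]; exact hyA)
      have h4 := hv y hy0 hy1
      simp only [Set.mem_ofPred_eq, norm_mul, norm_qr, pt_im] at h3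
      have h5 : Real.exp (-(2 * π * -((n : ℝ) / N) * y)) = (Real.exp (a * y))⁻¹ := by
        rw [← Real.exp_neg]
        congr 1
        rw [ha]; ring
      rw [h5] at h3
      have h6 : 0 < Real.exp (a * y) := Real.exp_pos _
      have h7 : ‖c‖ / 2 * Real.exp (a * y) < ‖h (pt x y hy0)‖ := by
        rw [lt_mul_inv_iff₀ h6] at h3
        exact h3
      linarith
    have h3 : (fun y : ℝ => C * y ^ K) =o[atTop] fun y => Real.exp (a * y) :=
      (isLittleO_pow_exp_pos_mul_atTop K hapos).const_mul_left C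
    have h4 : ∀ᶠ y : ℝ in atTop, ‖C * y ^ K‖ ≤ ‖c‖ / 4 * ‖Real.exp (a * y)‖ :=
      h3.bound (by linarith)
    obtain ⟨y, hy1, hy2⟩ := (h4.and (eventually_ge_atTop (max A 1))).exists
    have h5 := h2 y hy2
    rw [Real.norm_eq_abs, Real.norm_eq_abs, abs_of_pos (Real.exp_pos _)] at hy1
    have h6 := le_abs_self (C * y ^ K)
    have h7 : 0 < ‖c‖ * Real.exp (a * y) := mul_pos hcpos (Real.exp_pos _)
    nlinarith
  rw [isBoundedAtImInfty_iff]
  have h1 : ∀ᶠ τ : ℍ in atImInfty, ‖h τ * qr (-(n / N)) τ‖ < ‖c‖ + 1 :=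
    hlim.norm.eventually_lt_const (by linarith)
  obtain ⟨A, hA⟩ := (atImInfty_mem _).mp h1
  refine ⟨‖c‖ + 1, A, fun τ hτ => ?_⟩
  have h3 : ‖h τ * qr (-(n / N)) τ‖ < ‖c‖ + 1 := hA τ hτ
  have h4 : h τ = qr (n / N) τ * (h τ * qr (-(n / N)) τ) := by
    rw [qr_neg]
    have := qr_ne_zero ((n : ℝ) / N) τ
    field_simp
  have h5 : (0 : ℝ) ≤ (n / N) := div_nonneg (by exact_mod_cast hn) hN'.le
  rw [h4, norm_mul]
  calc ‖qr (n / N) τ‖ * ‖h τ * qr (-(n / N)) τ‖ ≤ 1 * ‖h τ * qr (-(n / N)) τ‖ :=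
        mul_le_mul_of_nonneg_right (norm_qr_le_one h5 τ) (norm_nonneg _)
    _ ≤ ‖c‖ + 1 := by linarith [le_of_lt h3]

end Pool.Agent.Lib.MP_8ce23f_nt
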