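import Mathlib
import Pool.Agent.Lib.MP_8ce23f_nt.Orbit

/-!
# Orbits of the theta quotients are finite
-/

open Filter Topology Finset Complex
open scoped Real MatrixGroups Pointwise
open UpperHalfPlane hiding I

namespace Pool.Agent.Lib.MP_8ce23f_nt

/-- A power of the theta quotient at a torsion point. -/
noncomputable def HH (K : ℕ) (i j : ℤ) (τ : ℍ) : ℂ :=
  G ((i : ℝ) / (2 * K)) ((j : ℝ) / (2 * K)) τ ^ (24 * (2 * K) ^ 2)

lemma exp_pow_eq_one_of_int {x : ℂ} {n : ℕ} {k : ℤ} (h : n * x = k * (2 * π * I)) :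
    cexp x ^ n = 1 := by
  rw [← Complex.exp_nat_mul, h, Complex.exp_int_mul_two_pi_mul_I]

lemma HH_S {K : ℕ} (hK : 0 < K) (i j : ℤ) (τ : ℍ) :
    HH K i j (ModularGroup.S • τ) = HH K j (-i) τ := by
  have hK' : (K : ℂ) ≠ 0 := by exact_mod_cast hK.ne'
  unfold HH
  rw [G_S, mul_pow, exp_pow_eq_one_of_int (k := 24 * i * j), one_mul]
  · congr 2
    push_cast
    ring
  · push_cast
    field_simp

lemma HH_T {K : ℕ} (hK : 0 < K) (i j : ℤ) (τ : ℍ) :
    HH K i j (ModularGroup.T • τ) = HH K i (j + i + K) τ := by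
  have hK' : (K : ℂ) ≠ 0 := by exact_mod_cast hK.ne'
  have hK'' : (K : ℝ) ≠ 0 := by exact_mod_cast hK.ne'
  unfold HH
  rw [G_T, mul_pow, exp_pow_eq_one_of_int (k := -(12 * (i * (2 * K) + i ^ 2) + (2 * K) ^ 2)), one_mul]
  · congr 2
    push_cast
    field_simp
  · push_cast
    field_simp
    ring

lemma HH_add_left {K : ℕ} (hK : 0 < K) (i j : ℤ) : HH K (i + 2 * K) j = HH K i j := by
  have hK'' : (K : ℝ) ≠ 0 := by exact_mod_cast hK.ne'
  funext τ
  unfold HH G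
  have h1 : ((i + 2 * K : ℤ) : ℝ) / (2 * K) = (i : ℝ) / (2 * K) + 1 := by
    push_cast
    field_simp
  rw [h1, thetaC_add_one_left]

lemma HH_add_right {K : ℕ} (hK : 0 < K) (i j : ℤ) : HH K i (j + 2 * K) = HH K i j := by
  have hK'' : (K : ℝ) ≠ 0 := by exact_mod_cast hK.ne'
  have hK' : (K : ℂ) ≠ 0 := by exact_mod_cast hK.ne'
  funext τ
  unfold HH G
  have h1 : ((j + 2 * K : ℤ) : ℝ) / (2 * K) = (j : ℝ) / (2 * K) + 1 := by
    push_cast
    field_simp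
  rw [h1, thetaC_add_one_right, mul_div_assoc, mul_pow,
    exp_pow_eq_one_of_int (k := 24 * i * (2 * K)), one_mul]
  push_cast
  field_simp

lemma periodic_emod {α : Type*} {f : ℤ → α} {c : ℤ} (h : Function.Periodic f c) (i : ℤ) :
    f (i % c) = f i := by
  have h1 := (h.int_mul (i / c)) (i % c)
  rw [← h1]
  congr 1
  exact Int.emod_add_ediv_mul i c

/-- The finite family. -/
def HHfam (K : ℕ) : Set (ℍ → ℂ) := Set.range fun p : ℤ × ℤ => HH K p.1 p.2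

lemma HHfam_finite {K : ℕ} (hK : 0 < K) : (HHfam K).Finite := by
  have h1 : ∀ j, Function.Periodic (fun i => HH K i j) (2 * K : ℤ) := fun j i => HH_add_left hK i j
  have h2 : ∀ i, Function.Periodic (fun j => HH K i j) (2 * K : ℤ) := fun i j => HH_add_right hK i j
  have h3 : ∀ i j, HH K (i % (2 * K : ℤ)) (j % (2 * K : ℤ)) = HH K i j := by
    intro i j
    have e1 := periodic_emod (h1 (j % (2 * K : ℤ))) i
    have e2 := periodic_emod (h2 i) j
    rw [e1, e2]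
  have hpos : (0 : ℤ) < 2 * K := by positivity
  refine (((Set.finite_Ico (0 : ℤ) (2 * K)).prod (Set.finite_Ico (0 : ℤ) (2 * K))).image
    fun p => HH K p.1 p.2).subset ?_
  rintro _ ⟨⟨i, j⟩, rfl⟩
  refine ⟨(i % (2 * K : ℤ), j % (2 * K : ℤ)), ?_, h3 i j⟩
  simp only [Set.mem_prod, Set.mem_Ico]
  exact ⟨⟨Int.emod_nonneg _ hpos.ne', Int.emod_lt_of_pos _ hpos⟩,
    ⟨Int.emod_nonneg _ hpos.ne', Int.emod_lt_of_pos _ hpos⟩⟩

lemma orb_HH_subset {K : ℕ} (hK : 0 < K) (i j : ℤ) : orb (HH K i j) ⊆ HHfam K := by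
  refine orb_subset_of_stable ?_ ?_ ?_ ?_ ⟨(i, j), rfl⟩
  · rintro _ ⟨⟨a, b⟩, rfl⟩
    exact ⟨(b, -a), by funext τ; exact (HH_S hK a b τ).symm⟩
  · rintro _ ⟨⟨a, b⟩, rfl⟩
    refine ⟨(-b, a), ?_⟩
    funext τ
    have h := HH_S hK (-b) a (ModularGroup.S⁻¹ • τ)
    simp only [neg_neg, smul_inv_smul] at h
    exact h
  · rintro _ ⟨⟨a, b⟩, rfl⟩
    exact ⟨(a, b + a + K), by funext τ; exact (HH_T hK a b τ).symm⟩
  · rintro _ ⟨⟨a, b⟩, rfl⟩
    refine ⟨(a, b - a - K), ?_⟩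
    funext τ
    have h := HH_T hK a (b - a - K) (ModularGroup.T⁻¹ • τ)
    have h2 : b - a - K + a + K = b := by ring
    rw [smul_inv_smul, h2] at h
    exact h

end Pool.Agent.Lib.MP_8ce23f_nt
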