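import Mathlib
import Pool.Agent.Lib.MP_8ce23f_nt.Leading
import Pool.Agent.Lib.MP_8ce23f_nt.ThetaOrbit

/-!
# Modular units
-/

open Filter Topology Finset Complex
open scoped Real MatrixGroups Manifold
open UpperHalfPlane hiding I

namespace Pool.Agent.Lib.MP_8ce23f_nt

/-- Nowhere vanishing holomorphic functions with finite `SL(2,ℤ)`-orbit and at most poles at the
cusps. -/
structure Good (f : ℍ → ℂ) : Prop where
  mdiff : MDifferentiable 𝓘(ℂ) 𝓘(ℂ) f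
  ne_zero : ∀ τ, f τ ≠ 0
  fin : (orb f).Finite
  growth : ∀ g ∈ orb f, ModInf g

lemma modInf_mul {f g : ℍ → ℂ} (hf : ModInf f) (hg : ModInf g) : ModInf (fun τ => f τ * g τ) := by
  obtain ⟨m, hm⟩ := hf
  obtain ⟨n, hn⟩ := hg
  refine ⟨m + n, ?_⟩
  have h := Filter.BoundedAtFilter.mul hm hn
  have h2 : (fun τ => qr ((m + n : ℕ) : ℝ) τ * (f τ * g τ)) =
      (fun τ => qr m τ * f τ) * (fun τ => qr n τ * g τ) := by
    funext τ
    simp only [Pi.mul_apply]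
    push_cast
    rw [qr_add]
    ring
  rw [h2]
  exact h

lemma modInf_of_pow {f : ℍ → ℂ} {n : ℕ} (hn : n ≠ 0) (h : ModInf (fun τ => f τ ^ n)) :
    ModInf f := by
  obtain ⟨m, hm⟩ := h
  refine ⟨m, ?_⟩
  rw [isBoundedAtImInfty_iff] at hm ⊢
  obtain ⟨M, A, hMA⟩ := hm
  refine ⟨max M 1, A, fun τ hτ => ?_⟩
  have h1 := hMA τ hτ
  rw [norm_mul, norm_pow] at h1
  by_contra hcon
  push Not at hcon
  have h2 : (1 : ℝ) < ‖qr m τ * f τ‖ := lt_of_le_of_lt (le_max_right _ _) hcon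
  have h3 : M < ‖qr m τ * f τ‖ := lt_of_le_of_lt (le_max_left _ _) hcon
  have h4 : ‖qr m τ * f τ‖ ≤ ‖qr m τ * f τ‖ ^ n := le_self_pow₀ h2.le hn
  have h5 : ‖qr m τ * f τ‖ ^ n ≤ ‖qr m τ‖ * ‖f τ‖ ^ n := by
    rw [norm_mul, mul_pow]
    have h6 : ‖qr (m : ℝ) τ‖ ^ n ≤ ‖qr (m : ℝ) τ‖ :=
      pow_le_of_le_one (norm_nonneg _) (norm_qr_le_one (Nat.cast_nonneg m) τ) hn
    gcongr
  linarith

lemma mdiff_comp_smul {f : ℍ → ℂ} (hf : MDifferentiable 𝓘(ℂ) 𝓘(ℂ) f) (γ : SL(2, ℤ)) :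
    MDifferentiable 𝓘(ℂ) 𝓘(ℂ) (fun τ : ℍ => f (γ • τ)) := by
  have h : (fun τ : ℍ => f (γ • τ)) =
      f ∘ fun τ : ℍ => (Matrix.SpecialLinearGroup.mapGL ℝ γ : GL (Fin 2) ℝ) • τ := rfl
  rw [h]
  exact hf.comp (mdifferentiable_smul (by simp))

lemma exists_period_of_orb_finite {f : ℍ → ℂ} (h : (orb f).Finite) :
    ∃ N : ℕ, 0 < N ∧ ∀ τ : ℍ, f (((N : ℝ)) +ᵥ τ) = f τ := by
  obtain ⟨Γ, hΓ, hinv⟩ := (orb_finite_iff f).mp h
  obtain ⟨N, hN, -, hmem⟩ := Subgroup.exists_pow_mem_of_index_ne_zero hΓ.index_ne_zero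
    ModularGroup.T
  refine ⟨N, hN, fun τ => ?_⟩
  have h1 := hinv _ hmem τ
  have h2 : ModularGroup.T ^ N • τ = ((N : ℝ)) +ᵥ τ := by
    have := modular_T_zpow_smul τ (N : ℤ)
    rw [zpow_natCast] at this
    simpa using this
  rw [← h2, h1]

namespace Good

lemma comp {f : ℍ → ℂ} (hf : Good f) {g : ℍ → ℂ} (hg : g ∈ orb f) : Good g := by
  obtain ⟨γ, rfl⟩ := hg
  exact ⟨mdiff_comp_smul hf.mdiff γ, fun τ => hf.ne_zero _, hf.fin.subset (orb_smul_subset ⟨γ, rfl⟩),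
    fun g hg => hf.growth g (orb_smul_subset ⟨γ, rfl⟩ hg)⟩

lemma mul {f g : ℍ → ℂ} (hf : Good f) (hg : Good g) : Good (fun τ => f τ * g τ) := by
  refine ⟨hf.mdiff.mul hg.mdiff, fun τ => mul_ne_zero (hf.ne_zero τ) (hg.ne_zero τ),
    orb_mul_finite hf.fin hg.fin, ?_⟩
  rintro _ ⟨γ, rfl⟩
  exact modInf_mul (hf.growth _ ⟨γ, rfl⟩) (hg.growth _ ⟨γ, rfl⟩)

lemma const {c : ℂ} (hc : c ≠ 0) : Good (fun _ => c) := by
  refine ⟨mdifferentiable_const, fun _ => hc, orb_const_finite c, ?_⟩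
  rintro _ ⟨γ, rfl⟩
  refine ⟨0, ?_⟩
  rw [isBoundedAtImInfty_iff]
  exact ⟨‖c‖, 0, fun τ _ => by simp [qr_zero]⟩

lemma pow {f : ℍ → ℂ} (hf : Good f) (n : ℕ) : Good (fun τ => f τ ^ n) := by
  induction n with
  | zero => simpa using const one_ne_zero
  | succ n ih => simpa [pow_succ] using ih.mul hf

lemma prod {ι : Type*} (s : Finset ι) {f : ι → ℍ → ℂ} (h : ∀ i ∈ s, Good (f i)) :
    Good (fun τ => ∏ i ∈ s, f i τ) := by
  classical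
  induction s using Finset.induction_on with
  | empty => simpa using const one_ne_zero
  | insert a s ha ih =>
    simp only [Finset.prod_insert ha]
    exact (h a (by simp)).mul (ih fun i hi => h i (by simp [hi]))

lemma inv {f : ℍ → ℂ} (hf : Good f) : Good (fun τ => (f τ)⁻¹) := by
  refine ⟨?_, fun τ => inv_ne_zero (hf.ne_zero τ), orb_inv_finite hf.fin, ?_⟩
  · rw [UpperHalfPlane.mdifferentiable_iff]
    have h1 := UpperHalfPlane.mdifferentiable_iff.mp hf.mdiff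
    exact h1.inv fun z _ => hf.ne_zero _
  · rintro _ ⟨γ, rfl⟩
    have hg := hf.comp (g := fun τ => f (γ • τ)) ⟨γ, rfl⟩
    obtain ⟨N, hN, hper⟩ := exists_period_of_orb_finite hg.fin
    exact modInf_inv hN hg.mdiff hper (hg.growth _ (mem_orb_self _)) hg.ne_zero

lemma of_pow {f : ℍ → ℂ} (hd : MDifferentiable 𝓘(ℂ) 𝓘(ℂ) f) {n : ℕ} (hn : n ≠ 0)
    (h : Good (fun τ => f τ ^ n)) : Good f := by
  have h0 : ∀ τ, f τ ≠ 0 := fun τ h1 => h.ne_zero τ (by simp [h1, hn])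
  refine ⟨hd, h0, orb_finite_of_pow hd.continuous h0 hn h.fin, ?_⟩
  rintro _ ⟨γ, rfl⟩
  exact modInf_of_pow hn (h.growth _ ⟨γ, rfl⟩)

end Good

end Pool.Agent.Lib.MP_8ce23f_nt
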