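import Mathlib
import Pool.Agent.Lib.MP_8ce23f_nt.Good

/-!
# The functions `q^(x^2/2-1/24) E(x) E(-x)` are modular units
-/

open Filter Topology Finset Complex
open scoped Real MatrixGroups Manifold
open UpperHalfPlane hiding I

namespace Pool.Agent.Lib.MP_8ce23f_nt

lemma thetaC_eq_tsum (a b : ℝ) (τ : ℂ) :
    thetaC a b τ = ∑' n : ℤ, cexp (π * I * (n + a) ^ 2 * τ + 2 * π * I * (n + a) * b) := by
  unfold thetaC jacobiTheta₂
  rw [← tsum_mul_left]
  apply tsum_congr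
  intro n
  rw [jacobiTheta₂_term, ← Complex.exp_add]
  congr 1
  ring

lemma summable_gauss (a : ℝ) : Summable fun n : ℤ => Real.exp (-(π * (n + a) ^ 2)) := by
  have h1 : Summable (jacobiTheta₂_term · (a * I) I) :=
    (summable_jacobiTheta₂_term_iff (a * I) I).mpr (by simp)
  have h2 := (h1.norm).mul_left (Real.exp (-(π * a ^ 2)))
  refine h2.congr fun n => ?_
  rw [norm_jacobiTheta₂_term, ← Real.exp_add]
  congr 1
  simp
  ring

lemma norm_thetaC_le (a b : ℝ) {τ : ℂ} (hτ : 1 ≤ τ.im) :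
    ‖thetaC a b τ‖ ≤ ∑' n : ℤ, Real.exp (-(π * (n + a) ^ 2)) := by
  rw [thetaC_eq_tsum]
  have hle : ∀ n : ℤ, ‖cexp (π * I * (n + a) ^ 2 * τ + 2 * π * I * (n + a) * b)‖ ≤
      Real.exp (-(π * (n + a) ^ 2)) := by
    intro n
    rw [Complex.norm_exp, Real.exp_le_exp]
    have h1 : (π * I * (n + a) ^ 2 * τ + 2 * π * I * (n + a) * b : ℂ).re =
        -(π * (n + a) ^ 2 * τ.im) := by
      have h2 : (π * I * (n + a) ^ 2 * τ + 2 * π * I * (n + a) * b : ℂ) =
          ((π * (n + a) ^ 2 : ℝ) : ℂ) * (τ * I) + ((2 * π * (n + a) * b : ℝ) : ℂ) * I := by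
        push_cast; ring
      rw [h2, Complex.add_re, Complex.re_ofReal_mul, Complex.re_ofReal_mul]
      simp
    rw [h1]
    have h3 : 0 ≤ π * (n + a) ^ 2 := by positivity
    nlinarith
  have hs := Summable.of_nonneg_of_le (fun _ => norm_nonneg _) hle (summable_gauss a)
  exact (norm_tsum_le_tsum_norm hs).trans (hs.tsum_le_tsum hle (summable_gauss a))

lemma modInf_G (a b : ℝ) : ModInf (G a b) := by
  refine ⟨1, ?_⟩
  obtain ⟨C, hC⟩ := ModularForm.exp_isBigO_discriminant.bound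
  rw [isBoundedAtImInfty_iff]
  obtain ⟨A, hA⟩ := (atImInfty_mem _).mp hC
  set S : ℝ := ∑' n : ℤ, Real.exp (-(π * (n + a) ^ 2)) with hS
  have hS0 : 0 ≤ S := tsum_nonneg fun _ => (Real.exp_pos _).le
  refine ⟨(|C| + 1) * S, max A 1, fun τ hτ => ?_⟩
  have h1 : Real.exp (-2 * π * τ.im) ≤ (|C| + 1) * ‖ModularForm.eta τ‖ ^ 24 := by
    have h2 := hA τ (le_trans (le_max_left _ _) hτ)
    simp only [Set.mem_ofPred_eq, Real.norm_eq_abs, Real.abs_exp, ModularForm.discriminant,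
      norm_pow] at h2
    refine h2.trans ?_
    have h3 : C ≤ |C| + 1 := by linarith [le_abs_self C]
    gcongr
  have h4 : ‖thetaC a b τ‖ ≤ S := norm_thetaC_le a b (le_trans (le_max_right _ _) hτ)
  have h5 : ‖qr ((1 : ℕ) : ℝ) τ‖ = Real.exp (-2 * π * τ.im) := by
    rw [norm_qr]
    congr 1
    push_cast
    ring
  have heta : 0 < ‖ModularForm.eta τ‖ := norm_pos_iff.mpr (ModularForm.eta_ne_zero τ.2)
  have heta1 : Real.exp (-2 * π * τ.im) ≤ (|C| + 1) * ‖ModularForm.eta τ‖ := by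
    rcases le_total ‖ModularForm.eta τ‖ 1 with h6 | h6
    · have h7 : ‖ModularForm.eta τ‖ ^ 24 ≤ ‖ModularForm.eta τ‖ :=
        pow_le_of_le_one heta.le h6 (by norm_num)
      refine h1.trans ?_
      gcongr
    · have h7 : Real.exp (-2 * π * τ.im) ≤ 1 := by
        rw [Real.exp_le_one_iff]
        have := τ.im_pos
        have := Real.pi_pos
        nlinarith [mul_pos Real.pi_pos τ.im_pos]
      have h8 : (0 : ℝ) ≤ |C| := abs_nonneg C
      nlinarith
  rw [norm_mul, h5, G, norm_div, mul_div_assoc', div_le_iff₀ heta]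
  calc Real.exp (-2 * π * τ.im) * ‖thetaC a b τ‖ ≤ ((|C| + 1) * ‖ModularForm.eta τ‖) * S := by
        gcongr
    _ = (|C| + 1) * S * ‖ModularForm.eta τ‖ := by ring

lemma modInf_pow {f : ℍ → ℂ} (hf : ModInf f) (n : ℕ) : ModInf (fun τ => f τ ^ n) := by
  induction n with
  | zero =>
    refine ⟨0, ?_⟩
    rw [isBoundedAtImInfty_iff]
    exact ⟨1, 0, fun τ _ => by simp [qr_zero]⟩
  | succ n ih => simpa [pow_succ] using modInf_mul ih hf

/-- The modular unit attached to `x`. -/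
noncomputable def gE (x : ℝ) (τ : ℍ) : ℂ := qr (x ^ 2 / 2 - 1 / 24) τ * (E x τ * E (-x) τ)

lemma tcoef_eq (x : ℝ) (τ : ℍ) (N : ℤ) :
    tcoef (qr 1 τ) (qr (x + 1 / 2) τ) (qr (-x + 1 / 2) τ) N = qr ((N : ℝ) ^ 2 / 2 + x * N) τ := by
  have hch : ∀ n : ℕ, ((n.choose 2 : ℕ) : ℝ) = (n : ℝ) * (n - 1) / 2 := Nat.cast_choose_two ℝ
  unfold tcoef
  rw [← qr_nat, ← qr_nat_mul, ← qr_nat_mul, ← qr_add, ← qr_add, hch]
  congr 1
  rcases le_total 0 N with h | h
  · obtain ⟨M, rfl⟩ := Int.eq_ofNat_of_zero_le h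
    simp
    ring
  · obtain ⟨M, hM⟩ := Int.eq_ofNat_of_zero_le (neg_nonneg.mpr h)
    obtain rfl : N = -(M : ℤ) := by omega
    simp
    ring

lemma G_eq_gE (x : ℝ) : G x 0 = gE x := by
  funext τ
  have hq := norm_qr_one_lt τ
  have hww : qr (x + 1 / 2) τ * qr (-x + 1 / 2) τ = qr 1 τ := by
    rw [← qr_add]; congr 1; ring
  have h1 := (triple_product hq hww).tsum_eq
  simp only [tcoef_eq] at h1
  have h2 : thetaC x 0 τ = qr (x ^ 2 / 2) τ * ∑' N : ℤ, qr ((N : ℝ) ^ 2 / 2 + x * N) τ := by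
    rw [thetaC_eq_tsum, ← tsum_mul_left]
    apply tsum_congr
    intro n
    rw [← qr_add, qr]
    congr 1
    push_cast
    ring
  have h3 : ModularForm.eta τ = qr (1 / 24) τ * pochInf (qr 1 τ) := by
    unfold ModularForm.eta pochInf
    congr 1
    · simp only [Function.Periodic.qParam, qr]
      congr 1
      push_cast
      ring
    · apply tprod_congr
      intro n
      rw [ModularForm.eta_q_eq_pow]
      simp [qr]
  have h4 : E x τ * E (-x) τ * pochInf (qr 1 τ) = ∑' N : ℤ, qr ((N : ℝ) ^ 2 / 2 + x * N) τ := by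
    rw [h1]
    unfold E
    ring
  unfold G gE
  rw [h2, ← h4, h3, sub_eq_add_neg, qr_add, qr_neg]
  have := pochInf_ne_zero hq
  have := qr_ne_zero (1 / 24) τ
  field_simp

lemma gE_mdiff (x : ℝ) : MDifferentiable 𝓘(ℂ) 𝓘(ℂ) (gE x) :=
  (qr_mdifferentiable _).mul ((E_mdifferentiable x).mul (E_mdifferentiable (-x)))

lemma gE_ne_zero (x : ℝ) (τ : ℍ) : gE x τ ≠ 0 :=
  mul_ne_zero (qr_ne_zero _ _) (mul_ne_zero (E_ne_zero _ _) (E_ne_zero _ _))

lemma good_gE (x : ℚ) : Good (gE x) := by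
  set K := x.den with hK
  have hKpos : 0 < K := x.den_pos
  have hx : (((2 * x.num : ℤ) : ℝ) / (2 * (K : ℝ))) = (x : ℝ) := by
    have : (x : ℝ) = (x.num : ℝ) / x.den := by exact_mod_cast (Rat.num_div_den x).symm
    rw [this]
    push_cast
    rw [hK]
    have : (x.den : ℝ) ≠ 0 := by exact_mod_cast x.den_pos.ne'
    field_simp
  have hHH : HH K (2 * x.num) 0 = fun τ => gE x τ ^ (24 * (2 * K) ^ 2) := by
    funext τ
    unfold HH
    rw [hx]
    simp only [Int.cast_zero, zero_div]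
    rw [G_eq_gE]
  have hne : 24 * (2 * K) ^ 2 ≠ 0 := by positivity
  refine Good.of_pow (gE_mdiff x) hne ⟨?_, fun τ => pow_ne_zero _ (gE_ne_zero _ τ), ?_, ?_⟩
  · have : ∀ n : ℕ, MDifferentiable 𝓘(ℂ) 𝓘(ℂ) (fun τ => gE (x : ℝ) τ ^ n) := by
      intro n
      induction n with
      | zero => simpa using mdifferentiable_const
      | succ n ih =>
        simp only [pow_succ]
        exact ih.mul (gE_mdiff x)
    exact this _
  · rw [← hHH]
    exact (HHfam_finite hKpos).subset (orb_HH_subset hKpos _ _)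
  · rw [← hHH]
    intro g hg
    obtain ⟨⟨i, j⟩, rfl⟩ := orb_HH_subset hKpos _ _ hg
    exact modInf_pow (modInf_G _ _) _

end Pool.Agent.Lib.MP_8ce23f_nt
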