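import Mathlib

/-!
# Uniqueness of exponents in infinite products of `1 + t^n`
-/

open Filter Topology Finset
open scoped Real

namespace Pool.Agent.Lib.MP_8ce23f_nt

lemma log_one_add_le {x : ℝ} (hx : 0 ≤ x) : Real.log (1 + x) ≤ x := by
  have := Real.log_le_sub_one_of_pos (show 0 < 1 + x by linarith)
  linarith

lemma half_le_log_one_add {x : ℝ} (hx : 0 ≤ x) (hx1 : x ≤ 1) : x / 2 ≤ Real.log (1 + x) := by
  have h1 := Real.one_sub_inv_le_log_of_pos (show 0 < 1 + x by linarith)
  have h2 : x / 2 ≤ 1 - (1 + x)⁻¹ := by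
    have : 1 - (1 + x)⁻¹ = x / (1 + x) := by field_simp; ring
    rw [this]
    apply div_le_div_of_nonneg_left hx (by linarith) (by linarith)
  linarith

lemma log_one_add_nonneg {x : ℝ} (hx : 0 ≤ x) : 0 ≤ Real.log (1 + x) :=
  Real.log_nonneg (by linarith)

lemma summable_coeff_log {A : ℕ → ℝ} {C : ℝ} (hA : ∀ n, |A n| ≤ C) {t : ℝ} (h0 : 0 < t)
    (h1 : t < 1) : Summable fun n => A n * Real.log (1 + t ^ (n + 1)) := by
  have hC : 0 ≤ C := (abs_nonneg _).trans (hA 0)
  have h2 : Summable fun n : ℕ => C * t ^ (n + 1) :=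
    ((summable_nat_add_iff 1).mpr (summable_geometric_of_lt_one h0.le h1)).mul_left C
  refine Summable.of_norm_bounded h2 fun n => ?_
  rw [norm_mul, Real.norm_eq_abs, Real.norm_eq_abs,
    abs_of_nonneg (log_one_add_nonneg (by positivity))]
  exact mul_le_mul (hA n) (log_one_add_le (by positivity)) (log_one_add_nonneg (by positivity)) hC

/-- tail bound. -/
lemma abs_tsum_le {A : ℕ → ℝ} {C : ℝ} (hA : ∀ n, |A n| ≤ C) {n₀ : ℕ} (hz : ∀ n < n₀, A n = 0)
    {t : ℝ} (h0 : 0 < t) (h1 : t < 1) :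
    |∑' n, A n * Real.log (1 + t ^ (n + 1))| ≤ C * t ^ (n₀ + 1) / (1 - t) := by
  have hC : 0 ≤ C := (abs_nonneg _).trans (hA 0)
  have hs := summable_coeff_log hA h0 h1
  have h2 : ∑' n, A n * Real.log (1 + t ^ (n + 1)) =
      ∑' n, A (n + n₀) * Real.log (1 + t ^ (n + n₀ + 1)) := by
    rw [← hs.sum_add_tsum_nat_add n₀, Finset.sum_eq_zero, zero_add]
    intro n hn
    rw [hz n (mem_range.mp hn), zero_mul]
  rw [h2]
  have hg : Summable fun n : ℕ => C * t ^ (n₀ + 1) * t ^ n :=
    (summable_geometric_of_lt_one h0.le h1).mul_left _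
  have hle : ∀ n : ℕ, ‖A (n + n₀) * Real.log (1 + t ^ (n + n₀ + 1))‖ ≤ C * t ^ (n₀ + 1) * t ^ n := by
    intro n
    rw [norm_mul, Real.norm_eq_abs, Real.norm_eq_abs,
      abs_of_nonneg (log_one_add_nonneg (by positivity))]
    have h3 : t ^ (n + n₀ + 1) = t ^ (n₀ + 1) * t ^ n := by rw [← pow_add]; congr 1; ring
    calc |A (n + n₀)| * Real.log (1 + t ^ (n + n₀ + 1)) ≤ C * t ^ (n + n₀ + 1) :=
          mul_le_mul (hA _) (log_one_add_le (by positivity)) (log_one_add_nonneg (by positivity)) hC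
      _ = _ := by rw [h3]; ring
  have h4 := tsum_of_norm_bounded hg.hasSum hle
  rw [tsum_mul_left, tsum_geometric_of_lt_one h0.le h1] at h4
  rw [Real.norm_eq_abs] at h4
  rw [div_eq_mul_inv]
  exact h4

/-- Uniqueness of the coefficients. -/
lemma coeff_eq_zero {A : ℕ → ℝ} {C : ℝ} (hA : ∀ n, |A n| ≤ C)
    (h : ∀ t : ℝ, 0 < t → t < 1 → ∑' n, A n * Real.log (1 + t ^ (n + 1)) = 0) : ∀ n, A n = 0 := by
  have hC : 0 ≤ C := (abs_nonneg _).trans (hA 0)
  intro n
  induction n using Nat.strong_induction_on with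
  | _ n ih =>
    by_contra hne
    have hpos : 0 < |A n| := abs_pos.mpr hne
    -- remove the n-th term
    have key : ∀ t : ℝ, 0 < t → t ≤ 1 / 2 → |A n| / 2 ≤ 2 * C * t := by
      intro t h0 h12
      have h1 : t < 1 := by linarith
      have hs := summable_coeff_log hA h0 h1
      set A' : ℕ → ℝ := fun m => if m = n then 0 else A m with hA'
      have hA'b : ∀ m, |A' m| ≤ C := by
        intro m
        simp only [hA']
        split_ifs
        · simpa using hC
        · exact hA m
      have hz : ∀ m < n + 1, A' m = 0 := by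
        intro m hm
        simp only [hA']
        split_ifs with h2
        · rfl
        · exact ih m (by omega)
      have h2 : ∑' m, A m * Real.log (1 + t ^ (m + 1)) =
          A n * Real.log (1 + t ^ (n + 1)) + ∑' m, A' m * Real.log (1 + t ^ (m + 1)) := by
        rw [hs.tsum_eq_add_tsum_ite n]
        congr 1
        apply tsum_congr
        intro m
        simp only [hA']
        split_ifs <;> simp
      have h3 := abs_tsum_le hA'b hz h0 h1
      have h4 : A n * Real.log (1 + t ^ (n + 1)) = -∑' m, A' m * Real.log (1 + t ^ (m + 1)) := by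
        rw [h t h0 h1] at h2
        linarith
      have h5 : |A n| * Real.log (1 + t ^ (n + 1)) ≤ C * t ^ (n + 1 + 1) / (1 - t) := by
        rw [← abs_of_nonneg (log_one_add_nonneg (show (0 : ℝ) ≤ t ^ (n + 1) by positivity)),
          ← abs_mul, h4, abs_neg]
        exact h3
      have h6 : t ^ (n + 1) / 2 ≤ Real.log (1 + t ^ (n + 1)) :=
        half_le_log_one_add (by positivity) (pow_le_one₀ h0.le h1.le)
      have h7 : C * t ^ (n + 1 + 1) / (1 - t) ≤ 2 * C * t * t ^ (n + 1) := by
        rw [div_le_iff₀ (by linarith)]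
        have h8 : 0 ≤ C * t ^ (n + 1 + 1) := by positivity
        have h9 : 2 * C * t * t ^ (n + 1) * (1 - t) = 2 * (C * t ^ (n + 1 + 1)) * (1 - t) := by ring
        rw [h9]
        nlinarith
      have h8 : |A n| * (t ^ (n + 1) / 2) ≤ 2 * C * t * t ^ (n + 1) :=
        (mul_le_mul_of_nonneg_left h6 hpos.le).trans (h5.trans h7)
      have h9 : 0 < t ^ (n + 1) := by positivity
      have h10 : (|A n| / 2) * t ^ (n + 1) ≤ (2 * C * t) * t ^ (n + 1) := by linarith
      exact le_of_mul_le_mul_right h10 h9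
    have h1 := key (min (1 / 2) (|A n| / (8 * (C + 1)))) (by positivity) (min_le_left _ _)
    have h2 : 2 * C * min (1 / 2) (|A n| / (8 * (C + 1))) ≤ |A n| / 4 := by
      calc 2 * C * min (1 / 2) (|A n| / (8 * (C + 1))) ≤ 2 * C * (|A n| / (8 * (C + 1))) := by
            gcongr
            exact min_le_right _ _
        _ ≤ |A n| / 4 := by
            rw [mul_div_assoc', div_le_div_iff₀ (by positivity) (by norm_num)]
            nlinarith
    linarith

lemma coeff_eq_zero' {A : ℕ → ℝ} {C α β : ℝ} (hA : ∀ n, |A n| ≤ C)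
    (h : ∀ t : ℝ, 0 < t → t < 1 →
      α * Real.log t + β + ∑' n, A n * Real.log (1 + t ^ (n + 1)) = 0) : ∀ n, A n = 0 := by
  have hC : 0 ≤ C := (abs_nonneg _).trans (hA 0)
  have htend : Tendsto (fun t : ℝ => ∑' n, A n * Real.log (1 + t ^ (n + 1))) (𝓝[>] 0) (𝓝 0) := by
    have h1 : Tendsto (fun t : ℝ => C * t ^ (0 + 1) / (1 - t)) (𝓝[>] 0) (𝓝 0) := by
      have h2 : ContinuousAt (fun t : ℝ => C * t ^ (0 + 1) / (1 - t)) 0 := by
        apply ContinuousAt.div
        · fun_prop
        · fun_prop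
        · norm_num
      have h3 := h2.tendsto
      simp only [zero_add, pow_one, mul_zero, zero_div] at h3
      simpa using h3.mono_left nhdsWithin_le_nhds
    rw [tendsto_zero_iff_abs_tendsto_zero]
    refine squeeze_zero' (Eventually.of_forall fun _ => abs_nonneg _) ?_ h1
    filter_upwards [Ioo_mem_nhdsGT (show (0 : ℝ) < 1 by norm_num)] with t ht
    exact abs_tsum_le hA (by simp) ht.1 ht.2
  have hα : α = 0 := by
    by_contra hne
    have h1 : Tendsto (fun t : ℝ => α * Real.log t) (𝓝[>] 0) (𝓝 (-β - 0)) := by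
      have h2 : Tendsto (fun t : ℝ => -β - ∑' n, A n * Real.log (1 + t ^ (n + 1))) (𝓝[>] 0)
          (𝓝 (-β - 0)) := tendsto_const_nhds.sub htend
      refine h2.congr' ?_
      filter_upwards [Ioo_mem_nhdsGT (show (0 : ℝ) < 1 by norm_num)] with t ht
      linarith [h t ht.1 ht.2]
    have h3 : Tendsto (fun t : ℝ => Real.log t) (𝓝[>] 0) (𝓝 (α⁻¹ * (-β - 0))) := by
      have := h1.const_mul α⁻¹
      refine this.congr fun t => ?_
      rw [← mul_assoc, inv_mul_cancel₀ hne, one_mul]
    exact not_tendsto_nhds_of_tendsto_atBot Real.tendsto_log_nhdsGT_zero _ h3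
  have hβ : β = 0 := by
    have h2 : Tendsto (fun t : ℝ => -∑' n, A n * Real.log (1 + t ^ (n + 1))) (𝓝[>] 0) (𝓝 (-0)) :=
      htend.neg
    have h3 : Tendsto (fun _ : ℝ => β) (𝓝[>] (0 : ℝ)) (𝓝 (-0)) := by
      refine h2.congr' ?_
      filter_upwards [Ioo_mem_nhdsGT (show (0 : ℝ) < 1 by norm_num)] with t ht
      have := h t ht.1 ht.2
      rw [hα] at this
      linarith
    have := tendsto_nhds_unique tendsto_const_nhds h3
    simpa using this
  apply coeff_eq_zero hA
  intro t h0 h1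
  have := h t h0 h1
  rw [hα, hβ] at this
  linarith

end Pool.Agent.Lib.MP_8ce23f_nt
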