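import Mathlib
import Pool.Agent.Lib.MP_8ce23f_nt.Unique

/-!
# Products over arithmetic progressions of exponents
-/

open Filter Topology Finset
open scoped Real

namespace Pool.Agent.Lib.MP_8ce23f_nt

/-- indicator of `b ≡ N` and `b ≤ N`. -/
noncomputable def uu (M : ℕ) (N b : ℤ) : ℝ := if (M : ℤ) ∣ N - b ∧ b ≤ N then 1 else 0

/-- indicator of `b ≡ N`. -/
noncomputable def ww (M : ℕ) (N b : ℤ) : ℝ := if (M : ℤ) ∣ N - b then 1 else 0

lemma uu_reflect {M : ℕ} (hM0 : 0 < M) (N b : ℤ) :
    uu M N (M - b) = ww M (-N) b - uu M (-N) b := by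
  unfold uu ww
  have hM : (0 : ℤ) < M := by exact_mod_cast hM0
  have h1 : (M : ℤ) ∣ N - (M - b) ↔ (M : ℤ) ∣ -N - b := by
    have : -N - b = -(N - (M - b)) + (-1) * M := by ring
    rw [this]
    constructor
    · intro h
      exact (h.neg_right).add (Dvd.intro_left _ rfl)
    · intro h
      have h2 := (Int.dvd_add_left (Dvd.intro_left (-1 : ℤ) rfl : (M : ℤ) ∣ (-1) * M)).mp h
      exact (Int.dvd_neg).mp h2
  by_cases h : (M : ℤ) ∣ -N - b
  · obtain ⟨k, hk⟩ := id h
    by_cases h2 : b ≤ -N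
    · have h3 : ¬ (M : ℤ) - b ≤ N := by omega
      simp [h1, h2, h3]
    · have h3 : (M : ℤ) - b ≤ N := by
        have : -N - b < 0 := by omega
        rw [hk] at this
        have hk0 : k ≤ -1 := by
          by_contra hcon
          push Not at hcon
          have : 0 ≤ (M : ℤ) * k := mul_nonneg hM.le (by omega)
          omega
        nlinarith
      simp [h1, h2, h3]
  · simp [h1, h]

lemma uu_step {M : ℕ} (hM0 : 0 < M) (N b : ℤ) :
    uu M N b - uu M (N - M) b = if b = N then 1 else 0 := by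
  unfold uu
  have hM : (0 : ℤ) < M := by exact_mod_cast hM0
  have h1 : (M : ℤ) ∣ N - M - b ↔ (M : ℤ) ∣ N - b := by
    have : N - M - b = N - b + (-1) * M := by ring
    rw [this]
    exact Int.dvd_add_left (Dvd.intro_left _ rfl)
  by_cases h : (M : ℤ) ∣ N - b
  · obtain ⟨k, hk⟩ := id h
    by_cases hb : b = N
    · subst hb
      have : ¬ b ≤ b - M := by omega
      simp [this]
    · by_cases h2 : b ≤ N
      · have h3 : b ≤ N - M := by
          have h4 : 0 < N - b := by omega
          rw [hk] at h4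
          have h5 : 1 ≤ k := by
            by_contra hcon
            push Not at hcon
            have : (M : ℤ) * k ≤ 0 := mul_nonpos_of_nonneg_of_nonpos hM.le (by omega)
            omega
          nlinarith
        simp [h1, h, h2, h3, hb]
      · have h3 : ¬ b ≤ N - M := by omega
        simp [h2, h3, hb]
  · have hb : b ≠ N := by
      rintro rfl
      simp at h
    simp [h1, h, hb]

lemma uu_shift {M : ℕ} (hM0 : 0 < M) (N b : ℤ) :
    uu M N b - uu M N (b + M) = if b = N then 1 else 0 := by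
  have h := uu_step hM0 N b
  have h2 : uu M N (b + M) = uu M (N - M) b := by
    unfold uu
    have h3 : N - (b + M) = N - M - b := by ring
    have h4 : (b + M ≤ N) ↔ (b ≤ N - M) := by constructor <;> intro h <;> linarith
    rw [h3]
    simp only [h4]
  rw [h2, h]

lemma uu_nonneg (M : ℕ) (N b : ℤ) : 0 ≤ uu M N b := by
  unfold uu; split_ifs <;> norm_num

lemma uu_le_one (M : ℕ) (N b : ℤ) : uu M N b ≤ 1 := by
  unfold uu; split_ifs <;> norm_num

/-- The coefficient sequence of the progression starting at `b`. -/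
noncomputable def AA (M : ℕ) (b : ℤ) (n : ℕ) : ℝ := uu M (n + 1) b + uu M (-(n + 1)) b

lemma abs_AA_le (M : ℕ) (b : ℤ) (n : ℕ) : |AA M b n| ≤ 2 := by
  unfold AA
  have h1 := uu_nonneg M (n + 1) b
  have h2 := uu_nonneg M (-(n + 1)) b
  have h3 := uu_le_one M (n + 1) b
  have h4 := uu_le_one M (-(n + 1)) b
  rw [abs_of_nonneg (by linarith)]
  linarith

/-- `∑ log (1 + t^(M k + b))`. -/
noncomputable def Phi (M : ℕ) (b : ℤ) (t : ℝ) : ℝ :=
  ∑' k : ℕ, Real.log (1 + t ^ ((M : ℤ) * k + b))

lemma summable_Phi {M : ℕ} (hM : 0 < M) (b : ℤ) {t : ℝ} (h0 : 0 < t) (h1 : t < 1) :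
    Summable fun k : ℕ => Real.log (1 + t ^ ((M : ℤ) * k + b)) := by
  have h2 : t ^ M < 1 := pow_lt_one₀ h0.le h1 hM.ne'
  have h3 : Summable fun k : ℕ => t ^ b * (t ^ M) ^ k :=
    (summable_geometric_of_lt_one (by positivity) h2).mul_left _
  refine Summable.of_nonneg_of_le (fun k => log_one_add_nonneg (by positivity)) (fun k => ?_) h3
  refine (log_one_add_le (by positivity)).trans (le_of_eq ?_)
  rw [zpow_add₀ h0.ne', ← pow_mul, mul_comm]
  congr 1

lemma Phi_shift {M : ℕ} (hM : 0 < M) (b : ℤ) {t : ℝ} (h0 : 0 < t) (h1 : t < 1) :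
    Phi M b t = Real.log (1 + t ^ b) + Phi M (b + M) t := by
  unfold Phi
  rw [(summable_Phi hM b h0 h1).tsum_eq_zero_add]
  congr 1
  · simp
  · apply tsum_congr
    intro k
    congr 3
    push_cast
    ring

/-- Representability of `Phi`. -/
def Rep (M : ℕ) (b : ℤ) : Prop := ∃ α β : ℝ, ∀ t : ℝ, 0 < t → t < 1 →
  Phi M b t = α * Real.log t + β + ∑' n : ℕ, AA M b n * Real.log (1 + t ^ (n + 1))

lemma tsum_AA_shift {M : ℕ} (hM : 0 < M) (b : ℤ) {t : ℝ} (h0 : 0 < t) (h1 : t < 1) :
    ∑' n : ℕ, AA M b n * Real.log (1 + t ^ (n + 1)) =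
      (if b = 0 then 0 else Real.log (1 + t ^ b.natAbs)) +
        ∑' n : ℕ, AA M (b + M) n * Real.log (1 + t ^ (n + 1)) := by
  have hs1 := summable_coeff_log (abs_AA_le M b) h0 h1
  have hs2 := summable_coeff_log (abs_AA_le M (b + M)) h0 h1
  have h2 : ∑' n : ℕ, AA M b n * Real.log (1 + t ^ (n + 1)) -
      ∑' n : ℕ, AA M (b + M) n * Real.log (1 + t ^ (n + 1)) =
      ∑' n : ℕ, (if n + 1 = b.natAbs then Real.log (1 + t ^ (n + 1)) else 0) := by
    rw [← hs1.tsum_sub hs2]
    apply tsum_congr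
    intro n
    rw [← sub_mul]
    have h3 : AA M b n - AA M (b + M) n = if n + 1 = b.natAbs then 1 else 0 := by
      unfold AA
      have e1 := uu_shift hM (n + 1) b
      have e2 := uu_shift hM (-(n + 1)) b
      have : uu M (n + 1) b + uu M (-(n + 1)) b - (uu M (n + 1) (b + M) + uu M (-(n + 1)) (b + M)) =
          (if b = n + 1 then 1 else 0) + (if b = -(n + 1) then 1 else 0) := by
        rw [← e1, ← e2]; ring
      rw [this]
      split_ifs <;> first | omega | norm_num
    rw [h3]
    split_ifs <;> simp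
  have h4 : ∑' n : ℕ, (if n + 1 = b.natAbs then Real.log (1 + t ^ (n + 1)) else 0) =
      if b = 0 then 0 else Real.log (1 + t ^ b.natAbs) := by
    by_cases hb : b = 0
    · subst hb
      simp
    · obtain ⟨m, hm⟩ : ∃ m, b.natAbs = m + 1 := Nat.exists_eq_succ_of_ne_zero (by omega)
      rw [if_neg hb, hm]
      have h5 : ∀ n : ℕ, (if n + 1 = m + 1 then Real.log (1 + t ^ (n + 1)) else 0) =
          if n = m then Real.log (1 + t ^ (m + 1)) else 0 := by
        intro n
        by_cases hn : n = m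
        · subst hn; simp
        · simp [hn]
      simp only [h5]
      exact tsum_ite_eq m _
  linarith

lemma log_zpow_split (b : ℤ) : ∃ α β : ℝ, ∀ t : ℝ, 0 < t →
    Real.log (1 + t ^ b) = α * Real.log t + β + if b = 0 then 0 else Real.log (1 + t ^ b.natAbs) := by
  rcases lt_trichotomy b 0 with h | h | h
  · refine ⟨b, 0, fun t ht => ?_⟩
    rw [if_neg h.ne]
    have h1 : 1 + t ^ b = t ^ b * (1 + t ^ b.natAbs) := by
      have h2 : (t ^ b.natAbs : ℝ) = t ^ (-b) := by
        rw [← zpow_natCast]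
        congr 1
        omega
      rw [h2, mul_add, ← zpow_add₀ ht.ne']
      simp
      ring
    rw [h1, Real.log_mul (by positivity) (by positivity), Real.log_zpow]
    ring
  · subst h
    exact ⟨0, Real.log (1 + 1), fun t ht => by simp⟩
  · refine ⟨0, 0, fun t ht => ?_⟩
    rw [if_neg h.ne']
    have h2 : (t ^ b.natAbs : ℝ) = t ^ b := by
      rw [← zpow_natCast]
      congr 1
      omega
    rw [h2]
    ring

lemma Rep_down {M : ℕ} (hM : 0 < M) {b : ℤ} (h : Rep M (b + M)) : Rep M b := by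
  obtain ⟨α, β, h⟩ := h
  obtain ⟨α', β', h'⟩ := log_zpow_split b
  refine ⟨α + α', β + β', fun t h0 h1 => ?_⟩
  rw [Phi_shift hM b h0 h1, h t h0 h1, h' t h0, tsum_AA_shift hM b h0 h1]
  ring

lemma Rep_up {M : ℕ} (hM : 0 < M) {b : ℤ} (h : Rep M b) : Rep M (b + M) := by
  obtain ⟨α, β, h⟩ := h
  obtain ⟨α', β', h'⟩ := log_zpow_split b
  refine ⟨α - α', β - β', fun t h0 h1 => ?_⟩
  have e1 := Phi_shift hM b h0 h1
  have e2 := h t h0 h1
  have e3 := h' t h0
  have e4 := tsum_AA_shift hM b h0 h1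
  linarith

lemma Rep_base {M : ℕ} (hM : 0 < M) {b : ℤ} (hb1 : 1 ≤ b) (hb2 : b ≤ M) : Rep M b := by
  refine ⟨0, 0, fun t h0 h1 => ?_⟩
  have hMz : (0 : ℤ) < M := by exact_mod_cast hM
  rw [zero_mul, zero_add, zero_add]
  obtain ⟨c, rfl⟩ : ∃ c : ℕ, b = c + 1 := ⟨(b - 1).toNat, by omega⟩
  have hinj : Function.Injective fun k : ℕ => M * k + c := by
    intro k l hkl
    simp only at hkl
    exact Nat.eq_of_mul_eq_mul_left hM (by omega)
  have hval : ∀ n : ℕ, AA M (c + 1) n = if (M : ℤ) ∣ (n : ℤ) - c ∧ (c : ℤ) ≤ n then 1 else 0 := by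
    intro n
    unfold AA uu
    have h2 : ¬ ((c : ℤ) + 1 ≤ -((n : ℤ) + 1)) := by omega
    have h3 : (n : ℤ) + 1 - (c + 1) = n - c := by ring
    have h4 : ((c : ℤ) + 1 ≤ (n : ℤ) + 1) ↔ (c : ℤ) ≤ n := by omega
    simp only [h2, and_false, if_false, add_zero, h3, h4]
  have hsupp : Function.support (fun n : ℕ => AA M (c + 1) n * Real.log (1 + t ^ (n + 1))) ⊆
      Set.range fun k : ℕ => M * k + c := by
    intro n hn
    rw [Function.mem_support, hval] at hn
    by_cases h2 : (M : ℤ) ∣ (n : ℤ) - c ∧ (c : ℤ) ≤ n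
    · obtain ⟨⟨k, hk⟩, h3⟩ := h2
      have hk0 : 0 ≤ k := by
        by_contra hcon
        push Not at hcon
        have : (M : ℤ) * k < 0 := mul_neg_of_pos_of_neg hMz hcon
        omega
      refine ⟨k.toNat, ?_⟩
      simp only
      have : ((M * k.toNat + c : ℕ) : ℤ) = n := by
        push_cast
        rw [Int.toNat_of_nonneg hk0]
        omega
      exact_mod_cast this
    · rw [if_neg h2, zero_mul] at hn
      exact absurd rfl hn
  rw [← hinj.tsum_eq hsupp]
  unfold Phi
  apply tsum_congr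
  intro k
  have h2 : (M : ℤ) ∣ ((M * k + c : ℕ) : ℤ) - c ∧ (c : ℤ) ≤ ((M * k + c : ℕ) : ℤ) := by
    constructor
    · push_cast
      exact ⟨k, by ring⟩
    · push_cast
      have : (0 : ℤ) ≤ (M : ℤ) * k := by positivity
      omega
  rw [hval, if_pos h2, one_mul]
  congr 2

lemma Rep_all {M : ℕ} (hM : 0 < M) (b : ℤ) : Rep M b := by
  have hMz : (0 : ℤ) < M := by exact_mod_cast hM
  have key : ∀ j : ℤ, ∀ b₀ : ℤ, Rep M b₀ → Rep M (b₀ + M * j) := by
    intro j b₀ h
    induction j using Int.induction_on with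
    | zero => simpa using h
    | succ n ih =>
      have := Rep_up hM ih
      have h2 : b₀ + (M : ℤ) * (n : ℤ) + M = b₀ + M * ((n : ℤ) + 1) := by ring
      rwa [h2] at this
    | pred n ih =>
      apply Rep_down hM
      have h2 : b₀ + (M : ℤ) * (-(n : ℤ) - 1) + M = b₀ + M * (-(n : ℤ)) := by ring
      rwa [h2]
  have h1 : b = ((b - 1) % M + 1) + M * ((b - 1) / M) := by
    have := Int.emod_add_mul_ediv (b - 1) M
    linarith
  rw [h1]
  apply key
  apply Rep_base hM
  · have := Int.emod_nonneg (b - 1) hMz.ne'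
    omega
  · have := Int.emod_lt_of_pos (b - 1) hMz
    omega

/-- The combinatorial conclusion. -/
theorem count_eq {M r : ℕ} (hM : 0 < M) (b : Fin r → ℤ) (e κ : ℝ)
    (h : ∀ t : ℝ, 0 < t → t < 1 →
      e * Real.log t + ∑ i, (Phi M (b i) t - Phi M (M - b i) t) = κ)
    (N : ℤ) (hN0 : N ≠ 0) (hNM : N ≠ M) :
    (Finset.univ.filter fun i => b i = N).card = (Finset.univ.filter fun i => b i = M - N).card := by
  have hMz : (0 : ℤ) < M := by exact_mod_cast hM
  choose α β hrep using fun b => Rep_all hM b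
  -- total coefficients
  set A : ℕ → ℝ := fun n => ∑ i, (AA M (b i) n - AA M (M - b i) n) with hA
  have hAb : ∀ n, |A n| ≤ 4 * r := by
    intro n
    calc |A n| ≤ ∑ i : Fin r, |AA M (b i) n - AA M (M - b i) n| := abs_sum_le_sum_abs _ _
      _ ≤ ∑ i : Fin r, (4 : ℝ) := by
          apply sum_le_sum
          intro i _
          refine (abs_sub _ _).trans ?_
          linarith [abs_AA_le M (b i) n, abs_AA_le M (M - b i) n]
      _ = 4 * r := by simp; ring
  have hzero : ∀ n, A n = 0 := by
    apply coeff_eq_zero' (α := e + ∑ i, (α (b i) - α (M - b i)))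
      (β := ∑ i, (β (b i) - β (M - b i)) - κ) hAb
    intro t h0 h1
    have h2 : ∑' n, A n * Real.log (1 + t ^ (n + 1)) =
        ∑ i, (∑' n, AA M (b i) n * Real.log (1 + t ^ (n + 1)) -
          ∑' n, AA M (M - b i) n * Real.log (1 + t ^ (n + 1))) := by
      have h3 : ∀ i : Fin r, ∑' n, AA M (b i) n * Real.log (1 + t ^ (n + 1)) -
          ∑' n, AA M (M - b i) n * Real.log (1 + t ^ (n + 1)) =
          ∑' n, (AA M (b i) n - AA M (M - b i) n) * Real.log (1 + t ^ (n + 1)) := by
        intro i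
        rw [← (summable_coeff_log (abs_AA_le M (b i)) h0 h1).tsum_sub
          (summable_coeff_log (abs_AA_le M (M - b i)) h0 h1)]
        apply tsum_congr
        intro n
        ring
      simp only [h3]
      rw [← Summable.tsum_finsetSum]
      · apply tsum_congr
        intro n
        simp only [hA]
        rw [sum_mul]
      · intro i _
        have := (summable_coeff_log (abs_AA_le M (b i)) h0 h1).sub
          (summable_coeff_log (abs_AA_le M (M - b i)) h0 h1)
        refine this.congr fun n => ?_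
        ring
    rw [h2]
    have h4 := h t h0 h1
    have h5 : ∀ i : Fin r, Phi M (b i) t - Phi M (M - b i) t =
        (α (b i) - α (M - b i)) * Real.log t + (β (b i) - β (M - b i)) +
        (∑' n, AA M (b i) n * Real.log (1 + t ^ (n + 1)) -
          ∑' n, AA M (M - b i) n * Real.log (1 + t ^ (n + 1))) := by
      intro i
      rw [hrep (b i) t h0 h1, hrep (M - b i) t h0 h1]
      ring
    simp only [h5, sum_add_distrib, ← sum_mul] at h4
    linarith
  -- the function S
  set S : ℤ → ℝ := fun N => ∑ i, (2 * uu M N (b i) - ww M N (b i)) with hS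
  have hSsum : ∀ N : ℤ, 1 ≤ N → S N + S (-N) = 0 := by
    intro N hN
    obtain ⟨n, rfl⟩ : ∃ n : ℕ, N = n + 1 := ⟨(N - 1).toNat, by omega⟩
    rw [← hzero n]
    simp only [hS, hA, ← sum_add_distrib]
    apply sum_congr rfl
    intro i _
    unfold AA
    rw [uu_reflect hM, uu_reflect hM, neg_neg]
    ring
  have hSdiff : ∀ N : ℤ, S N - S (N - M) =
      2 * ((Finset.univ.filter fun i => b i = N).card : ℝ) := by
    intro N
    simp only [hS, ← sum_sub_distrib]
    have h1 : ∀ i : Fin r, 2 * uu M N (b i) - ww M N (b i) -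
        (2 * uu M (N - M) (b i) - ww M (N - M) (b i)) = 2 * (if b i = N then 1 else 0) := by
      intro i
      have h2 := uu_step hM N (b i)
      have h3 : ww M (N - M) (b i) = ww M N (b i) := by
        unfold ww
        have : (M : ℤ) ∣ N - M - b i ↔ (M : ℤ) ∣ N - b i := by
          have : N - M - b i = N - b i + (-1) * M := by ring
          rw [this]
          exact Int.dvd_add_left (Dvd.intro_left _ rfl)
        simp only [this]
      rw [h3, ← h2]
      ring
    simp only [h1]
    rw [← mul_sum, Finset.sum_boole]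
  have hpos : ∀ N : ℤ, 1 ≤ N → N ≠ M →
      ((Finset.univ.filter fun i => b i = N).card : ℝ) =
        ((Finset.univ.filter fun i => b i = M - N).card : ℝ) := by
    intro N hN hNM
    have e1 := hSdiff N
    have e2 := hSdiff (M - N)
    have h3 : (M : ℤ) - N - M = -N := by ring
    rw [h3] at e2
    have e3 := hSsum N hN
    rcases lt_or_gt_of_ne hNM with h | h
    · have e4 := hSsum (M - N) (by omega)
      have h4 : -((M : ℤ) - N) = N - M := by ring
      rw [h4] at e4
      linarith
    · have e4 := hSsum (N - M) (by omega)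
      have h4 : -(N - (M : ℤ)) = M - N := by ring
      rw [h4] at e4
      linarith
  rcases lt_or_gt_of_ne hN0 with h1 | h1
  · have h2 := hpos (M - N) (by omega) (by omega)
    have h3 : (M : ℤ) - (M - N) = N := by ring
    rw [h3] at h2
    exact_mod_cast h2.symm
  · exact_mod_cast hpos N (by omega) hNM

end Pool.Agent.Lib.MP_8ce23f_nt
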