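import Mathlib
import Pool.Agent.Lib.MP_8ce23f_nt.Core
import Pool.Agent.Lib.MP_8ce23f_nt.Leading

/-!
# Growth along vertical lines ending at rational points
-/

open Filter Topology Finset Complex
open scoped Real MatrixGroups Manifold
open UpperHalfPlane hiding I

namespace Pool.Agent.Lib.MP_8ce23f_nt

/-- Polynomial growth along all vertical lines ending at rational points. -/
def PB (f : ℍ → ℂ) : Prop := ∀ (p : ℤ) (c : ℕ), 0 < c → ∃ C : ℝ, ∃ K : ℕ, 0 ≤ C ∧
  ∀ (t : ℝ) (ht : 0 < t), t ≤ 1 → ‖f (pt (p / c) t ht)‖ ≤ C * (1 / t) ^ K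

lemma PB.mul {f g : ℍ → ℂ} (hf : PB f) (hg : PB g) : PB (fun τ => f τ * g τ) := by
  intro p c hc
  obtain ⟨C, K, hC, h⟩ := hf p c hc
  obtain ⟨C', K', hC', h'⟩ := hg p c hc
  refine ⟨C * C', K + K', mul_nonneg hC hC', fun t ht ht1 => ?_⟩
  rw [norm_mul, pow_add]
  have h1 := h t ht ht1
  have h2 := h' t ht ht1
  calc ‖f (pt (p / c) t ht)‖ * ‖g (pt (p / c) t ht)‖
      ≤ (C * (1 / t) ^ K) * (C' * (1 / t) ^ K') :=
        mul_le_mul h1 h2 (norm_nonneg _) (by positivity)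
    _ = _ := by ring

lemma PB.const (a : ℂ) : PB (fun _ => a) := fun p c _ =>
  ⟨‖a‖, 0, norm_nonneg _, fun t ht _ => by simp⟩

lemma PB.prod {ι : Type*} (s : Finset ι) {f : ι → ℍ → ℂ} (h : ∀ i ∈ s, PB (f i)) :
    PB (fun τ => ∏ i ∈ s, f i τ) := by
  classical
  induction s using Finset.induction_on with
  | empty => simpa using PB.const 1
  | insert a s ha ih =>
    simp only [Finset.prod_insert ha]
    exact (h a (by simp)).mul (ih fun i hi => h i (by simp [hi]))

lemma qr_pt (x X t : ℝ) (ht : 0 < t) :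
    qr x (pt X t ht) = cexp (2 * π * I * (x * X)) * (Real.exp (-(2 * π * x * t)) : ℝ) := by
  rw [qr, coe_pt, Complex.ofReal_exp, ← Complex.exp_add]
  congr 1
  push_cast
  linear_combination (2 * π * x * t : ℂ) * I_sq

lemma norm_phase (x : ℝ) : ‖cexp (2 * π * I * (x : ℂ))‖ = 1 := by
  have : (2 * π * I * (x : ℂ)) = ((2 * π * x : ℝ) : ℂ) * I := by push_cast; ring
  rw [this, Complex.norm_exp_ofReal_mul_I]

lemma PB_qr (x : ℝ) : PB (qr x) := by
  intro p c hc
  refine ⟨Real.exp (2 * π * |x|), 0, (Real.exp_pos _).le, fun t ht ht1 => ?_⟩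
  rw [norm_qr, pt_im, pow_zero, mul_one]
  apply Real.exp_le_exp.mpr
  have h1 : -x ≤ |x| := neg_le_abs x
  have h2 : 0 ≤ |x| := abs_nonneg x
  have h3 : -x * t ≤ |x| := by nlinarith
  have := Real.pi_pos
  nlinarith

lemma PB_one_add_qr (x : ℝ) : PB (fun τ => 1 + qr x τ) := by
  intro p c hc
  obtain ⟨C, K, hC, h⟩ := PB_qr x p c hc
  refine ⟨1 + C, K, by positivity, fun t ht ht1 => ?_⟩
  have h1 := h t ht ht1
  have h2 : (1 : ℝ) ≤ (1 / t) ^ K := one_le_pow₀ (by rw [le_div_iff₀ ht]; linarith)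
  calc ‖1 + qr x (pt (p / c) t ht)‖ ≤ ‖(1 : ℂ)‖ + ‖qr x (pt (p / c) t ht)‖ := norm_add_le _ _
    _ ≤ 1 * (1 / t) ^ K + C * (1 / t) ^ K := by
        rw [norm_one]; linarith
    _ = _ := by ring

lemma PB_inv_one_add_qr_pos {x : ℝ} (hx : 0 < x) : PB (fun τ => (1 + qr x τ)⁻¹) := by
  intro p c hc
  have hπ := Real.pi_pos
  set ζ : ℂ := cexp (2 * π * I * ((x * (p / c) : ℝ) : ℂ)) with hζdef
  have hζ : ‖ζ‖ = 1 := norm_phase _
  have hq : ∀ t (ht : 0 < t), qr x (pt (p / c) t ht) = ζ * (Real.exp (-(2 * π * x * t)) : ℝ) := by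
    intro t ht
    rw [qr_pt, hζdef]
    push_cast
    ring_nf
  by_cases hne : ζ = -1
  · refine ⟨1 + 1 / (2 * π * x), 1, by positivity, fun t ht ht1 => ?_⟩
    have hle1 : Real.exp (-(2 * π * x * t)) ≤ 1 := by
      rw [Real.exp_le_one_iff]
      have : 0 ≤ 2 * π * x * t := by positivity
      linarith
    rw [norm_inv, hq, hne, norm_one_sub_of_mem hle1, pow_one]
    have hy : 0 < 2 * π * x * t := by positivity
    have h2 : Real.exp (-(2 * π * x * t)) ≤ 1 / (1 + 2 * π * x * t) := by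
      rw [Real.exp_neg, ← one_div]
      apply one_div_le_one_div_of_le (by linarith)
      linarith [Real.add_one_le_exp (2 * π * x * t)]
    have h3 : 2 * π * x * t / (1 + 2 * π * x * t) ≤ 1 - Real.exp (-(2 * π * x * t)) := by
      have : 2 * π * x * t / (1 + 2 * π * x * t) = 1 - 1 / (1 + 2 * π * x * t) := by
        field_simp
        ring
      linarith
    have h4 : (1 - Real.exp (-(2 * π * x * t)))⁻¹ ≤ (2 * π * x * t / (1 + 2 * π * x * t))⁻¹ :=
      inv_anti₀ (by positivity) h3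
    refine h4.trans ?_
    rw [inv_div, add_div, div_self hy.ne']
    have h5 : 1 ≤ 1 / t := by rw [le_div_iff₀ ht]; linarith
    have h6 : 1 / (2 * π * x * t) = 1 / (2 * π * x) * (1 / t) := by field_simp
    rw [h6]
    nlinarith
  · obtain ⟨δ, hδ, hlow⟩ := exists_lower_segment hζ hne
    refine ⟨δ⁻¹, 0, by positivity, fun t ht ht1 => ?_⟩
    rw [norm_inv, hq, pow_zero, mul_one]
    apply inv_anti₀ hδ
    apply hlow _ (Real.exp_pos _).le
    rw [Real.exp_le_one_iff]
    have : 0 ≤ 2 * π * x * t := by positivity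
    linarith

lemma PB_inv_one_add_qr (x : ℝ) : PB (fun τ => (1 + qr x τ)⁻¹) := by
  rcases lt_trichotomy x 0 with h | h | h
  · have h1 := (PB_qr (-x)).mul (PB_inv_one_add_qr_pos (x := -x) (by linarith))
    have h2 : (fun τ => qr (-x) τ * (1 + qr (-x) τ)⁻¹) = fun τ => (1 + qr x τ)⁻¹ := by
      funext τ
      rw [qr_neg]
      have h3 := qr_ne_zero x τ
      have h4 := one_add_qr_ne_zero x τ
      have h5 : 1 + (qr x τ)⁻¹ ≠ 0 := by
        rw [← qr_neg]; exact one_add_qr_ne_zero _ _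
      have h6 : qr x τ + 1 ≠ 0 := by rwa [add_comm]
      field_simp
      ring
    rwa [h2] at h1
  · subst h
    simpa [qr_zero] using PB.const (1 + 1)⁻¹
  · exact PB_inv_one_add_qr_pos h

/-- The ratio `E x / E (-x)`. -/
noncomputable def rat (x : ℝ) (τ : ℍ) : ℂ := E x τ / E (-x) τ

lemma prod_range_block (f : ℕ → ℝ) (c M : ℕ) :
    ∏ k ∈ range (c * M), f k = ∏ m ∈ range M, ∏ j ∈ range c, f (c * m + j) := by
  induction M with
  | zero => simp
  | succ M ih => rw [Nat.mul_succ, prod_range_add, prod_range_succ, ih]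

lemma PB_rat_small {ξ : ℝ} (h1 : -(1 / 2) < ξ) (h2 : ξ < 1 / 2) : PB (rat ξ) := by
  intro p c hc
  have hπ := Real.pi_pos
  have hc' : (0 : ℝ) < c := by exact_mod_cast hc
  have hcC : (c : ℂ) ≠ 0 := by exact_mod_cast hc.ne'
  set ζ : ℕ → ℂ := fun j => cexp (2 * π * I * (((j + 1 / 2 + ξ) * (p / c) : ℝ) : ℂ)) with hζdef
  have hζ : ∀ j, ‖ζ j‖ = 1 := fun j => norm_phase _
  set σ : ℕ → ℝ := fun j => (j + 1 / 2 + ξ) / c with hσ
  have hσ0 : ∀ j, 0 < σ j := fun j => by
    have : (0 : ℝ) ≤ j := Nat.cast_nonneg j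
    simp only [hσ]
    apply div_pos _ hc'
    linarith
  have hσ1 : ∀ j, j < c → σ j < 1 := fun j hj => by
    have : (j : ℝ) + 1 ≤ c := by exact_mod_cast hj
    simp only [hσ]
    rw [div_lt_one hc']
    linarith
  -- bound for each residue class
  have hbound : ∀ j, j < c → ∃ D : ℝ, 0 ≤ D ∧ ∀ t : ℝ, 0 < t → t ≤ 1 → ∀ M : ℕ,
      ∏ m ∈ range M, ‖1 + ζ j * (Real.exp (-((2 * π * c * t) * (m + σ j))) : ℝ)‖ ≤
        (D * (1 / t)) *
          ∏ m ∈ range M, ‖1 + ζ j * (Real.exp (-((2 * π * c * t) * (m + 1 - σ j))) : ℝ)‖ := by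
    intro j hj
    by_cases hne : ζ j = -1
    · refine ⟨1 + 1 / (2 * π * c * (1 - σ j)), ?_, fun t ht ht1 M => ?_⟩
      · have := hσ1 j hj
        have : 0 < 1 - σ j := by linarith
        positivity
      · have h3 : 0 < 1 - σ j := by linarith [hσ1 j hj]
        rw [hne]
        refine (core_neg_one (2 * π * c * t) (σ j) (by positivity) (hσ0 j) (hσ1 j hj) M).trans ?_
        apply mul_le_mul_of_nonneg_right _ (prod_nonneg fun _ _ => norm_nonneg _)
        have h5 : 1 ≤ 1 / t := by rw [le_div_iff₀ ht]; linarith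
        have h6 : 1 / (2 * π * c * t * (1 - σ j)) = 1 / (2 * π * c * (1 - σ j)) * (1 / t) := by
          field_simp
        rw [h6]
        have : 0 < 1 / (2 * π * c * (1 - σ j)) := by positivity
        nlinarith
    · obtain ⟨C, hC, hCb⟩ := core_generic (hζ j) hne
      refine ⟨C, hC.le, fun t ht ht1 M => ?_⟩
      refine (hCb (2 * π * c * t) (σ j) (by positivity) (hσ0 j) (hσ1 j hj) M).trans ?_
      apply mul_le_mul_of_nonneg_right _ (prod_nonneg fun _ _ => norm_nonneg _)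
      have h5 : 1 ≤ 1 / t := by rw [le_div_iff₀ ht]; linarith
      nlinarith
  choose! D hD0 hD using hbound
  refine ⟨∏ j ∈ range c, D j, c, prod_nonneg fun j hj => hD0 j (mem_range.mp hj),
    fun t ht ht1 => ?_⟩
  set τ := pt (p / c) t ht with hτ
  -- the factors of the two products
  have hfac1 : ∀ m j : ℕ, ‖1 + qr (((c * m + j : ℕ) : ℝ) + 1 / 2 + ξ) τ‖ =
      ‖1 + ζ j * (Real.exp (-((2 * π * c * t) * (m + σ j))) : ℝ)‖ := by
    intro m j
    rw [hτ, qr_pt]
    congr 3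
    · rw [hζdef]
      simp only
      have := Complex.exp_int_mul_two_pi_mul_I (m * p : ℤ)
      rw [← mul_one (cexp (2 * π * I * (((j + 1 / 2 + ξ) * (p / c) : ℝ) : ℂ))), ← this,
        ← Complex.exp_add]
      congr 1
      push_cast
      field_simp
      ring
    · congr 1
      simp only [hσ]
      push_cast
      field_simp
      ring_nf
  have hfac2 : ∀ m j : ℕ, j < c → ‖1 + qr (((c * m + (c - 1 - j) : ℕ) : ℝ) + 1 / 2 + -ξ) τ‖ =
      ‖1 + ζ j * (Real.exp (-((2 * π * c * t) * (m + 1 - σ j))) : ℝ)‖ := by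
    intro m j hj
    have hcast : ((c * m + (c - 1 - j) : ℕ) : ℝ) = c * m + (c - 1 - j) := by
      have : c - 1 - j = c - (1 + j) := by omega
      rw [this]
      push_cast [Nat.cast_sub (by omega : 1 + j ≤ c)]
      ring
    rw [hτ, qr_pt, hcast]
    have hconj : ∀ z : ℂ, ‖1 + z‖ = ‖1 + (starRingEnd ℂ) z‖ := by
      intro z
      rw [← Complex.norm_conj (1 + z)]
      simp
    rw [hconj]
    congr 2
    rw [map_mul, Complex.conj_ofReal, ← Complex.exp_conj]
    congr 1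
    · rw [hζdef]
      simp only
      have := Complex.exp_int_mul_two_pi_mul_I (-((m + 1) * p) : ℤ)
      rw [← mul_one (cexp (2 * π * I * (((j + 1 / 2 + ξ) * (p / c) : ℝ) : ℂ))), ← this,
        ← Complex.exp_add]
      congr 1
      simp only [map_mul, map_ofNat, Complex.conj_ofReal, Complex.conj_I]
      push_cast
      field_simp
      ring
    · congr 2
      simp only [hσ]
      field_simp
      ring
  have hpart : ∀ M : ℕ, ∏ k ∈ range (c * M), ‖1 + qr ((k : ℝ) + 1 / 2 + ξ) τ‖ ≤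
      ((∏ j ∈ range c, D j) * (1 / t) ^ c) *
        ∏ k ∈ range (c * M), ‖1 + qr ((k : ℝ) + 1 / 2 + -ξ) τ‖ := by
    intro M
    rw [prod_range_block (fun k => ‖1 + qr ((k : ℝ) + 1 / 2 + ξ) τ‖),
      prod_range_block (fun k => ‖1 + qr ((k : ℝ) + 1 / 2 + -ξ) τ‖)]
    have hr : ∀ m, ∏ j ∈ range c, ‖1 + qr (((c * m + j : ℕ) : ℝ) + 1 / 2 + -ξ) τ‖ =
        ∏ j ∈ range c, ‖1 + ζ j * (Real.exp (-((2 * π * c * t) * (m + 1 - σ j))) : ℝ)‖ := by
      intro m
      rw [← prod_range_reflect]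
      apply prod_congr rfl
      intro j hj
      exact hfac2 m j (mem_range.mp hj)
    simp only [hr, hfac1]
    rw [Finset.prod_comm, Finset.prod_comm (s := range M)]
    have h3 : (∏ j ∈ range c, D j) * (1 / t) ^ c = ∏ j ∈ range c, (D j * (1 / t)) := by
      rw [prod_mul_distrib, prod_const, card_range]
    rw [h3, ← prod_mul_distrib]
    apply Finset.prod_le_prod
    · intro j _
      exact prod_nonneg fun _ _ => norm_nonneg _
    · intro j hj
      exact hD j (mem_range.mp hj) t ht ht1 M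
  have hlim : ∀ x : ℝ, Tendsto (fun M : ℕ => ∏ k ∈ range (c * M), ‖1 + qr ((k : ℝ) + 1 / 2 + x) τ‖)
      atTop (𝓝 ‖E x τ‖) := by
    intro x
    have h3 : Tendsto (fun n : ℕ => ∏ k ∈ range n, (1 + qr (x + 1 / 2) τ * qr 1 τ ^ k)) atTop
        (𝓝 (E x τ)) := (multipliable_E x τ).hasProd.tendsto_prod_nat
    have h4 : Tendsto (fun M : ℕ => c * M) atTop atTop :=
      tendsto_id.const_mul_atTop' hc
    have h5 := (h3.comp h4).norm
    refine h5.congr fun M => ?_
    simp only [Function.comp, qr_term, norm_prod]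
  have hfinal : ‖E ξ τ‖ ≤ ((∏ j ∈ range c, D j) * (1 / t) ^ c) * ‖E (-ξ) τ‖ :=
    le_of_tendsto_of_tendsto' (hlim ξ) ((hlim (-ξ)).const_mul _) hpart
  rw [rat, norm_div, div_le_iff₀ (norm_pos_iff.mpr (E_ne_zero _ _))]
  exact hfinal

end Pool.Agent.Lib.MP_8ce23f_nt
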