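import Mathlib
import Pool.Agent.Lib.MP_8ce23f_nt.Vertical
import Pool.Agent.Lib.MP_8ce23f_nt.GoodTheta

/-!
# Modular units of polynomial growth at all rational points are constant
-/

open Filter Topology Finset Complex
open scoped Real MatrixGroups Manifold ModularForm
open UpperHalfPlane hiding I

namespace Pool.Agent.Lib.MP_8ce23f_nt

lemma rat_shift (x : ℝ) (τ : ℍ) :
    rat (x + 1) τ = rat x τ * ((1 + qr (1 / 2 + x) τ)⁻¹ * (1 + qr (-(1 / 2 + x)) τ)⁻¹) := by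
  have h1 := E_shift x τ
  have h2 := E_shift (-(x + 1)) τ
  have h3 : (1 / 2 + -(x + 1)) = -(1 / 2 + x) := by ring
  have h4 : -(x + 1) + 1 = -x := by ring
  rw [h3, h4] at h2
  unfold rat
  rw [h1, h2]
  have e1 := one_add_qr_ne_zero (1 / 2 + x) τ
  have e2 := one_add_qr_ne_zero (-(1 / 2 + x)) τ
  have e3 := E_ne_zero (-x) τ
  generalize 1 + qr (1 / 2 + x) τ = a at *
  generalize 1 + qr (-(1 / 2 + x)) τ = b at *
  field_simp

lemma rat_ne_zero (x : ℝ) (τ : ℍ) : rat x τ ≠ 0 := div_ne_zero (E_ne_zero _ _) (E_ne_zero _ _)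

lemma PB_rat_step (x : ℝ) (h : PB (rat x)) : PB (rat (x + 1)) := by
  have h1 := h.mul ((PB_inv_one_add_qr (1 / 2 + x)).mul (PB_inv_one_add_qr (-(1 / 2 + x))))
  have h2 : rat (x + 1) = fun τ => rat x τ * ((1 + qr (1 / 2 + x) τ)⁻¹ *
      (1 + qr (-(1 / 2 + x)) τ)⁻¹) := by
    funext τ
    exact rat_shift x τ
  rw [h2]
  exact h1

lemma PB_rat_step' (x : ℝ) (h : PB (rat (x + 1))) : PB (rat x) := by
  have h1 := h.mul ((PB_one_add_qr (1 / 2 + x)).mul (PB_one_add_qr (-(1 / 2 + x))))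
  have h2 : rat x = fun τ => rat (x + 1) τ * ((1 + qr (1 / 2 + x) τ) *
      (1 + qr (-(1 / 2 + x)) τ)) := by
    funext τ
    rw [rat_shift x τ]
    have e1 := one_add_qr_ne_zero (1 / 2 + x) τ
    have e2 := one_add_qr_ne_zero (-(1 / 2 + x)) τ
    generalize 1 + qr (1 / 2 + x) τ = a at *
    generalize 1 + qr (-(1 / 2 + x)) τ = b at *
    field_simp
  rw [h2]
  exact h1

lemma PB_rat_half : PB (rat (-(1 / 2))) := by
  have h : rat (-(1 / 2)) = fun _ => 2 := by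
    funext τ
    unfold rat
    have h1 := E_shift (-(1 / 2)) τ
    have h2 : (1 / 2 + -(1 / 2) : ℝ) = 0 := by ring
    have h3 : (-(1 / 2) + 1 : ℝ) = 1 / 2 := by ring
    rw [h2, h3, qr_zero] at h1
    rw [h1, neg_neg]
    have := E_ne_zero (1 / 2) τ
    field_simp
    norm_num
  rw [h]
  exact PB.const 2

lemma PB_rat (x : ℝ) : PB (rat x) := by
  have key : ∀ n : ℤ, ∀ ξ : ℝ, PB (rat ξ) → PB (rat (ξ + n)) := by
    intro n ξ hξ
    induction n using Int.induction_on with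
    | zero => simpa using hξ
    | succ n ih =>
      have := PB_rat_step _ ih
      have h2 : ξ + ((n : ℤ) : ℝ) + 1 = ξ + (((n : ℤ) + 1 : ℤ) : ℝ) := by push_cast; ring
      rwa [h2] at this
    | pred n ih =>
      apply PB_rat_step'
      have h2 : ξ + ((-(n : ℤ) - 1 : ℤ) : ℝ) + 1 = ξ + ((-(n : ℤ) : ℤ) : ℝ) := by push_cast; ring
      rwa [h2]
  set n : ℤ := ⌊x + 1 / 2⌋ with hn
  have h1 : (n : ℝ) ≤ x + 1 / 2 := Int.floor_le _
  have h2 : x + 1 / 2 < n + 1 := Int.lt_floor_add_one _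
  have h3 : x = (x - n) + n := by ring
  rw [h3]
  apply key
  rcases eq_or_lt_of_le (show -(1 / 2) ≤ x - n by linarith) with h4 | h4
  · rw [← h4]
    exact PB_rat_half
  · exact PB_rat_small h4 (by linarith)

/-- Action of a matrix on the vertical line over `-d/c`. -/
lemma smul_pt (γ : SL(2, ℤ)) (hc : γ 1 0 ≠ 0) (y : ℝ) (hy : 0 < y) :
    γ • pt (-(γ 1 1 : ℝ) / (γ 1 0 : ℝ)) y hy =
      pt (((γ 0 0 * (γ 1 0).sign : ℤ) : ℝ) / ((γ 1 0).natAbs : ℝ)) (1 / ((γ 1 0 : ℝ) ^ 2 * y))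
        (by
          have : (γ 1 0 : ℝ) ≠ 0 := by exact_mod_cast hc
          positivity) := by
  have hcR : (γ 1 0 : ℝ) ≠ 0 := by exact_mod_cast hc
  have hcC : (γ 1 0 : ℂ) ≠ 0 := by exact_mod_cast hc
  have hyC : (y : ℂ) ≠ 0 := by exact_mod_cast hy.ne'
  have hdet : (γ 0 0 : ℂ) * γ 1 1 - γ 0 1 * γ 1 0 = 1 := by
    have := γ.det_coe
    rw [Matrix.det_fin_two] at this
    exact_mod_cast this
  have hfrac : (((γ 0 0 * (γ 1 0).sign : ℤ) : ℝ) / ((γ 1 0).natAbs : ℝ)) =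
      (γ 0 0 : ℝ) / (γ 1 0 : ℝ) := by
    have h1 : (((γ 1 0).natAbs : ℕ) : ℝ) = ((γ 1 0).sign : ℝ) * (γ 1 0 : ℝ) := by
      have h2 : (((γ 1 0).natAbs : ℕ) : ℤ) = (γ 1 0).sign * γ 1 0 := by
        rw [Int.sign_mul_self_eq_abs, Int.natCast_natAbs]
      have h3 : ((((γ 1 0).natAbs : ℕ) : ℤ) : ℝ) = (((γ 1 0).sign * γ 1 0 : ℤ) : ℝ) := by rw [h2]
      rw [Int.cast_natCast] at h3
      rw [h3]
      push_cast
      ring
    have h4 : ((γ 1 0).sign : ℝ) ≠ 0 := by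
      have : (γ 1 0).sign ≠ 0 := by rwa [Ne, Int.sign_eq_zero_iff_zero]
      exact_mod_cast this
    rw [h1]
    push_cast
    field_simp
  apply UpperHalfPlane.ext
  rw [UpperHalfPlane.coe_specialLinearGroup_apply, coe_pt, coe_pt, hfrac]
  simp only [algebraMap_int_eq, eq_intCast, Complex.ofReal_intCast]
  push_cast
  have hden : (γ 1 0 : ℂ) * (-(γ 1 1 : ℂ) / (γ 1 0 : ℂ) + y * I) + γ 1 1 = γ 1 0 * (y * I) := by
    field_simp
    ring
  rw [hden]
  have hI : I ≠ 0 := I_ne_zero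
  field_simp
  linear_combination (-1 : ℂ) * hdet - I_sq

/-- An element of a finite index subgroup with prescribed lower left entries. -/
lemma exists_lower_ne_zero {f : ℍ → ℂ} (h : (orb f).Finite) (γ : SL(2, ℤ)) :
    ∃ γ' : SL(2, ℤ), γ' 1 0 ≠ 0 ∧ ∀ τ : ℍ, f (γ' • τ) = f (γ • τ) := by
  by_cases hc : γ 1 0 = 0
  · obtain ⟨Γ, hΓ, hinv⟩ := (orb_finite_iff f).mp h
    set U : SL(2, ℤ) := ModularGroup.S * ModularGroup.T * ModularGroup.S⁻¹ with hU
    obtain ⟨N, hN, -, hmem⟩ := Subgroup.exists_pow_mem_of_index_ne_zero hΓ.index_ne_zero U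
    refine ⟨U ^ N * γ, ?_, fun τ => ?_⟩
    · have hpow : U ^ N = ModularGroup.S * ModularGroup.T ^ N * ModularGroup.S⁻¹ := by
        rw [hU, conj_pow]
      have hT : ((ModularGroup.T ^ N : SL(2, ℤ)) : Matrix (Fin 2) (Fin 2) ℤ) = !![1, (N : ℤ); 0, 1] := by
        have := ModularGroup.coe_T_zpow (N : ℤ)
        rw [zpow_natCast] at this
        exact this
      have hUN : ((U ^ N : SL(2, ℤ)) : Matrix (Fin 2) (Fin 2) ℤ) = !![1, 0; -(N : ℤ), 1] := by
        rw [hpow, Matrix.SpecialLinearGroup.coe_mul, Matrix.SpecialLinearGroup.coe_mul, hT,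
          ModularGroup.coe_S, Matrix.SpecialLinearGroup.coe_inv, ModularGroup.coe_S,
          Matrix.adjugate_fin_two_of]
        ext i j
        fin_cases i <;> fin_cases j <;> simp [Matrix.mul_apply, Fin.sum_univ_two]
      have hdet : γ 0 0 * γ 1 1 = 1 := by
        have := γ.det_coe
        rw [Matrix.det_fin_two, hc] at this
        linarith
      have h1 : ((U ^ N * γ : SL(2, ℤ)) : Matrix (Fin 2) (Fin 2) ℤ) 1 0 =
          -(N : ℤ) * γ 0 0 + γ 1 0 := by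
        rw [Matrix.SpecialLinearGroup.coe_mul, hUN]
        simp [Matrix.mul_apply, Fin.sum_univ_two]
      have h2 : γ 0 0 ≠ 0 := by
        intro h0
        rw [h0] at hdet
        simp at hdet
      have h3 : ((U ^ N * γ : SL(2, ℤ)) : Matrix (Fin 2) (Fin 2) ℤ) 1 0 ≠ 0 := by
        rw [h1, hc, add_zero]
        have : (N : ℤ) ≠ 0 := by exact_mod_cast hN.ne'
        exact mul_ne_zero (neg_ne_zero.mpr this) h2
      exact h3
    · rw [mul_smul]
      exact hinv _ hmem _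
  · exact ⟨γ, hc, fun _ => rfl⟩

lemma bounded_of_PB {f : ℍ → ℂ} (hf : Good f) (hPB : PB f) (γ : SL(2, ℤ)) :
    IsBoundedAtImInfty (fun τ : ℍ => f (γ • τ)) := by
  obtain ⟨γ', hc, hγ'⟩ := exists_lower_ne_zero hf.fin γ
  have hg : Good (fun τ : ℍ => f (γ' • τ)) := hf.comp ⟨γ', rfl⟩
  obtain ⟨N, hN, hper⟩ := exists_period_of_orb_finite hg.fin
  have hb : IsBoundedAtImInfty (fun τ : ℍ => f (γ' • τ)) := by
    have hcnat : 0 < (γ' 1 0).natAbs := Int.natAbs_pos.mpr hc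
    obtain ⟨C, K, hC, hCK⟩ := hPB (γ' 0 0 * (γ' 1 0).sign) _ hcnat
    refine bounded_of_vertical hN hg.mdiff hper (hg.growth _ (mem_orb_self _)) hg.ne_zero
      (x := -(γ' 1 1 : ℝ) / (γ' 1 0 : ℝ)) (C := C * ((γ' 1 0 : ℝ) ^ 2) ^ K) (K := K) ?_
    intro y hy hy1
    have hcR : (γ' 1 0 : ℝ) ≠ 0 := by exact_mod_cast hc
    have hc2 : 1 ≤ (γ' 1 0 : ℝ) ^ 2 := by
      have h1 : (1 : ℤ) ≤ (γ' 1 0) ^ 2 := by
        have := sq_nonneg (γ' 1 0)
        have h2 : (γ' 1 0) ^ 2 ≠ 0 := pow_ne_zero _ hc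
        omega
      exact_mod_cast h1
    rw [smul_pt γ' hc y hy]
    have hle : 1 / ((γ' 1 0 : ℝ) ^ 2 * y) ≤ 1 := by
      rw [div_le_one (by positivity)]
      nlinarith
    refine (hCK _ _ hle).trans (le_of_eq ?_)
    rw [one_div_one_div, mul_pow]
    ring
  have heq : (fun τ : ℍ => f (γ • τ)) = fun τ : ℍ => f (γ' • τ) := by
    funext τ
    exact (hγ' τ).symm
  rw [heq]
  exact hb

/-- A modular unit of polynomial growth at all rational points is constant. -/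
theorem const_of_PB {f : ℍ → ℂ} (hf : Good f) (hPB : PB f) : ∃ c : ℂ, ∀ τ, f τ = c := by
  obtain ⟨Γ, hΓ, hinv⟩ := (orb_finite_iff f).mp hf.fin
  have hslash : ∀ γ : SL(2, ℤ), (f ∣[(0 : ℤ)] γ) = fun τ => f (γ • τ) := by
    intro γ
    funext τ
    rw [ModularForm.SL_slash_apply]
    simp
  let F : ModularForm (Γ.map (Matrix.SpecialLinearGroup.mapGL ℝ)) 0 :=
    { toFun := f
      slash_action_eq' := by
        rintro _ ⟨γ, hγ, rfl⟩
        have h1 := hslash γ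
        have h2 : (f ∣[(0 : ℤ)] γ) = f ∣[(0 : ℤ)] (Matrix.SpecialLinearGroup.mapGL ℝ γ : GL (Fin 2) ℝ) := rfl
        rw [← h2, h1]
        funext τ
        exact hinv γ hγ τ
      holo' := hf.mdiff
      bdd_at_cusps' := by
        intro c hc
        have hc' : IsCusp c (Matrix.SpecialLinearGroup.mapGL ℝ : SL(2, ℤ) →* GL (Fin 2) ℝ).range := by
          exact hc.mono (by rintro _ ⟨γ, -, rfl⟩; exact ⟨γ, rfl⟩)
        rw [OnePoint.isBoundedAt_iff_forall_SL2Z hc']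
        intro γ _
        rw [hslash]
        exact bounded_of_PB hf hPB γ }
  obtain ⟨c, hc⟩ := ModularForm.eq_const_of_weight_zero F
  exact ⟨c, fun τ => congrFun hc τ⟩

end Pool.Agent.Lib.MP_8ce23f_nt
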