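import Mathlib
import Pool.Agent.Lib.MP_8ce23f_nt.Defs
import Pool.Agent.Lib.MP_8ce23f_nt.RatConst
import Pool.Agent.Lib.MP_8ce23f_nt.Phi

/-!
# Nahm sums of the identity matrix
-/

open Filter Topology Finset Complex
open scoped Real MatrixGroups Manifold
open UpperHalfPlane hiding I

namespace Pool.Agent.Lib.MP_8ce23f_nt

lemma qPow_eq (x : ℚ) (τ : ℍ) : qPow x τ = qr (x : ℝ) τ := by
  simp [qPow, qr]

lemma qFac_eq (m : ℕ) (τ : ℍ) : qFac m τ = poch (qr 1 τ) m := by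
  unfold qFac poch
  apply prod_congr rfl
  intro j _
  rw [qPow_eq, ← qr_nat]
  push_cast
  rfl

/-- Sums over `Fin r → ℕ` of products. -/
lemma summable_tsum_pi : ∀ {r : ℕ} (f : Fin r → ℕ → ℂ), (∀ i, Summable fun k => ‖f i k‖) →
    (Summable fun n : Fin r → ℕ => ‖∏ i, f i (n i)‖) ∧
      ∑' n : Fin r → ℕ, ∏ i, f i (n i) = ∏ i, ∑' k, f i k := by
  intro r
  induction r with
  | zero =>
    intro f _
    constructor
    · exact (hasSum_unique _).summable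
    · rw [(hasSum_unique (fun n : Fin 0 → ℕ => ∏ i, f i (n i))).tsum_eq]
      simp
  | succ r ih =>
    intro f hf
    obtain ⟨h1, h2⟩ := ih (fun i => f i.succ) (fun i => hf i.succ)
    have e : ∀ p : ℕ × (Fin r → ℕ), ∏ i, f i ((Fin.consEquiv (fun _ : Fin (r + 1) => ℕ) p) i) =
        f 0 p.1 * ∏ i : Fin r, f i.succ (p.2 i) := by
      intro p
      rw [Fin.prod_univ_succ]
      rfl
    have key : ∀ g : (Fin r → ℕ) → ℂ, (Summable fun n => ‖g n‖) →
        (Summable fun p : ℕ × (Fin r → ℕ) => ‖f 0 p.1 * g p.2‖) ∧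
        ∑' p : ℕ × (Fin r → ℕ), f 0 p.1 * g p.2 = (∑' k, f 0 k) * ∑' n, g n := by
      intro g hg
      exact ⟨(hf 0).mul_norm hg, (tsum_mul_tsum_of_summable_norm (hf 0) hg).symm⟩
    obtain ⟨h3, h4⟩ := key _ h1
    constructor
    · rw [← (Fin.consEquiv (fun _ : Fin (r + 1) => ℕ)).summable_iff]
      refine h3.congr fun p => ?_
      rw [← e p]
      rfl
    · rw [← (Fin.consEquiv (fun _ : Fin (r + 1) => ℕ)).tsum_eq, Fin.prod_univ_succ, ← h2, ← h4]
      exact tsum_congr fun p => e p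

lemma nahmExp_one {r : ℕ} (B : Fin r → ℚ) (C : ℚ) (n : Fin r → ℕ) :
    nahmExp (1 : Matrix (Fin r) (Fin r) ℚ) B C n =
      C + ∑ i, ((n i : ℚ) ^ 2 / 2 + B i * (n i : ℚ)) := by
  unfold nahmExp
  have h1 : ∀ i, ∑ j, (n i : ℚ) * (1 : Matrix (Fin r) (Fin r) ℚ) i j * (n j : ℚ) = (n i : ℚ) ^ 2 := by
    intro i
    rw [Finset.sum_eq_single i]
    · simp; ring
    · intro j _ hj
      simp [Matrix.one_apply_ne' hj]
    · simp
  simp only [h1, sum_add_distrib]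
  rw [← Finset.sum_div]
  ring

lemma qr_sum {ι : Type*} (s : Finset ι) (x : ι → ℝ) (τ : ℍ) :
    qr (∑ i ∈ s, x i) τ = ∏ i ∈ s, qr (x i) τ := by
  classical
  induction s using Finset.induction_on with
  | empty => simp [qr_zero]
  | insert a s ha ih => rw [sum_insert ha, prod_insert ha, qr_add, ih]

lemma eterm_qr (x : ℝ) (k : ℕ) (τ : ℍ) :
    eterm (qr 1 τ) (qr (x + 1 / 2) τ) k = qr ((k : ℝ) ^ 2 / 2 + x * k) τ / poch (qr 1 τ) k := by
  unfold eterm
  congr 1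
  rw [← qr_nat, ← qr_nat_mul, ← qr_add, Nat.cast_choose_two]
  congr 1
  ring

lemma nahm_term {r : ℕ} (B : Fin r → ℚ) (C : ℚ) (n : Fin r → ℕ) (τ : ℍ) :
    qPow (nahmExp (1 : Matrix (Fin r) (Fin r) ℚ) B C n) τ / ∏ i, qFac (n i) τ =
      qr C τ * ∏ i, eterm (qr 1 τ) (qr ((B i : ℝ) + 1 / 2) τ) (n i) := by
  simp only [eterm_qr, qFac_eq, prod_div_distrib]
  rw [qPow_eq, nahmExp_one, mul_div_assoc']
  congr 1
  rw [← qr_sum, ← qr_add]
  congr 1
  push_cast
  rfl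

/-- The Nahm sum of the identity matrix converges absolutely and is a product. -/
theorem nahmSum_one {r : ℕ} (B : Fin r → ℚ) (C : ℚ) (τ : ℍ) :
    (Summable fun n : Fin r → ℕ =>
      ‖qPow (nahmExp (1 : Matrix (Fin r) (Fin r) ℚ) B C n) τ / ∏ i, qFac (n i) τ‖) ∧
    nahmSum (1 : Matrix (Fin r) (Fin r) ℚ) B C τ = qr C τ * ∏ i, E (B i) τ := by
  have hq := norm_qr_one_lt τ
  obtain ⟨h1, h2⟩ := summable_tsum_pi
    (fun i k => eterm (qr 1 τ) (qr ((B i : ℝ) + 1 / 2) τ) k)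
    (fun i => summable_norm_eterm hq _)
  constructor
  · simp only [nahm_term, norm_mul]
    exact h1.mul_left _
  · unfold nahmSum
    simp only [nahm_term]
    rw [tsum_mul_left, h2]
    simp only [tsum_eterm hq]
    rfl

end Pool.Agent.Lib.MP_8ce23f_nt
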