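import Mathlib
import Pool.Agent.Lib.MP_8ce23f_nt.NahmOne

/-!
# Classification of modular Nahm sums for the identity matrix
-/

open Filter Topology Finset Complex
open scoped Real MatrixGroups Manifold
open UpperHalfPlane hiding I

namespace Pool.Agent.Lib.MP_8ce23f_nt

lemma isModular_of_good {f : ℍ → ℂ} (hf : Good f) : IsModularFunction f := by
  obtain ⟨Γ, hΓ, hinv⟩ := (orb_finite_iff f).mp hf.fin
  refine ⟨Γ, hΓ, hinv, fun τ => ?_, fun γ => ?_⟩
  · have h1 := UpperHalfPlane.mdifferentiable_iff.mp hf.mdiff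
    have h2 := (h1.analyticOnNhd isOpen_upperHalfPlaneSet) τ τ.2
    exact h2.meromorphicAt
  · obtain ⟨m, hm⟩ := hf.growth _ ⟨γ, rfl⟩
    refine ⟨m, ?_⟩
    simpa [qPow_eq] using hm

lemma good_of_isModular {f : ℍ → ℂ} (hd : MDifferentiable 𝓘(ℂ) 𝓘(ℂ) f) (h0 : ∀ τ, f τ ≠ 0)
    (h : IsModularFunction f) : Good f := by
  obtain ⟨Γ, hΓ, hinv, -, hgr⟩ := h
  refine ⟨hd, h0, (orb_finite_iff f).mpr ⟨Γ, hΓ, hinv⟩, ?_⟩
  rintro _ ⟨γ, rfl⟩
  obtain ⟨m, hm⟩ := hgr γ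
  refine ⟨m, ?_⟩
  simpa [qPow_eq] using hm

/-- The product side. -/
noncomputable def FF {r : ℕ} (B : Fin r → ℚ) (C : ℚ) (τ : ℍ) : ℂ := qr C τ * ∏ i, E (B i) τ

lemma nahmSum_eq_FF {r : ℕ} (B : Fin r → ℚ) (C : ℚ) :
    nahmSum (1 : Matrix (Fin r) (Fin r) ℚ) B C = FF B C := by
  funext τ
  exact (nahmSum_one B C τ).2

lemma mdiff_prod {ι : Type*} (s : Finset ι) {f : ι → ℍ → ℂ}
    (h : ∀ i ∈ s, MDifferentiable 𝓘(ℂ) 𝓘(ℂ) (f i)) :
    MDifferentiable 𝓘(ℂ) 𝓘(ℂ) (fun τ => ∏ i ∈ s, f i τ) := by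
  classical
  induction s using Finset.induction_on with
  | empty => simpa using mdifferentiable_const
  | insert a s ha ih =>
    simp only [Finset.prod_insert ha]
    exact (h a (by simp)).mul (ih fun i hi => h i (by simp [hi]))

lemma FF_mdiff {r : ℕ} (B : Fin r → ℚ) (C : ℚ) : MDifferentiable 𝓘(ℂ) 𝓘(ℂ) (FF B C) :=
  (qr_mdifferentiable _).mul (mdiff_prod _ fun _ _ => E_mdifferentiable _)

lemma FF_ne_zero {r : ℕ} (B : Fin r → ℚ) (C : ℚ) (τ : ℍ) : FF B C τ ≠ 0 :=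
  mul_ne_zero (qr_ne_zero _ _) (prod_ne_zero_iff.mpr fun _ _ => E_ne_zero _ _)

/-- The exponent defect. -/
noncomputable def c0 {r : ℕ} (B : Fin r → ℚ) (C : ℚ) : ℝ :=
  2 * C - ∑ i, ((B i : ℝ) ^ 2 / 2 - 1 / 24)

lemma c0_eq_zero_iff {r : ℕ} (B : Fin r → ℚ) (C : ℚ) :
    c0 B C = 0 ↔ C = (∑ i, B i ^ 2) / 4 - (r : ℚ) / 48 := by
  have h : c0 B C = ((2 * (C - ((∑ i, B i ^ 2) / 4 - (r : ℚ) / 48)) : ℚ) : ℝ) := by
    unfold c0
    rw [sum_sub_distrib, ← sum_div]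
    push_cast
    simp
    ring
  rw [h]
  constructor
  · intro h1
    have h2 : 2 * (C - ((∑ i, B i ^ 2) / 4 - (r : ℚ) / 48)) = 0 := by exact_mod_cast h1
    linarith
  · intro h1
    rw [← h1]
    simp

lemma FF_sq {r : ℕ} (B : Fin r → ℚ) (C : ℚ) (τ : ℍ) :
    FF B C τ ^ 2 = (∏ i, gE (B i) τ) * (qr (c0 B C) τ * ∏ i, rat (B i) τ) := by
  have h1 : qr (2 * C) τ = qr (∑ i, ((B i : ℝ) ^ 2 / 2 - 1 / 24)) τ * qr (c0 B C) τ := by
    rw [← qr_add]
    congr 1
    unfold c0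
    ring
  have h2 : qr (2 * C) τ = qr C τ ^ 2 := by
    have := qr_nat_mul 2 (C : ℝ) τ
    simpa using this
  have h3 : (∏ i, gE (B i) τ) * ∏ i, rat (B i) τ =
      qr (∑ i, ((B i : ℝ) ^ 2 / 2 - 1 / 24)) τ * (∏ i, E (B i) τ) ^ 2 := by
    rw [qr_sum, ← prod_pow, ← prod_mul_distrib, ← prod_mul_distrib]
    apply prod_congr rfl
    intro i _
    unfold gE rat
    have := E_ne_zero (-(B i : ℝ)) τ
    field_simp
  calc FF B C τ ^ 2 = qr C τ ^ 2 * (∏ i, E (B i) τ) ^ 2 := by unfold FF; ring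
    _ = (qr (∑ i, ((B i : ℝ) ^ 2 / 2 - 1 / 24)) τ * (∏ i, E (B i) τ) ^ 2) * qr (c0 B C) τ := by
      rw [← h2, h1]; ring
    _ = _ := by rw [← h3]; ring

lemma rat_neg (x : ℝ) (τ : ℍ) : rat (-x) τ = (rat x τ)⁻¹ := by
  unfold rat
  rw [neg_neg, inv_div]

lemma rat_zero (τ : ℍ) : rat 0 τ = 1 := by
  unfold rat
  rw [neg_zero]
  exact div_self (E_ne_zero _ _)

lemma rat_neg_half (τ : ℍ) : rat (-(1 / 2)) τ = 2 := by
  unfold rat
  have h1 := E_shift (-(1 / 2)) τ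
  have h2 : (1 / 2 + -(1 / 2) : ℝ) = 0 := by ring
  have h3 : (-(1 / 2) + 1 : ℝ) = - -(1 / 2) := by ring
  rw [h2, h3, qr_zero] at h1
  rw [h1, mul_div_assoc, div_self (E_ne_zero _ _)]
  norm_num

/-- The condition on multiplicities. -/
def Sym {r : ℕ} (B : Fin r → ℚ) : Prop :=
  ∀ z : ℚ, z ≠ 0 → z ≠ 1 / 2 → z ≠ -(1 / 2) →
    (univ.filter fun i => B i = z).card = (univ.filter fun i => B i = -z).card

lemma prod_rat_sq_const {r : ℕ} {B : Fin r → ℚ} (h : Sym B) :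
    ∃ K : ℂ, K ≠ 0 ∧ ∀ τ : ℍ, (∏ i, rat (B i) τ) ^ 2 = K := by
  classical
  set s : Finset ℚ := univ.image B ∪ univ.image (fun i => -B i) with hs
  have hneg : ∀ z ∈ s, -z ∈ s := by
    intro z hz
    simp only [hs, mem_union, mem_image, mem_univ, true_and] at hz ⊢
    rcases hz with ⟨i, rfl⟩ | ⟨i, rfl⟩
    · right; exact ⟨i, rfl⟩
    · left; exact ⟨i, by simp⟩
  set m : ℚ → ℕ := fun z => (univ.filter fun i => B i = z).card with hm
  have hmaps : ∀ i ∈ (univ : Finset (Fin r)), B i ∈ s := by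
    intro i _
    simp only [hs, mem_union, mem_image, mem_univ, true_and]
    left; exact ⟨i, rfl⟩
  have h1 : ∀ τ : ℍ, ∏ i, rat (B i) τ = ∏ z ∈ s, rat (z : ℝ) τ ^ m z := by
    intro τ
    rw [← prod_fiberwise_of_maps_to hmaps]
    apply prod_congr rfl
    intro z _
    rw [hm, ← prod_const]
    apply prod_congr rfl
    intro i hi
    rw [(mem_filter.mp hi).2]
  have h2 : ∀ τ : ℍ, ∏ z ∈ s, rat (z : ℝ) τ ^ m z = ∏ z ∈ s, rat (((-z : ℚ)) : ℝ) τ ^ m (-z) := by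
    intro τ
    apply prod_bij' (fun z _ => -z) (fun z _ => -z) hneg hneg
    · intro z _; simp
    · intro z _; simp
    · intro z _; simp
  have h3 : ∀ τ : ℍ, (∏ i, rat (B i) τ) ^ 2 =
      ∏ z ∈ s, (rat (z : ℝ) τ ^ m z * rat (((-z : ℚ)) : ℝ) τ ^ m (-z)) := by
    intro τ
    rw [prod_mul_distrib, ← h2, ← h1, sq]
  have h4 : ∀ z : ℚ, ∃ k : ℂ, ∀ τ : ℍ,
      rat (z : ℝ) τ ^ m z * rat (((-z : ℚ)) : ℝ) τ ^ m (-z) = k := by
    intro z
    by_cases hz0 : z = 0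
    · subst hz0
      exact ⟨1, fun τ => by simp [rat_zero]⟩
    by_cases hz1 : z = 1 / 2
    · subst hz1
      refine ⟨2⁻¹ ^ m (1 / 2) * 2 ^ m (-(1 / 2)), fun τ => ?_⟩
      have e1 : rat (((1 / 2 : ℚ)) : ℝ) τ = 2⁻¹ := by
        have : (((1 / 2 : ℚ)) : ℝ) = -(-(1 / 2)) := by push_cast; ring
        rw [this, rat_neg, rat_neg_half]
      have e2 : rat (((-(1 / 2) : ℚ)) : ℝ) τ = 2 := by
        have : (((-(1 / 2) : ℚ)) : ℝ) = (-(1 / 2)) := by push_cast; ring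
        rw [this, rat_neg_half]
      rw [e1, e2]
    by_cases hz2 : z = -(1 / 2)
    · subst hz2
      refine ⟨2 ^ m (-(1 / 2)) * 2⁻¹ ^ m (- -(1 / 2)), fun τ => ?_⟩
      have e1 : rat (((- -(1 / 2) : ℚ)) : ℝ) τ = 2⁻¹ := by
        have : (((- -(1 / 2) : ℚ)) : ℝ) = -(-(1 / 2)) := by push_cast; ring
        rw [this, rat_neg, rat_neg_half]
      have e2 : rat (((-(1 / 2) : ℚ)) : ℝ) τ = 2 := by
        have : (((-(1 / 2) : ℚ)) : ℝ) = (-(1 / 2)) := by push_cast; ring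
        rw [this, rat_neg_half]
      rw [e1, e2]
    · refine ⟨1, fun τ => ?_⟩
      have e1 : m z = m (-z) := h z hz0 hz1 hz2
      rw [← e1, ← mul_pow]
      push_cast
      rw [rat_neg, mul_inv_cancel₀ (rat_ne_zero _ _), one_pow]
  choose k hk using h4
  refine ⟨∏ z ∈ s, k z, ?_, fun τ => ?_⟩
  · have h5 := h3 UpperHalfPlane.I
    rw [prod_congr rfl fun z _ => hk z UpperHalfPlane.I] at h5
    rw [← h5]
    exact pow_ne_zero _ (prod_ne_zero_iff.mpr fun _ _ => rat_ne_zero _ _)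
  · rw [h3, prod_congr rfl fun z _ => hk z τ]

/-- The `if` direction. -/
theorem good_FF {r : ℕ} {B : Fin r → ℚ} {C : ℚ} (h : Sym B) (hC : c0 B C = 0) : Good (FF B C) := by
  obtain ⟨K, hK, hP⟩ := prod_rat_sq_const h
  refine Good.of_pow (FF_mdiff B C) (n := 4) (by norm_num) ?_
  have h1 : (fun τ => FF B C τ ^ 4) = fun τ => K * (∏ i, gE (B i) τ) ^ 2 := by
    funext τ
    have h2 : FF B C τ ^ 4 = (FF B C τ ^ 2) ^ 2 := by ring
    rw [h2, FF_sq, hC, qr_zero, one_mul, mul_pow, hP τ]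
    ring
  rw [h1]
  exact (Good.const hK).mul ((Good.prod _ fun i _ => good_gE (B i)).pow 2)

lemma qr_pt_zero {M : ℕ} {t : ℝ} (hy : 0 < -(M * Real.log t) / (2 * π))
    (x : ℝ) : qr x (pt 0 (-(M * Real.log t) / (2 * π)) hy) =
      ((Real.exp (M * x * Real.log t) : ℝ) : ℂ) := by
  rw [qr_pt]
  have hπ := Real.pi_pos
  have e : -(2 * π * x * (-(M * Real.log t) / (2 * π))) = M * x * Real.log t := by
    field_simp
  rw [e]
  simp

lemma qr_pt_zero_int {M : ℕ} {t : ℝ} (h0 : 0 < t)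
    (hy : 0 < -(M * Real.log t) / (2 * π)) {x : ℝ} {b : ℤ} (hx : M * x = b) :
    qr x (pt 0 (-(M * Real.log t) / (2 * π)) hy) = ((t ^ b : ℝ) : ℂ) := by
  rw [qr_pt_zero, hx, mul_comm, Real.exp_mul, Real.exp_log h0, Real.rpow_intCast]

lemma E_pt {M : ℕ} (hM : 0 < M) {t : ℝ} (h0 : 0 < t) (h1 : t < 1)
    (hy : 0 < -(M * Real.log t) / (2 * π)) {x : ℝ} {b : ℤ} (hx : M * (x + 1 / 2) = b) :
    E x (pt 0 (-(M * Real.log t) / (2 * π)) hy) = ((Real.exp (Phi M b t) : ℝ) : ℂ) := by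
  have hpos : ∀ k : ℕ, 0 < 1 + t ^ ((M : ℤ) * k + b) := fun k => by positivity
  rw [E_eq]
  unfold Phi
  rw [Real.rexp_tsum_eq_tprod hpos (summable_Phi hM b h0 h1)]
  have h2 : ∀ k : ℕ, qr (k + 1 / 2 + x) (pt 0 (-(M * Real.log t) / (2 * π)) hy) =
      ((t ^ ((M : ℤ) * k + b) : ℝ) : ℂ) := by
    intro k
    apply qr_pt_zero_int h0
    push_cast
    rw [← hx]
    ring
  simp only [h2]
  have h3 : Multipliable fun k : ℕ => (1 + t ^ ((M : ℤ) * k + b) : ℝ) :=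
    Real.multipliable_of_summable_log hpos (summable_Phi hM b h0 h1)
  have h4 := h3.hasProd.map Complex.ofRealHom Complex.continuous_ofReal
  have h5 := h4.tprod_eq
  rw [← Complex.ofRealHom_eq_coe, ← h5]
  apply tprod_congr
  intro k
  simp

/-- The `only if` direction, first part. -/
theorem sym_of_good {r : ℕ} {B : Fin r → ℚ} {C : ℚ} (h : Good (FF B C)) : Sym B := by
  have hg : Good (fun τ => ∏ i, gE (B i : ℝ) τ) := Good.prod _ fun i _ => good_gE (B i)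
  have hR : Good (fun τ => qr (c0 B C) τ * ∏ i, rat (B i) τ) := by
    have h1 := (h.pow 2).mul hg.inv
    have h2 : (fun τ => FF B C τ ^ 2 * (∏ i, gE (B i : ℝ) τ)⁻¹) =
        fun τ => qr (c0 B C) τ * ∏ i, rat (B i) τ := by
      funext τ
      rw [FF_sq]
      have := hg.ne_zero τ
      field_simp
    rw [h2] at h1
    exact h1
  have hPB : PB (fun τ => qr (c0 B C) τ * ∏ i, rat (B i) τ) :=
    (PB_qr _).mul (PB.prod _ fun i _ => PB_rat _)
  obtain ⟨c, hc⟩ := const_of_PB hR hPB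
  intro z hz0 hz1 hz2
  set M : ℕ := 2 * (z.den * ∏ i, (B i).den) with hMdef
  have hM : 0 < M := by
    have h1 : 0 < ∏ i, (B i).den := prod_pos fun i _ => (B i).den_pos
    have h2 := z.den_pos
    positivity
  have hMQ : (M : ℚ) ≠ 0 := by exact_mod_cast hM.ne'
  have hint : ∀ x : ℚ, (x.den ∣ z.den * ∏ i, (B i).den) → ∃ b : ℤ, (M : ℚ) * (x + 1 / 2) = b := by
    intro x hx
    obtain ⟨k, hk⟩ := hx
    refine ⟨2 * k * x.num + x.den * k, ?_⟩
    have e1 : (M : ℚ) = 2 * (x.den * k) := by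
      rw [hMdef, hk]; push_cast; ring
    have e2 : (x.den : ℚ) * x = x.num := Rat.den_mul_eq_num x
    rw [e1]
    push_cast
    linear_combination (2 * k : ℚ) * e2
  have hB : ∀ i, ∃ b : ℤ, (M : ℚ) * (B i + 1 / 2) = b := fun i =>
    hint (B i) (dvd_mul_of_dvd_right (dvd_prod_of_mem (fun i => (B i).den) (mem_univ i)) _)
  choose b hb using hB
  obtain ⟨N, hN⟩ := hint z (dvd_mul_right _ _)
  have hkey : ∀ t : ℝ, 0 < t → t < 1 →
      (M * c0 B C) * Real.log t + ∑ i, (Phi M (b i) t - Phi M (M - b i) t) = Real.log ‖c‖ := by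
    intro t h0 h1
    have hy : 0 < -(M * Real.log t) / (2 * π) := by
      have hl := Real.log_neg h0 h1
      have hM' : (0 : ℝ) < M := by exact_mod_cast hM
      have hπ := Real.pi_pos
      apply div_pos _ (by positivity)
      nlinarith
    have hMR : ∀ i, (M : ℝ) * ((B i : ℝ) + 1 / 2) = (b i : ℤ) := by
      intro i
      have := hb i
      have h3 : (((M : ℚ) * (B i + 1 / 2) : ℚ) : ℝ) = ((b i : ℚ) : ℝ) := by rw [this]
      push_cast at h3
      exact h3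
    have hMR' : ∀ i, (M : ℝ) * (-(B i : ℝ) + 1 / 2) = ((M - b i : ℤ) : ℝ) := by
      intro i
      push_cast
      rw [← hMR i]
      ring
    have h3 := hc (pt 0 (-(M * Real.log t) / (2 * π)) hy)
    simp only [rat] at h3
    rw [qr_pt_zero] at h3
    have h4 : ∀ i, E (B i : ℝ) (pt 0 (-(M * Real.log t) / (2 * π)) hy) /
        E (-(B i : ℝ)) (pt 0 (-(M * Real.log t) / (2 * π)) hy) =
        ((Real.exp (Phi M (b i) t - Phi M (M - b i) t) : ℝ) : ℂ) := by
      intro i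
      rw [E_pt hM h0 h1 hy (hMR i), E_pt hM h0 h1 hy (hMR' i), Real.exp_sub]
      push_cast
      rfl
    simp only [h4] at h3
    rw [← h3, ← Complex.ofReal_prod, ← Real.exp_sum, ← Complex.ofReal_mul, ← Real.exp_add,
      Complex.norm_real, Real.norm_eq_abs, Real.abs_exp, Real.log_exp]
  have hN0 : N ≠ 0 := by
    rintro rfl
    apply hz2
    have h3 : (z + 1 / 2) = 0 := by
      rcases mul_eq_zero.mp (hN.trans (by simp)) with h | h
      · exact absurd h hMQ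
      · exact h
    linarith
  have hNM : N ≠ M := by
    rintro rfl
    apply hz1
    have h3 : (M : ℚ) * (z + 1 / 2) = M * 1 := by rw [hN]; push_cast; ring
    have h4 := mul_left_cancel₀ hMQ h3
    linarith
  have h5 := count_eq hM b _ _ hkey N hN0 hNM
  have e1 : (univ.filter fun i => B i = z) = univ.filter fun i => b i = N := by
    apply filter_congr
    intro i _
    constructor
    · intro h6
      have h7 := hb i
      rw [h6, hN] at h7
      exact_mod_cast h7.symm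
    · intro h6
      have h7 : (M : ℚ) * (B i + 1 / 2) = M * (z + 1 / 2) := by rw [hb i, hN, h6]
      have h8 := mul_left_cancel₀ hMQ h7
      linarith
  have e2 : (univ.filter fun i => B i = -z) = univ.filter fun i => b i = M - N := by
    apply filter_congr
    intro i _
    constructor
    · intro h6
      have h7 : ((b i : ℤ) : ℚ) = ((M - N : ℤ) : ℚ) := by
        rw [← hb i, h6]
        push_cast
        rw [← hN]
        ring
      exact_mod_cast h7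
    · intro h6
      have h7 : (M : ℚ) * (B i + 1 / 2) = M * (-z + 1 / 2) := by
        rw [hb i, h6]
        push_cast
        rw [← hN]
        ring
      have h8 := mul_left_cancel₀ hMQ h7
      linarith
  rw [e1, e2]
  exact h5

theorem c0_of_good {r : ℕ} {B : Fin r → ℚ} {C : ℚ} (h : Good (FF B C)) : c0 B C = 0 := by
  have hg : Good (fun τ => ∏ i, gE (B i : ℝ) τ) := Good.prod _ fun i _ => good_gE (B i)
  have hR : Good (fun τ => qr (c0 B C) τ * ∏ i, rat (B i) τ) := by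
    have h1 := (h.pow 2).mul hg.inv
    have h2 : (fun τ => FF B C τ ^ 2 * (∏ i, gE (B i : ℝ) τ)⁻¹) =
        fun τ => qr (c0 B C) τ * ∏ i, rat (B i) τ := by
      funext τ
      rw [FF_sq]
      have := hg.ne_zero τ
      field_simp
    rw [h2] at h1
    exact h1
  have hPB : PB (fun τ => qr (c0 B C) τ * ∏ i, rat (B i) τ) :=
    (PB_qr _).mul (PB.prod _ fun i _ => PB_rat _)
  obtain ⟨c, hc⟩ := const_of_PB hR hPB
  obtain ⟨K, hK, hP⟩ := prod_rat_sq_const (sym_of_good h)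
  have h1 : ∀ τ, qr (c0 B C) τ ^ 2 * K = c ^ 2 := by
    intro τ
    rw [← hP τ, ← mul_pow, hc τ]
  have h2 : qr (c0 B C) (pt 0 1 one_pos) ^ 2 = qr (c0 B C) (pt 0 2 two_pos) ^ 2 := by
    have h3 := (h1 (pt 0 1 one_pos)).trans (h1 (pt 0 2 two_pos)).symm
    exact mul_right_cancel₀ hK h3
  have h4 : ‖qr (c0 B C) (pt 0 1 one_pos)‖ ^ 2 = ‖qr (c0 B C) (pt 0 2 two_pos)‖ ^ 2 := by
    rw [← norm_pow, ← norm_pow, h2]
  rw [norm_qr, norm_qr, pt_im, pt_im, ← Real.exp_nat_mul, ← Real.exp_nat_mul] at h4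
  have h5 := Real.exp_injective h4
  have hπ := Real.pi_pos
  have h6 : π * c0 B C = 0 := by
    push_cast at h5
    linarith
  rcases mul_eq_zero.mp h6 with h7 | h7
  · exact absurd h7 hπ.ne'
  · exact h7

/-- **Classification.** -/
theorem isModular_nahmSum_one_iff {r : ℕ} (B : Fin r → ℚ) (C : ℚ) :
    IsModularFunction (nahmSum (1 : Matrix (Fin r) (Fin r) ℚ) B C) ↔
      C = (∑ i, B i ^ 2) / 4 - (r : ℚ) / 48 ∧ Sym B := by
  rw [nahmSum_eq_FF, ← c0_eq_zero_iff]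
  constructor
  · intro h
    have hg := good_of_isModular (FF_mdiff B C) (FF_ne_zero B C) h
    exact ⟨c0_of_good hg, sym_of_good hg⟩
  · rintro ⟨h1, h2⟩
    exact isModular_of_good (good_FF h2 h1)

/-- The vector `(z, -z, 0, ..., 0)`. -/
def antiVec (r : ℕ) (hr : 2 ≤ r) (z : ℚ) (i : Fin r) : ℚ :=
  if i = ⟨0, by omega⟩ then z else if i = ⟨1, by omega⟩ then -z else 0

lemma antiVec_swap (r : ℕ) (hr : 2 ≤ r) (z : ℚ) (i : Fin r) :
    antiVec r hr z (Equiv.swap ⟨0, by omega⟩ ⟨1, by omega⟩ i) = -antiVec r hr z i := by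
  unfold antiVec
  have h01 : (⟨0, by omega⟩ : Fin r) ≠ ⟨1, by omega⟩ := by simp
  by_cases h0 : i = ⟨0, by omega⟩
  · subst h0
    rw [Equiv.swap_apply_left, if_neg h01.symm, if_pos rfl, if_pos rfl]
  · by_cases h1 : i = ⟨1, by omega⟩
    · subst h1
      rw [Equiv.swap_apply_right, if_pos rfl, if_neg h01.symm, if_pos rfl, neg_neg]
    · rw [Equiv.swap_apply_of_ne_of_ne h0 h1, if_neg h0, if_neg h1]
      simp

lemma sym_antiVec (r : ℕ) (hr : 2 ≤ r) (z : ℚ) : Sym (antiVec r hr z) := by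
  intro w _ _ _
  apply Finset.card_bij' (fun i _ => Equiv.swap ⟨0, by omega⟩ ⟨1, by omega⟩ i)
    (fun i _ => Equiv.swap ⟨0, by omega⟩ ⟨1, by omega⟩ i)
  case hi =>
    intro i hi
    rw [mem_filter] at hi ⊢
    exact ⟨mem_univ _, by rw [antiVec_swap, hi.2]⟩
  case hj =>
    intro i hi
    rw [mem_filter] at hi ⊢
    exact ⟨mem_univ _, by rw [antiVec_swap, hi.2, neg_neg]⟩
  · intro i _; simp
  · intro i _; simp

lemma antiVec_injective (r : ℕ) (hr : 2 ≤ r) : Function.Injective (antiVec r hr) := by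
  intro z w h
  have := congrFun h ⟨0, by omega⟩
  simpa [antiVec] using this

/-- In rank at least two, the identity matrix has infinitely many admissible vectors. -/
theorem admissible_one_infinite (r : ℕ) (hr : 2 ≤ r) :
    {B : Fin r → ℚ | Admissible (1 : Matrix (Fin r) (Fin r) ℚ) B}.Infinite := by
  apply (Set.infinite_range_of_injective (antiVec_injective r hr)).mono
  rintro _ ⟨z, rfl⟩
  exact ⟨_, (isModular_nahmSum_one_iff _ _).mpr ⟨rfl, sym_antiVec r hr z⟩⟩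

end Pool.Agent.Lib.MP_8ce23f_nt
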